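import Pool.Agent.Q270.SQ.Norm

/-!
# A number is normal if and only if almost all members of a sequence of approximations have normal
first digits
-/

set_option autoImplicit false

namespace Pool.Agent.Q270.SQ

open Finset Real Filter Asymptotics Topology
open Pool.Agent.Y933.KD (wd wd_lt)

/-- the number of the occurrences of a word in a window -/
noncomputable def wc (b k s L D : ℕ) (y : ℝ) : ℕ :=
  ((range L).filter (fun i => wd b k (s + i) y = D)).card

lemma wc_le (b k s L D : ℕ) (y : ℝ) : wc b k s L D y ≤ L := by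
  unfold wc
  exact (card_filter_le _ _).trans (by rw [card_range])

lemma wc_add (b k s L M D : ℕ) (y : ℝ) :
    wc b k s (L + M) D y = wc b k s L D y + wc b k (s + L) M D y := by
  unfold wc
  rw [Finset.range_add_eq_union, Finset.filter_union, Finset.card_union_of_disjoint]
  · congr 1
    rw [Finset.filter_map, Finset.card_map]
    congr 1
    refine filter_congr fun i _ => ?_
    simp only [Function.comp, addLeftEmbedding_apply, add_assoc]
  · refine (Finset.disjoint_range_addLeftEmbedding L (range M)).mono (filter_subset _ _)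
      (filter_subset _ _)

lemma wc_zero (b k s D : ℕ) (y : ℝ) : wc b k s 0 D y = 0 := by
  unfold wc
  simp

lemma wd_cast {b : ℕ} (hb : 1 ≤ b) (k n : ℕ) (y : ℝ) :
    ((wd b k n y : ℕ) : ℤ) = ⌊(b : ℝ) ^ (n + k) * y⌋ % ((b : ℤ) ^ k) := by
  have hb' : (0 : ℝ) < b := by exact_mod_cast hb
  have h1 : ((wd b k n y : ℕ) : ℤ) = ⌊(b : ℝ) ^ (n + k) * y⌋ - (b : ℤ) ^ k * ⌊(b : ℝ) ^ n * y⌋ := by
    unfold wd
    rw [Int.natCast_floor_eq_floor (mul_nonneg (by positivity) (Int.fract_nonneg _))]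
    have h2 : (b : ℝ) ^ k * Int.fract ((b : ℝ) ^ n * y) =
        (b : ℝ) ^ (n + k) * y - (((b : ℤ) ^ k * ⌊(b : ℝ) ^ n * y⌋ : ℤ) : ℝ) := by
      rw [Int.fract]
      push_cast
      rw [pow_add]
      ring
    rw [h2, Int.floor_sub_intCast]
  have h3 : ((wd b k n y : ℕ) : ℤ) % ((b : ℤ) ^ k) = ((wd b k n y : ℕ) : ℤ) := by
    apply Int.emod_eq_of_lt (by positivity)
    have := wd_lt hb k n y
    exact_mod_cast this
  rw [← h3, h1]
  simp [Int.sub_emod]

/-- two numbers which are close have the same words, except near a run of digits `0` or `b - 1` -/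
lemma wd_near {b : ℕ} (hb : 1 ≤ b) {k n q : ℕ} {y z : ℝ}
    (h : |y - z| * (b : ℝ) ^ (n + k + q) ≤ 1) (hne : wd b k n y ≠ wd b k n z) :
    wd b q (n + k) y = 0 ∨ wd b q (n + k) y = b ^ q - 1 := by
  have hb' : (0 : ℝ) < b := by exact_mod_cast hb
  set Y : ℝ := (b : ℝ) ^ (n + k) * y with hY
  set Z : ℝ := (b : ℝ) ^ (n + k) * z with hZ
  have hfl : ⌊Y⌋ ≠ ⌊Z⌋ := by
    intro h1
    apply hne
    have h2 := wd_cast hb k n y
    have h3 := wd_cast hb k n z
    rw [← hY] at h2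
    rw [← hZ, ← h1, ← h2] at h3
    exact_mod_cast h3.symm
  have hq0 : (0 : ℝ) < (b : ℝ) ^ q := by positivity
  have hYZ : (b : ℝ) ^ q * |Y - Z| ≤ 1 := by
    have h1 : |Y - Z| = |y - z| * (b : ℝ) ^ (n + k) := by
      rw [hY, hZ, ← mul_sub, abs_mul, abs_of_pos (by positivity), mul_comm]
    rw [h1]
    calc (b : ℝ) ^ q * (|y - z| * (b : ℝ) ^ (n + k)) = |y - z| * (b : ℝ) ^ (n + k + q) := by
          rw [pow_add (b : ℝ) (n + k) q]; ring
      _ ≤ 1 := h
  have hf0 := Int.fract_nonneg Y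
  have hf1 := Int.fract_lt_one Y
  rcases lt_or_gt_of_ne hfl with h1 | h1
  · right
    have h2 : ((⌊Y⌋ : ℤ) : ℝ) + 1 ≤ Z := by
      have h3 : ⌊Y⌋ + 1 ≤ ⌊Z⌋ := h1
      have h4 : ((⌊Y⌋ + 1 : ℤ) : ℝ) ≤ ⌊Z⌋ := by exact_mod_cast h3
      push_cast at h4
      exact h4.trans (Int.floor_le Z)
    have h5 : 1 - Int.fract Y ≤ |Y - Z| := by
      rw [abs_sub_comm]
      refine le_trans ?_ (le_abs_self _)
      have := Int.floor_add_fract Y
      linarith
    have h6 : (b : ℝ) ^ q * (1 - Int.fract Y) ≤ 1 :=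
      (mul_le_mul_of_nonneg_left h5 hq0.le).trans hYZ
    unfold wd
    rw [← hY]
    have h7 : 1 ≤ b ^ q := Nat.one_le_pow _ _ hb
    rw [Nat.floor_eq_iff (mul_nonneg hq0.le hf0)]
    push_cast [Nat.cast_sub h7]
    constructor
    · linarith
    · nlinarith
  · left
    have h2 : Z < (⌊Y⌋ : ℤ) := by
      by_contra hcon
      push Not at hcon
      have := Int.le_floor.2 hcon
      omega
    have h5 : Int.fract Y < |Y - Z| := by
      refine lt_of_lt_of_le ?_ (le_abs_self _)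
      have := Int.floor_add_fract Y
      linarith
    have h6 : (b : ℝ) ^ q * Int.fract Y < 1 :=
      (mul_lt_mul_of_pos_left h5 hq0).trans_le hYZ
    unfold wd
    rw [← hY]
    exact Nat.floor_eq_zero.2 h6

/-- comparison of the counts for two numbers which are close -/
lemma wc_near {b : ℕ} (hb : 1 ≤ b) {k s L q : ℕ} (D : ℕ) {y z : ℝ}
    (h : |y - z| * (b : ℝ) ^ (s + L + k + q) ≤ 1) :
    |(wc b k s L D y : ℝ) - wc b k s L D z| ≤
      wc b q (s + k) L 0 y + wc b q (s + k) L (b ^ q - 1) y := by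
  have hb1 : (1 : ℝ) ≤ b := by exact_mod_cast hb
  set N1 := (range L).filter (fun i => wd b q (s + k + i) y = 0) with hN1
  set N2 := (range L).filter (fun i => wd b q (s + k + i) y = b ^ q - 1) with hN2
  have hnear : ∀ i ∈ range L, wd b k (s + i) y ≠ wd b k (s + i) z → i ∈ N1 ∪ N2 := by
    intro i hi hne
    have h1 : |y - z| * (b : ℝ) ^ (s + i + k + q) ≤ 1 := by
      refine le_trans (mul_le_mul_of_nonneg_left ?_ (abs_nonneg _)) h
      exact pow_le_pow_right₀ hb1 (by have := mem_range.1 hi; omega)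
    have h2 := wd_near hb h1 hne
    rw [show s + i + k = s + k + i by ring] at h2
    rw [mem_union, hN1, hN2, mem_filter, mem_filter]
    rcases h2 with h2 | h2
    · exact Or.inl ⟨hi, h2⟩
    · exact Or.inr ⟨hi, h2⟩
  have key : ∀ y' z' : ℝ, (∀ i ∈ range L, wd b k (s + i) y' ≠ wd b k (s + i) z' → i ∈ N1 ∪ N2) →
      (wc b k s L D y' : ℝ) ≤ wc b k s L D z' + (N1.card + N2.card) := by
    intro y' z' hyz
    have h1 : (range L).filter (fun i => wd b k (s + i) y' = D) ⊆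
        (range L).filter (fun i => wd b k (s + i) z' = D) ∪ (N1 ∪ N2) := by
      intro i hi
      rw [mem_filter] at hi
      rw [mem_union]
      by_cases hz : wd b k (s + i) z' = D
      · exact Or.inl (mem_filter.2 ⟨hi.1, hz⟩)
      · exact Or.inr (hyz i hi.1 (by rw [hi.2]; exact fun h => hz h.symm))
    have h2 := (card_le_card h1).trans (card_union_le _ _)
    have h3 := card_union_le N1 N2
    have h4 : wc b k s L D y' ≤ wc b k s L D z' + (N1.card + N2.card) := by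
      unfold wc
      omega
    exact_mod_cast h4
  have h1 := key y z hnear
  have h2 := key z y (fun i hi hne => hnear i hi (fun h => hne h.symm))
  have h3 : (wc b q (s + k) L 0 y : ℝ) = N1.card := rfl
  have h4 : (wc b q (s + k) L (b ^ q - 1) y : ℝ) = N2.card := rfl
  rw [h3, h4, abs_le]
  constructor <;> linarith

/-- all words of length at most `w` have the right frequency, up to `E`, in all windows up to `T` -/
def Fine (b w : ℕ) (T E : ℝ) (y : ℝ) : Prop :=
  ∀ k D s L : ℕ, 1 ≤ k → k ≤ w → D < b ^ k → (s : ℝ) + L ≤ T →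
    |(wc b k s L D y : ℝ) - L / (b : ℝ) ^ k| ≤ E

/-- normality in the base `b` -/
def NormalB (b : ℕ) (x : ℝ) : Prop :=
  ∀ k D : ℕ, 1 ≤ k → D < b ^ k →
    Tendsto (fun L : ℕ => (wc b k 0 L D x : ℝ) / L) atTop (𝓝 (1 / (b : ℝ) ^ k))

lemma wc_abs_le {b k s L D : ℕ} (hb : 1 ≤ b) (y : ℝ) :
    |(wc b k s L D y : ℝ) - L / (b : ℝ) ^ k| ≤ L := by
  have h1 : (wc b k s L D y : ℝ) ≤ L := by exact_mod_cast wc_le b k s L D y
  have h2 : (0 : ℝ) ≤ wc b k s L D y := Nat.cast_nonneg _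
  have hb1 : (1 : ℝ) ≤ b := by exact_mod_cast hb
  have h3 : (L : ℝ) / (b : ℝ) ^ k ≤ L := div_le_self (Nat.cast_nonneg _) (one_le_pow₀ hb1)
  have h4 : (0 : ℝ) ≤ (L : ℝ) / (b : ℝ) ^ k := by positivity
  rw [abs_le]
  constructor <;> linarith

lemma fine_of_normal {b : ℕ} (hb : 1 ≤ b) {x : ℝ} (hx : NormalB b x) (w : ℕ) {ε : ℝ} (hε : 0 < ε) :
    ∃ T0 : ℝ, ∀ T : ℝ, T0 ≤ T → Fine b w T (ε * T) x := by
  have hone : ∀ k D : ℕ, ∃ L0 : ℕ, 1 ≤ k → D < b ^ k → ∀ L : ℕ,
      |(wc b k 0 L D x : ℝ) - L / (b : ℝ) ^ k| ≤ ε / 4 * L + L0 := by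
    intro k D
    by_cases hkD : 1 ≤ k ∧ D < b ^ k
    swap
    · exact ⟨0, fun h1 h2 => absurd ⟨h1, h2⟩ hkD⟩
    have h1 := hx k D hkD.1 hkD.2
    have h2 := (Metric.tendsto_atTop.1 h1) (ε / 4) (by positivity)
    obtain ⟨L0, hL0⟩ := h2
    refine ⟨L0, fun _ _ L => ?_⟩
    rcases le_or_gt L L0 with h | h
    · refine (wc_abs_le hb x).trans ?_
      have : (L : ℝ) ≤ L0 := by exact_mod_cast h
      have h3 : 0 ≤ ε / 4 * (L : ℝ) := by positivity
      linarith
    · have h3 := hL0 L h.le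
      have hL : (0 : ℝ) < L := by
        have : 0 < L := by omega
        exact_mod_cast this
      rw [Real.dist_eq] at h3
      have h4 : (wc b k 0 L D x : ℝ) - L / (b : ℝ) ^ k =
          ((wc b k 0 L D x : ℝ) / L - 1 / (b : ℝ) ^ k) * L := by
        field_simp
      rw [h4, abs_mul, abs_of_pos hL]
      have h5 : (0 : ℝ) ≤ L0 := Nat.cast_nonneg _
      nlinarith
  choose L0 hL0 using hone
  set M : ℕ := ∑ k ∈ range (w + 1), ∑ D ∈ range (b ^ k), L0 k D with hM
  refine ⟨4 * M / ε, fun T hT => ?_⟩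
  intro k D s L hk hkw hD hsL
  have h0 : (L0 k D : ℝ) ≤ M := by
    have h1 : L0 k D ≤ ∑ D ∈ range (b ^ k), L0 k D :=
      single_le_sum (f := fun D => L0 k D) (fun _ _ => Nat.zero_le _) (mem_range.2 hD)
    have h2 : ∑ D ∈ range (b ^ k), L0 k D ≤ M :=
      single_le_sum (f := fun k => ∑ D ∈ range (b ^ k), L0 k D) (fun _ _ => Nat.zero_le _)
        (mem_range.2 (by omega))
    exact_mod_cast h1.trans h2
  have h1 := hL0 k D hk hD (s + L)
  have h2 := hL0 k D hk hD s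
  have h3 := wc_add b k 0 s L D x
  rw [zero_add] at h3
  have h4 : (wc b k s L D x : ℝ) - L / (b : ℝ) ^ k =
      ((wc b k 0 (s + L) D x : ℝ) - ((s + L : ℕ) : ℝ) / (b : ℝ) ^ k) -
        ((wc b k 0 s D x : ℝ) - s / (b : ℝ) ^ k) := by
    rw [h3]
    push_cast
    ring
  rw [h4]
  refine (abs_sub _ _).trans ?_
  push_cast
  have h5 : 4 * (M : ℝ) ≤ ε * T := by
    rw [div_le_iff₀ hε] at hT
    linarith
  have hs0 : (0 : ℝ) ≤ s := Nat.cast_nonneg _
  have hL00 : (0 : ℝ) ≤ L := Nat.cast_nonneg _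
  push_cast at h1
  have h6 : ε / 4 * ((s : ℝ) + L) ≤ ε / 4 * T := by gcongr
  have h7 : ε / 4 * (s : ℝ) ≤ ε / 4 * T := by
    have : (s : ℝ) ≤ T := by linarith
    gcongr
  linarith

section

variable {b : ℕ} {κ x A : ℝ} {g : ℕ → ℝ} {I : ℕ → Finset ℕ}

open Classical in
/-- if `x` is normal, then almost all approximations have normal first digits -/
theorem crit_one (hb : 2 ≤ b) (hκ : 0 < κ) (hA : 0 < A) (hI : GoodI I)
    (hclose : ∃ (C : ℝ) (m0 : ℕ), ∀ m : ℕ, m0 ≤ m → |g m - x| ≤ C * (m : ℝ) ^ (-κ))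
    (hnorm : ∀ (δ : ℝ) (w : ℕ) (ε : ℝ), 0 < δ → 0 < ε → ∃ c : ℝ, 0 < c ∧ ∃ M₀ : ℕ, ∀ M : ℕ,
      M₀ ≤ M → (((I M).filter (fun m => ¬ ∀ k D s L : ℕ, 1 ≤ k → k ≤ w → D < b ^ k →
        (M : ℝ) ^ (κ + δ) ≤ (b : ℝ) ^ s → (s : ℝ) + L ≤ A * log M →
        |(wc b k s L D (g m) : ℝ) - L / (b : ℝ) ^ k| ≤ ε * log M)).card : ℝ) ≤
        (I M).card * (M : ℝ) ^ (-c))
    (hx : NormalB b x) (w : ℕ) {ε : ℝ} (hε : 0 < ε) :
    ∃ c : ℝ, 0 < c ∧ ∃ M₀ : ℕ, ∀ M : ℕ, M₀ ≤ M →
      (((I M).filter (fun m => ¬ Fine b w (A * log M) (ε * log M) (g m))).card : ℝ) ≤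
        (I M).card * (M : ℝ) ^ (-c) := by
  have hb1 : 1 ≤ b := by omega
  have hbR : (2 : ℝ) ≤ b := by exact_mod_cast hb
  have hb0 : (0 : ℝ) < b := by linarith
  have hb1R : (1 : ℝ) ≤ b := by linarith
  set lam : ℝ := log b with hlam
  have hlam0 : 0 < lam := Real.log_pos (by linarith)
  obtain ⟨C, m0, hC⟩ := hclose
  -- the length of the runs
  obtain ⟨q, hq⟩ := pow_unbounded_of_one_lt (16 * A / ε) (show (1 : ℝ) < b by linarith)
  have hqb : 2 * A / (b : ℝ) ^ q ≤ ε / 8 := by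
    rw [div_le_iff₀ (by positivity)]
    rw [div_lt_iff₀ hε] at hq
    linarith
  set η : ℝ := min (1 / 2) (ε * lam / (16 * (κ + 1))) with hη
  have hη0 : 0 < η := lt_min (by norm_num) (by positivity)
  have hη1 : η ≤ 1 / 2 := min_le_left _ _
  have hη2 : η * (κ + 1) ≤ ε * lam / 16 := by
    have h1 : η ≤ ε * lam / (16 * (κ + 1)) := min_le_right _ _
    rw [le_div_iff₀ (by positivity)] at h1
    linarith
  set δ : ℝ := ε * lam / 32 with hδ
  have hδ0 : 0 < δ := by positivity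
  obtain ⟨c, hc, M0, hM0⟩ := hnorm δ w (ε / 32) hδ0 (by positivity)
  set w' : ℕ := max (max w q) 1 with hw'
  obtain ⟨T0, hT0⟩ := fine_of_normal hb1 hx w' (show 0 < ε / (32 * (A + 1)) by positivity)
  have hlogt : Tendsto (fun M : ℕ => log (M : ℝ)) atTop atTop :=
    Real.tendsto_log_atTop.comp tendsto_natCast_atTop_atTop
  have hpowt : ∀ e : ℝ, 0 < e → Tendsto (fun M : ℕ => (M : ℝ) ^ e) atTop atTop := fun e he =>
    (tendsto_rpow_atTop he).comp tendsto_natCast_atTop_atTop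
  set c' : ℝ := min (η / 2) c / 2 with hc'
  have hc'0 : 0 < c' := by
    have : 0 < min (η / 2) c := lt_min (by positivity) hc
    positivity
  have hc'1 : 2 * c' ≤ η / 2 := by
    have := min_le_left (η / 2) c
    rw [hc']
    linarith
  have hc'2 : 2 * c' ≤ c := by
    have := min_le_right (η / 2) c
    rw [hc']
    linarith
  obtain ⟨M1, hM1⟩ := eventually_atTop.1 ((((hI.2.1 (η / 2) (by positivity)).and
    (hlogt.eventually_ge_atTop ((w : ℝ) + |T0| / A + 32 / ε + 1))).and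
    (((hpowt η hη0).eventually_ge_atTop (|C| * (b : ℝ) ^ (w + q))).and
    ((hpowt (1 / 2) (by norm_num)).eventually_ge_atTop m0))).and
    (((hpowt c' hc'0).eventually_ge_atTop 2).and (eventually_ge_atTop 1)))
  refine ⟨c', hc'0, max M0 M1, fun M hM => ?_⟩
  obtain ⟨⟨⟨a1, a2⟩, a3, a4⟩, a5, a6⟩ := hM1 M (le_of_max_le_right hM)
  have hMR : (1 : ℝ) ≤ M := by exact_mod_cast a6
  have hMp : (0 : ℝ) < M := by linarith
  set ℓ : ℝ := log (M : ℝ) with hℓ
  have hT0A : 0 ≤ |T0| / A := by positivity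
  have hε32 : 0 < 32 / ε := by positivity
  have hℓ1 : 1 ≤ ℓ := by
    have : (0 : ℝ) ≤ w := Nat.cast_nonneg _
    linarith
  have hℓw : (w : ℝ) ≤ ℓ := by linarith
  have hℓT : |T0| ≤ A * ℓ := by
    have h1 : |T0| / A ≤ ℓ := by
      have : (0 : ℝ) ≤ w := Nat.cast_nonneg _
      linarith
    rw [div_le_iff₀ hA] at h1
    linarith
  have hℓε : 2 ≤ ε / 16 * ℓ := by
    have h1 : 32 / ε ≤ ℓ := by
      have : (0 : ℝ) ≤ w := Nat.cast_nonneg _
      linarith
    rw [div_le_iff₀ hε] at h1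
    linarith
  -- the digits of `x`
  have hFx : Fine b w' (A * ℓ + w) (ε / 32 * ℓ) x := by
    have h1 := hT0 (A * ℓ + w) ((le_abs_self T0).trans (by
      have : (0 : ℝ) ≤ w := Nat.cast_nonneg _
      linarith))
    intro k D s L hk hkw hD hsL
    refine (h1 k D s L hk hkw hD hsL).trans ?_
    have h2 : A * ℓ + w ≤ (A + 1) * ℓ := by linarith
    calc ε / (32 * (A + 1)) * (A * ℓ + w) ≤ ε / (32 * (A + 1)) * ((A + 1) * ℓ) := by gcongr
      _ = ε / 32 * ℓ := by field_simp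
  set L1 : ℕ := ⌊(κ - η * (κ + 1)) * ℓ / lam⌋₊ with hL1
  set L2 : ℕ := ⌈(κ + δ) * ℓ / lam⌉₊ with hL2
  have hexpM : ∀ e : ℝ, (M : ℝ) ^ e = exp (e * ℓ) := fun e => by
    rw [Real.rpow_def_of_pos hMp, mul_comm]
  have hbexp : ∀ n : ℕ, (b : ℝ) ^ n = exp (lam * n) := fun n => by
    rw [← Real.rpow_natCast, Real.rpow_def_of_pos hb0]
  have hL2b : (M : ℝ) ^ (κ + δ) ≤ (b : ℝ) ^ L2 := by
    rw [hexpM, hbexp]
    apply Real.exp_le_exp.2
    have := Nat.le_ceil ((κ + δ) * ℓ / lam)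
    rw [div_le_iff₀ hlam0] at this
    linarith
  have hL2L1 : (L2 : ℝ) ≤ L1 + (ε / 8 * ℓ + 2) := by
    have h1 : (L2 : ℝ) ≤ (κ + δ) * ℓ / lam + 1 := (Nat.ceil_lt_add_one (by positivity)).le
    have h2 : (κ - η * (κ + 1)) * ℓ / lam ≤ L1 + 1 := (Nat.lt_floor_add_one _).le
    have h3 : (κ + δ) * ℓ / lam - (κ - η * (κ + 1)) * ℓ / lam = (δ + η * (κ + 1)) * ℓ / lam := by
      ring
    have h4 : (δ + η * (κ + 1)) * ℓ / lam ≤ ε / 8 * ℓ := by
      rw [div_le_iff₀ hlam0]
      have h5 : δ + η * (κ + 1) ≤ ε / 8 * lam := by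
        rw [hδ]
        have : 0 ≤ ε * lam := by positivity
        linarith
      nlinarith
    linarith
  -- the exceptional set
  have hsub : (I M).filter (fun m => ¬ Fine b w (A * ℓ) (ε * ℓ) (g m)) ⊆
      (I M).filter (fun m : ℕ => (m : ℝ) < (M : ℝ) ^ (1 - η)) ∪
      (I M).filter (fun m => ¬ ∀ k D s L : ℕ, 1 ≤ k → k ≤ w → D < b ^ k →
        (M : ℝ) ^ (κ + δ) ≤ (b : ℝ) ^ s → (s : ℝ) + L ≤ A * log M →
        |(wc b k s L D (g m) : ℝ) - L / (b : ℝ) ^ k| ≤ ε / 32 * log M) := by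
    intro m hm
    rw [mem_filter] at hm
    obtain ⟨hmI, hm⟩ := hm
    rw [mem_union, mem_filter, mem_filter]
    by_contra hcon
    push Not at hcon
    obtain ⟨hc1, hc2⟩ := hcon
    have hmM := hc1 hmI
    have hfar := hc2 hmI
    apply hm
    have hm0 : m0 ≤ m := by
      have h1 : (M : ℝ) ^ (1 / 2 : ℝ) ≤ (M : ℝ) ^ (1 - η) :=
        Real.rpow_le_rpow_of_exponent_le hMR (by linarith)
      have h2 : (m0 : ℝ) ≤ m := (a4.trans h1).trans hmM
      exact_mod_cast h2
    have hmpos : (0 : ℝ) < m := lt_of_lt_of_le (by positivity) hmM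
    have hgx : |x - g m| ≤ |C| * (M : ℝ) ^ (-(κ * (1 - η))) := by
      rw [abs_sub_comm]
      calc |g m - x| ≤ C * (m : ℝ) ^ (-κ) := hC m hm0
        _ ≤ |C| * (m : ℝ) ^ (-κ) := by
            apply mul_le_mul_of_nonneg_right (le_abs_self C) (by positivity)
        _ ≤ |C| * ((M : ℝ) ^ (1 - η)) ^ (-κ) := by
            apply mul_le_mul_of_nonneg_left _ (abs_nonneg _)
            exact Real.rpow_le_rpow_of_nonpos (by positivity) hmM (by linarith)
        _ = _ := by
            rw [← Real.rpow_mul hMp.le]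
            congr 2
            ring
    -- windows at the beginning
    have hzero : ∀ k D L : ℕ, 1 ≤ k → k ≤ w → D < b ^ k → (L : ℝ) ≤ A * ℓ →
        |(wc b k 0 L D (g m) : ℝ) - L / (b : ℝ) ^ k| ≤ ε / 2 * ℓ := by
      intro k D L hk hkw hD hLA
      -- short windows
      have hshort : ∀ L' : ℕ, L' ≤ L1 → (L' : ℝ) ≤ A * ℓ →
          |(wc b k 0 L' D (g m) : ℝ) - L' / (b : ℝ) ^ k| ≤ 7 / 32 * ε * ℓ := by
        intro L' hL' hL'A
        rcases Nat.eq_zero_or_pos L' with h0 | h0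
        · rw [h0, wc_zero]
          simp only [Nat.cast_zero, zero_div, sub_self, abs_zero]
          positivity
        have hL1pos : 0 < L1 := by omega
        have hL1le : (L1 : ℝ) ≤ (κ - η * (κ + 1)) * ℓ / lam := by
          apply Nat.floor_le
          by_contra hneg
          push Not at hneg
          have := Nat.floor_of_nonpos hneg.le
          omega
        have hbL : (b : ℝ) ^ L' ≤ (M : ℝ) ^ (κ - η * (κ + 1)) := by
          rw [hexpM, hbexp]
          apply Real.exp_le_exp.2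
          have h1 : (L' : ℝ) ≤ L1 := by exact_mod_cast hL'
          rw [le_div_iff₀ hlam0] at hL1le
          nlinarith
        have hprod : |x - g m| * (b : ℝ) ^ (0 + L' + k + q) ≤ 1 := by
          have h1 : (b : ℝ) ^ (0 + L' + k + q) ≤ (b : ℝ) ^ L' * (b : ℝ) ^ (w + q) := by
            rw [← pow_add]
            exact pow_le_pow_right₀ hb1R (by omega)
          calc |x - g m| * (b : ℝ) ^ (0 + L' + k + q) ≤
                (|C| * (M : ℝ) ^ (-(κ * (1 - η)))) *
                  ((M : ℝ) ^ (κ - η * (κ + 1)) * (b : ℝ) ^ (w + q)) := by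
                apply mul_le_mul hgx (h1.trans ?_) (by positivity) (by positivity)
                gcongr
            _ = (|C| * (b : ℝ) ^ (w + q)) *
                  ((M : ℝ) ^ (-(κ * (1 - η))) * (M : ℝ) ^ (κ - η * (κ + 1))) := by ring
            _ = (|C| * (b : ℝ) ^ (w + q)) * (M : ℝ) ^ (-η) := by
                rw [← Real.rpow_add hMp]
                congr 2
                ring
            _ ≤ (M : ℝ) ^ η * (M : ℝ) ^ (-η) := by gcongr
            _ = 1 := by rw [← Real.rpow_add hMp]; simp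
        have h1 := wc_near hb1 D hprod
        rw [zero_add] at h1
        have h2 := hFx k D 0 L' hk (hkw.trans ((le_max_left _ _).trans (le_max_left _ _))) hD
          (by
            have : (0 : ℝ) ≤ w := Nat.cast_nonneg _
            push_cast
            linarith)
        have h5 : |(wc b k 0 L' D (g m) : ℝ) - L' / (b : ℝ) ^ k| ≤
            |(wc b k 0 L' D x : ℝ) - wc b k 0 L' D (g m)| +
            |(wc b k 0 L' D x : ℝ) - L' / (b : ℝ) ^ k| := by
          rw [abs_sub_comm (wc b k 0 L' D x : ℝ) (wc b k 0 L' D (g m))]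
          refine le_trans (le_of_eq ?_) (abs_add_le _ _)
          congr 1
          ring
        rcases Nat.eq_zero_or_pos q with hq0 | hqpos
        · -- then the runs have length zero and the bound is trivial
          have h6 : 2 * A ≤ ε / 8 := by
            have := hqb
            rw [hq0, pow_zero, div_one] at this
            exact this
          refine (wc_abs_le hb1 _).trans (hL'A.trans ?_)
          nlinarith
        have hk' : (k : ℝ) ≤ w := by exact_mod_cast hkw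
        have h3 := hFx q 0 k L' hqpos ((le_max_right _ _).trans (le_max_left _ _))
          (Nat.pow_pos (by omega)) (by linarith)
        have h4 := hFx q (b ^ q - 1) k L' hqpos ((le_max_right _ _).trans (le_max_left _ _))
          (Nat.sub_lt (Nat.pow_pos (by omega)) one_pos) (by linarith)
        have h7 := (abs_le.1 h3).2
        have h8 := (abs_le.1 h4).2
        have h9 : (L' : ℝ) / (b : ℝ) ^ q * 2 ≤ ε / 8 * ℓ := by
          calc (L' : ℝ) / (b : ℝ) ^ q * 2 ≤ (A * ℓ) / (b : ℝ) ^ q * 2 := by gcongr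
            _ = (2 * A / (b : ℝ) ^ q) * ℓ := by ring
            _ ≤ _ := by gcongr
        linarith
      rcases le_or_gt L L1 with hLL1 | hLL1
      · refine (hshort L hLL1 hLA).trans ?_
        have : 0 ≤ ε * ℓ := by positivity
        linarith
      · have hL1A : (L1 : ℝ) ≤ A * ℓ := by
          have : (L1 : ℝ) ≤ L := by exact_mod_cast hLL1.le
          linarith
        have hs := hshort L1 le_rfl hL1A
        rcases le_or_gt L L2 with hLL2 | hLL2
        · have h1 := wc_add b k 0 L1 (L - L1) D (g m)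
          rw [zero_add, show L1 + (L - L1) = L by omega] at h1
          have h2 := wc_abs_le (b := b) (k := k) (s := L1) (L := L - L1) (D := D) hb1 (g m)
          have h3 : ((L - L1 : ℕ) : ℝ) = L - L1 := Nat.cast_sub hLL1.le
          rw [h3] at h2
          have h4 : (L : ℝ) ≤ L2 := by exact_mod_cast hLL2
          have h5 : (wc b k 0 L D (g m) : ℝ) - L / (b : ℝ) ^ k =
              ((wc b k 0 L1 D (g m) : ℝ) - L1 / (b : ℝ) ^ k) +
              ((wc b k L1 (L - L1) D (g m) : ℝ) - (L - L1) / (b : ℝ) ^ k) := by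
            rw [h1]
            push_cast
            ring
          rw [h5]
          refine (abs_add_le _ _).trans ?_
          have : 0 ≤ ε * ℓ := by positivity
          linarith
        · have hL12 : L1 ≤ L2 ∨ L2 < L1 := le_or_gt _ _
          -- the start of the third window
          set S : ℕ := max L1 L2 with hS
          have hSL : S ≤ L := max_le hLL1.le hLL2.le
          have hS1 : L1 ≤ S := le_max_left _ _
          have h1 := wc_add b k 0 L1 (S - L1) D (g m)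
          rw [zero_add, show L1 + (S - L1) = S by omega] at h1
          have h2 := wc_add b k 0 S (L - S) D (g m)
          rw [zero_add, show S + (L - S) = L by omega] at h2
          have h3 := wc_abs_le (b := b) (k := k) (s := L1) (L := S - L1) (D := D) hb1 (g m)
          have h4 : ((S - L1 : ℕ) : ℝ) = S - L1 := Nat.cast_sub hS1
          have h5 : ((L - S : ℕ) : ℝ) = L - S := Nat.cast_sub hSL
          rw [h4] at h3
          have h6 := hfar k D S (L - S) hk hkw hD (hL2b.trans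
            (pow_le_pow_right₀ hb1R (le_max_right _ _))) (by
              rw [h5]
              linarith)
          rw [h5] at h6
          have h7 : (S : ℝ) - L1 ≤ ε / 8 * ℓ + 2 := by
            rcases le_total L1 L2 with h | h
            · rw [hS, max_eq_right h]
              linarith
            · rw [hS, max_eq_left h]
              have : 0 ≤ ε / 8 * ℓ := by positivity
              linarith
          have h8 : (wc b k 0 L D (g m) : ℝ) - L / (b : ℝ) ^ k =
              ((wc b k 0 L1 D (g m) : ℝ) - L1 / (b : ℝ) ^ k) +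
              ((wc b k L1 (S - L1) D (g m) : ℝ) - (S - L1) / (b : ℝ) ^ k) +
              ((wc b k S (L - S) D (g m) : ℝ) - (L - S) / (b : ℝ) ^ k) := by
            rw [h2, h1]
            push_cast
            ring
          rw [h8]
          refine (abs_add_le _ _).trans ((add_le_add (abs_add_le _ _) le_rfl).trans ?_)
          have : 0 ≤ ε * ℓ := by positivity
          linarith
    intro k D s L hk hkw hD hsL
    have hs0 : (0 : ℝ) ≤ s := Nat.cast_nonneg _
    have hL0 : (0 : ℝ) ≤ L := Nat.cast_nonneg _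
    have h1 := hzero k D (s + L) hk hkw hD (by push_cast; exact hsL)
    have h2 := hzero k D s hk hkw hD (by linarith)
    have h3 := wc_add b k 0 s L D (g m)
    rw [zero_add] at h3
    have h4 : (wc b k s L D (g m) : ℝ) - L / (b : ℝ) ^ k =
        ((wc b k 0 (s + L) D (g m) : ℝ) - ((s + L : ℕ) : ℝ) / (b : ℝ) ^ k) -
          ((wc b k 0 s D (g m) : ℝ) - s / (b : ℝ) ^ k) := by
      rw [h3]
      push_cast
      ring
    rw [h4]
    refine (abs_sub _ _).trans ?_
    linarith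
  have hcard := (Nat.cast_le (α := ℝ)).2 ((card_le_card hsub).trans (card_union_le _ _))
  refine hcard.trans ?_
  push_cast
  have h1 : (((I M).filter (fun m : ℕ => (m : ℝ) < (M : ℝ) ^ (1 - η))).card : ℝ) ≤
      (M : ℝ) ^ (1 - η) := by
    have h2 : (I M).filter (fun m : ℕ => (m : ℝ) < (M : ℝ) ^ (1 - η)) ⊆
        Ioc 0 ⌊(M : ℝ) ^ (1 - η)⌋₊ := by
      intro m hm
      rw [mem_filter] at hm
      rw [mem_Ioc]
      exact ⟨(mem_Ioc.1 (hI.1 M hm.1)).1, Nat.le_floor hm.2.le⟩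
    calc (((I M).filter (fun m : ℕ => (m : ℝ) < (M : ℝ) ^ (1 - η))).card : ℝ) ≤
          (Ioc 0 ⌊(M : ℝ) ^ (1 - η)⌋₊).card := by exact_mod_cast card_le_card h2
      _ = ⌊(M : ℝ) ^ (1 - η)⌋₊ := by rw [Nat.card_Ioc, Nat.sub_zero]
      _ ≤ _ := Nat.floor_le (by positivity)
  have h2 := hM0 M (le_of_max_le_left hM)
  have h3 : (M : ℝ) ^ (1 - η) ≤ (I M).card * (M : ℝ) ^ (-(2 * c')) := by
    calc (M : ℝ) ^ (1 - η) = (M : ℝ) ^ (1 - η / 2) * (M : ℝ) ^ (-(η / 2)) := by
          rw [← Real.rpow_add hMp]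
          congr 1
          ring
      _ ≤ (I M).card * (M : ℝ) ^ (-(2 * c')) := by
          apply mul_le_mul a1 (Real.rpow_le_rpow_of_exponent_le hMR (by linarith)) (by positivity)
            (by positivity)
  have h4 : ((I M).card : ℝ) * (M : ℝ) ^ (-c) ≤ (I M).card * (M : ℝ) ^ (-(2 * c')) :=
    mul_le_mul_of_nonneg_left (Real.rpow_le_rpow_of_exponent_le hMR (by linarith))
      (Nat.cast_nonneg _)
  have h5 : 2 * (((I M).card : ℝ) * (M : ℝ) ^ (-(2 * c'))) ≤ (I M).card * (M : ℝ) ^ (-c') := by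
    have h6 : (M : ℝ) ^ (-c') = (M : ℝ) ^ c' * (M : ℝ) ^ (-(2 * c')) := by
      rw [← Real.rpow_add hMp]
      congr 1
      ring
    rw [h6]
    have h7 : 0 ≤ ((I M).card : ℝ) * (M : ℝ) ^ (-(2 * c')) := by positivity
    nlinarith
  linarith

open Classical in
/-- if not too few approximations have normal first digits, then `x` is normal -/
theorem crit_two (hb : 2 ≤ b) (hκ : 0 < κ) (hA : 0 < A) (hI : GoodI I)
    (hclose : ∃ (C : ℝ) (m0 : ℕ), ∀ m : ℕ, m0 ≤ m → |g m - x| ≤ C * (m : ℝ) ^ (-κ))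
    {η : ℝ} (hη1 : η < 1)
    (hgood : ∀ (w : ℕ) (ε : ℝ), 0 < ε → ∀ᶠ M : ℕ in atTop, (M : ℝ) ^ (-η) * (I M).card ≤
      (((I M).filter (fun m => Fine b w (A * log M) (ε * log M) (g m))).card : ℝ)) :
    NormalB b x := by
  have hb1 : 1 ≤ b := by omega
  have hbR : (2 : ℝ) ≤ b := by exact_mod_cast hb
  have hb0 : (0 : ℝ) < b := by linarith
  have hb1R : (1 : ℝ) ≤ b := by linarith
  set lam : ℝ := log b with hlam
  have hlam0 : 0 < lam := Real.log_pos (by linarith)
  obtain ⟨C, m0, hC⟩ := hclose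
  intro k D hk hD
  rw [Metric.tendsto_atTop]
  intro ε0 hε0
  -- the parameters
  set σ : ℝ := (1 - η) / 2 with hσ
  have hσ0 : 0 < σ := by rw [hσ]; linarith
  set ρ : ℝ := min (κ * σ / (2 * lam)) (A / 2) with hρ
  have hρ0 : 0 < ρ := lt_min (by positivity) (by positivity)
  have hρ1 : ρ * lam ≤ κ * σ / 2 := by
    have h1 : ρ ≤ κ * σ / (2 * lam) := min_le_left _ _
    rw [le_div_iff₀ (by positivity)] at h1
    linarith
  have hρ2 : ρ ≤ A / 2 := min_le_right _ _
  obtain ⟨q0, hq0⟩ := pow_unbounded_of_one_lt (8 / ε0) (show (1 : ℝ) < b by linarith)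
  set q : ℕ := max q0 1 with hq
  have hqpos : 1 ≤ q := le_max_right _ _
  have hqb : 2 / (b : ℝ) ^ q ≤ ε0 / 4 := by
    have h1 : (b : ℝ) ^ q0 ≤ (b : ℝ) ^ q := pow_le_pow_right₀ hb1R (le_max_left _ _)
    rw [div_le_iff₀ (by positivity)]
    rw [div_lt_iff₀ hε0] at hq0
    nlinarith
  set w : ℕ := max k q with hw
  set ε : ℝ := ε0 * ρ / 24 with hε
  have hε00 : 0 < ε := by positivity
  have hlogt : Tendsto (fun M : ℕ => log (M : ℝ)) atTop atTop :=
    Real.tendsto_log_atTop.comp tendsto_natCast_atTop_atTop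
  have hpowt : ∀ e : ℝ, 0 < e → Tendsto (fun M : ℕ => (M : ℝ) ^ e) atTop atTop := fun e he =>
    (tendsto_rpow_atTop he).comp tendsto_natCast_atTop_atTop
  -- there is a good `m` which is not small
  obtain ⟨M1, hM1⟩ := eventually_atTop.1 (((hgood w ε hε00).and
    ((hI.2.1 (σ / 2) (by positivity)).and
    ((hpowt (κ * σ / 2) (by positivity)).eventually_ge_atTop (|C| * (b : ℝ) ^ (k + q))))).and
    (((hpowt σ hσ0).eventually_ge_atTop m0).and ((hlogt.eventually_ge_atTop (2 * k / A)).and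
    ((hpowt (σ / 2) (by positivity)).eventually_ge_atTop 2)))) 
  -- the number `N` which belongs to `L`
  set Nf : ℕ → ℕ := fun L => ⌈exp ((L : ℝ) / ρ)⌉₊ with hNf
  have hNt : Tendsto Nf atTop atTop := by
    refine tendsto_nat_ceil_atTop.comp (Real.tendsto_exp_atTop.comp ?_)
    exact (tendsto_natCast_atTop_atTop (R := ℝ)).atTop_div_const hρ0
  obtain ⟨L0, hL0⟩ := eventually_atTop.1 ((hNt.eventually_ge_atTop (max M1 1)).and
    (eventually_ge_atTop 1))
  refine ⟨max L0 ⌈3 * (ε / ρ + ε) * (4 / ε0)⌉₊, fun L hL => ?_⟩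
  obtain ⟨hN1, hL1⟩ := hL0 L (le_of_max_le_left hL)
  have hL1R : (1 : ℝ) ≤ L := by exact_mod_cast hL1
  have hLbig : 3 * (ε / ρ + ε) * (4 / ε0) ≤ L := (Nat.le_ceil _).trans
    (by exact_mod_cast le_of_max_le_right hL)
  set M : ℕ := Nf L with hM
  have hMM1 : M1 ≤ M := le_of_max_le_left hN1
  have hM1' : 1 ≤ M := le_of_max_le_right hN1
  have hMR : (1 : ℝ) ≤ M := by exact_mod_cast hM1'
  have hMp : (0 : ℝ) < M := by linarith
  obtain ⟨⟨a1, a2, a3⟩, a4, a5, a6⟩ := hM1 M hMM1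
  set ℓ : ℝ := log (M : ℝ) with hℓ
  have hℓL : (L : ℝ) ≤ ρ * ℓ := by
    have h1 : exp ((L : ℝ) / ρ) ≤ M := Nat.le_ceil _
    have h2 : (L : ℝ) / ρ ≤ ℓ := by
      rw [hℓ, Real.le_log_iff_exp_le hMp]
      exact h1
    rw [div_le_iff₀ hρ0] at h2
    linarith
  have hℓL2 : ℓ ≤ (L : ℝ) / ρ + 1 := by
    have h1 : (M : ℝ) ≤ exp ((L : ℝ) / ρ) + 1 :=
      (Nat.ceil_lt_add_one (Real.exp_pos _).le).le
    have h2 : (M : ℝ) ≤ exp ((L : ℝ) / ρ + 1) := by
      refine h1.trans ?_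
      rw [Real.exp_add]
      have h3 : (1 : ℝ) ≤ exp ((L : ℝ) / ρ) := Real.one_le_exp (by positivity)
      have h4 : (2 : ℝ) ≤ exp 1 := by
        have := Real.add_one_le_exp (1 : ℝ)
        linarith
      nlinarith
    rw [hℓ, Real.log_le_iff_le_exp hMp]
    exact h2
  have hℓ0 : 0 ≤ ℓ := Real.log_nonneg hMR
  -- the good `m`
  obtain ⟨m, hmI, hmF, hmM⟩ : ∃ m ∈ I M, Fine b w (A * ℓ) (ε * ℓ) (g m) ∧
      (M : ℝ) ^ σ ≤ m := by
    by_contra hcon
    push Not at hcon
    have h1 : (I M).filter (fun m => Fine b w (A * ℓ) (ε * ℓ) (g m)) ⊆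
        Ioc 0 ⌊(M : ℝ) ^ σ⌋₊ := by
      intro m hm
      rw [mem_filter] at hm
      rw [mem_Ioc]
      exact ⟨(mem_Ioc.1 (hI.1 M hm.1)).1, Nat.le_floor (hcon m hm.1 hm.2).le⟩
    have h2 : (((I M).filter (fun m => Fine b w (A * ℓ) (ε * ℓ) (g m))).card : ℝ) ≤
        (M : ℝ) ^ σ := by
      calc _ ≤ ((Ioc 0 ⌊(M : ℝ) ^ σ⌋₊).card : ℝ) := by exact_mod_cast card_le_card h1
        _ = ⌊(M : ℝ) ^ σ⌋₊ := by rw [Nat.card_Ioc, Nat.sub_zero]
        _ ≤ _ := Nat.floor_le (by positivity)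
    have h3 : (M : ℝ) ^ (-η) * (M : ℝ) ^ (1 - σ / 2) ≤ (M : ℝ) ^ σ :=
      (mul_le_mul_of_nonneg_left a2 (by positivity)).trans (a1.trans h2)
    rw [← Real.rpow_add hMp] at h3
    have h4 : (M : ℝ) ^ (-η + (1 - σ / 2)) = (M : ℝ) ^ (σ / 2) * (M : ℝ) ^ σ := by
      rw [← Real.rpow_add hMp]
      congr 1
      rw [hσ]
      ring
    rw [h4] at h3
    have h5 : 0 < (M : ℝ) ^ σ := by positivity
    nlinarith
  have hm0 : m0 ≤ m := by
    have : (m0 : ℝ) ≤ m := a4.trans hmM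
    exact_mod_cast this
  have hgx : |g m - x| ≤ |C| * (M : ℝ) ^ (-(κ * σ)) := by
    calc |g m - x| ≤ C * (m : ℝ) ^ (-κ) := hC m hm0
      _ ≤ |C| * (m : ℝ) ^ (-κ) := by
          apply mul_le_mul_of_nonneg_right (le_abs_self C) (by positivity)
      _ ≤ |C| * ((M : ℝ) ^ σ) ^ (-κ) := by
          apply mul_le_mul_of_nonneg_left _ (abs_nonneg _)
          exact Real.rpow_le_rpow_of_nonpos (by positivity) hmM (by linarith)
      _ = _ := by
          rw [← Real.rpow_mul hMp.le]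
          congr 2
          ring
  have hexpM : ∀ e : ℝ, (M : ℝ) ^ e = exp (e * ℓ) := fun e => by
    rw [Real.rpow_def_of_pos hMp, mul_comm]
  have hbexp : ∀ n : ℕ, (b : ℝ) ^ n = exp (lam * n) := fun n => by
    rw [← Real.rpow_natCast, Real.rpow_def_of_pos hb0]
  have hbL : (b : ℝ) ^ L ≤ (M : ℝ) ^ (κ * σ / 2) := by
    rw [hexpM, hbexp]
    apply Real.exp_le_exp.2
    calc lam * (L : ℝ) ≤ lam * (ρ * ℓ) := by gcongr
      _ = (ρ * lam) * ℓ := by ring
      _ ≤ κ * σ / 2 * ℓ := by gcongr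
  have hprod : |g m - x| * (b : ℝ) ^ (0 + L + k + q) ≤ 1 := by
    have h1 : (b : ℝ) ^ (0 + L + k + q) = (b : ℝ) ^ L * (b : ℝ) ^ (k + q) := by
      rw [← pow_add]
      congr 1
      ring
    calc |g m - x| * (b : ℝ) ^ (0 + L + k + q) ≤
          (|C| * (M : ℝ) ^ (-(κ * σ))) * ((M : ℝ) ^ (κ * σ / 2) * (b : ℝ) ^ (k + q)) := by
          rw [h1]
          apply mul_le_mul hgx _ (by positivity) (by positivity)
          gcongr
      _ = (|C| * (b : ℝ) ^ (k + q)) * ((M : ℝ) ^ (-(κ * σ)) * (M : ℝ) ^ (κ * σ / 2)) := by ring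
      _ = (|C| * (b : ℝ) ^ (k + q)) * (M : ℝ) ^ (-(κ * σ / 2)) := by
          rw [← Real.rpow_add hMp]
          congr 2
          ring
      _ ≤ (M : ℝ) ^ (κ * σ / 2) * (M : ℝ) ^ (-(κ * σ / 2)) := by gcongr
      _ = 1 := by rw [← Real.rpow_add hMp]; simp
  have h1 := wc_near hb1 D hprod
  rw [zero_add] at h1
  have hkA : (k : ℝ) ≤ A / 2 * ℓ := by
    rw [div_le_iff₀ hA] at a5
    linarith
  have hLA : (L : ℝ) ≤ A / 2 * ℓ := hℓL.trans (by gcongr)
  have h2 := hmF k D 0 L hk (le_max_left _ _) hD (by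
    push_cast
    have : (0 : ℝ) ≤ k := Nat.cast_nonneg _
    linarith)
  have h3 := hmF q 0 k L hqpos (le_max_right _ _) (Nat.pow_pos (by omega)) (by linarith)
  have h4 := hmF q (b ^ q - 1) k L hqpos (le_max_right _ _)
    (Nat.sub_lt (Nat.pow_pos (by omega)) one_pos) (by linarith)
  have h5 : |(wc b k 0 L D x : ℝ) - L / (b : ℝ) ^ k| ≤
      |(wc b k 0 L D (g m) : ℝ) - wc b k 0 L D x| +
      |(wc b k 0 L D (g m) : ℝ) - L / (b : ℝ) ^ k| := by
    rw [abs_sub_comm (wc b k 0 L D (g m) : ℝ) (wc b k 0 L D x)]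
    refine le_trans (le_of_eq ?_) (abs_add_le _ _)
    congr 1
    ring
  have h6 := (abs_le.1 h3).2
  have h7 := (abs_le.1 h4).2
  have h8 : (L : ℝ) / (b : ℝ) ^ q * 2 ≤ ε0 / 4 * L := by
    calc (L : ℝ) / (b : ℝ) ^ q * 2 = (2 / (b : ℝ) ^ q) * L := by ring
      _ ≤ _ := by gcongr
  have h9 : |(wc b k 0 L D x : ℝ) - L / (b : ℝ) ^ k| ≤ ε0 / 4 * L + 3 * (ε * ℓ) := by linarith
  have h10 : 3 * (ε * ℓ) ≤ ε0 / 8 * L + 3 * ε := by
    calc 3 * (ε * ℓ) ≤ 3 * (ε * ((L : ℝ) / ρ + 1)) := by gcongr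
      _ = ε0 / 8 * L + 3 * ε := by
          rw [hε]
          field_simp
          ring
  have h11 : 3 * ε ≤ ε0 / 4 * L := by
    have h12 : 3 * (ε / ρ + ε) * (4 / ε0) = 3 * (ε / ρ + ε) * 4 / ε0 := by ring
    rw [h12, div_le_iff₀ hε0] at hLbig
    have h13 : 0 ≤ ε / ρ := by positivity
    linarith
  have hL0' : (0 : ℝ) < L := by linarith
  rw [Real.dist_eq]
  have h14 : (wc b k 0 L D x : ℝ) / L - 1 / (b : ℝ) ^ k =
      ((wc b k 0 L D x : ℝ) - L / (b : ℝ) ^ k) / L := by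
    field_simp
  rw [h14, abs_div, abs_of_pos hL0', div_lt_iff₀ hL0']
  have h15 : 0 < ε0 * L := by positivity
  linarith

end

end Pool.Agent.Q270.SQ
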