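import Pool.Agent.Q270.SQ.Delta
import Mathlib.Analysis.Real.Pi.Wallis
import Mathlib.Analysis.Real.Pi.Leibniz

/-!
# The asymptotic expansions of the partial products of Wallis, the partial sums of Leibniz and of
the perimeters of the regular polygons
-/

set_option autoImplicit false

namespace Pool.Agent.Q270.SQ

open Finset Real Filter Asymptotics Topology

/-- uniqueness of the coefficients, along any filter -/
lemma coef_unique {ι : Type*} {l : Filter ι} [l.NeBot] {x : ι → ℝ} (hx : Tendsto x l (𝓝 0))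
    (hx0 : ∀ᶠ i in l, 0 < x i) {g : ι → ℝ} {c c' : ℕ → ℝ} {J : ℕ}
    (h : (fun i => g i - ∑ j ∈ Finset.range J, c j * x i ^ j) =O[l] (fun i => x i ^ J))
    (h' : (fun i => g i - ∑ j ∈ Finset.range J, c' j * x i ^ j) =O[l] (fun i => x i ^ J)) :
    ∀ j < J, c j = c' j := by
  have h2 : (fun i => ∑ j ∈ Finset.range J, (c j - c' j) * x i ^ j) =O[l]
      (fun i => x i ^ J) := by
    refine (h'.sub h).congr_left fun i => ?_
    simp only [sub_mul, sum_sub_distrib]
    ring
  clear h h'
  have hx1 : ∀ᶠ i in l, x i ≤ 1 := hx.eventually_le_const one_pos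
  induction J with
  | zero => intro j hj; omega
  | succ J ih =>
    have hpow : (fun i => x i ^ (J + 1)) =O[l] (fun i => x i ^ J) := by
      refine IsBigO.of_bound 1 ?_
      filter_upwards [hx0, hx1] with i hi0 hi1
      rw [one_mul, norm_pow, norm_pow, pow_succ]
      have : ‖x i‖ ≤ 1 := by rw [Real.norm_eq_abs, abs_of_pos hi0]; exact hi1
      exact mul_le_of_le_one_right (by positivity) this
    have h3 : (fun i => ∑ j ∈ Finset.range J, (c j - c' j) * x i ^ j) =O[l]
        (fun i => x i ^ J) := by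
      have h4 : (fun i => (c J - c' J) * x i ^ J) =O[l] (fun i => x i ^ J) :=
        (isBigO_refl _ _).const_mul_left _
      refine ((h2.trans hpow).sub h4).congr_left fun i => ?_
      rw [sum_range_succ]
      ring
    have h5 := ih h3
    intro j hj
    rcases Nat.lt_succ_iff_lt_or_eq.1 hj with h6 | rfl
    · exact h5 j h6
    have h7 : (fun i => (c j - c' j) * x i ^ j) =O[l] (fun i => x i ^ (j + 1)) := by
      refine h2.congr_left fun i => ?_
      rw [sum_range_succ, sum_eq_zero, zero_add]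
      intro k hk
      rw [h5 k (mem_range.1 hk), sub_self, zero_mul]
    have h8 : (fun _ : ι => c j - c' j) =O[l] x := by
      have h9 : (fun i => (x i ^ j)⁻¹) =O[l] (fun i => (x i ^ j)⁻¹) := isBigO_refl _ _
      refine (h7.mul h9).congr' ?_ ?_
      · filter_upwards [hx0] with i hi
        have : (x i) ^ j ≠ 0 := pow_ne_zero _ (ne_of_gt hi)
        field_simp
      · filter_upwards [hx0] with i hi
        have : (x i) ^ j ≠ 0 := pow_ne_zero _ (ne_of_gt hi)
        rw [pow_succ]
        field_simp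
    have h9 : Tendsto (fun _ : ι => c j - c' j) l (𝓝 0) := h8.trans_tendsto hx
    have h10 := tendsto_nhds_unique h9 tendsto_const_nhds
    linarith

lemma inv_pos_ev : ∀ᶠ m : ℕ in atTop, 0 < 1 / (m : ℝ) := by
  filter_upwards [eventually_gt_atTop 0] with m hm
  have : (0 : ℝ) < m := by exact_mod_cast hm
  positivity

lemma pow_isBigO {n J : ℕ} (h : n ≤ J) : (fun m : ℕ => (1 / (m : ℝ)) ^ J) =O[atTop]
    (fun m : ℕ => (1 / (m : ℝ)) ^ n) := by
  refine IsBigO.of_bound 1 ?_
  filter_upwards [eventually_ge_atTop 1] with m hm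
  have h1 : (1 : ℝ) ≤ m := by exact_mod_cast hm
  have h2 : 1 / (m : ℝ) ≤ 1 := by rw [div_le_one (by linarith)]; exact h1
  have h0 : 0 ≤ 1 / (m : ℝ) := by positivity
  rw [one_mul, Real.norm_eq_abs, Real.norm_eq_abs, abs_of_nonneg (by positivity),
    abs_of_nonneg (by positivity)]
  exact pow_le_pow_of_le_one h0 h2 h

/-- shortening an expansion -/
lemma trunc {g : ℕ → ℝ} {c : ℕ → ℝ} {n J : ℕ} (hn : n ≤ J)
    (h : (fun m : ℕ => g m - ∑ j ∈ Finset.range J, c j * (1 / (m : ℝ)) ^ j) =O[atTop]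
      (fun m : ℕ => (1 / (m : ℝ)) ^ J)) :
    (fun m : ℕ => g m - ∑ j ∈ Finset.range n, c j * (1 / (m : ℝ)) ^ j) =O[atTop]
      (fun m : ℕ => (1 / (m : ℝ)) ^ n) := by
  have h1 : (fun m : ℕ => ∑ j ∈ Finset.Ico n J, c j * (1 / (m : ℝ)) ^ j) =O[atTop]
      (fun m : ℕ => (1 / (m : ℝ)) ^ n) := by
    have h2 : ∀ j ∈ Finset.Ico n J, (fun m : ℕ => c j * (1 / (m : ℝ)) ^ j) =O[atTop]
        (fun m : ℕ => (1 / (m : ℝ)) ^ n) := fun j hj =>
      (pow_isBigO (mem_Ico.1 hj).1).const_mul_left _
    exact IsBigO.fun_sum h2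
  refine ((h.trans (pow_isBigO hn)).add h1).congr_left fun m => ?_
  rw [← Finset.sum_range_add_sum_Ico _ hn]
  ring

/-- an expansion from its finite parts -/
lemma exists_expands {g : ℕ → ℝ} (h : ∀ J : ℕ, ∃ c : ℕ → ℝ,
    (fun m : ℕ => g m - ∑ j ∈ Finset.range J, c j * (1 / (m : ℝ)) ^ j) =O[atTop]
      (fun m : ℕ => (1 / (m : ℝ)) ^ J)) : ∃ c, Expands neg c g := by
  choose C hC using h
  refine ⟨fun j => C (j + 1) j, fun J => ?_⟩
  have h1 : ∀ j < J, C (j + 1) j = C J j := by
    intro j hj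
    exact coef_unique tendsto_one_div_atTop_nhds_zero_nat inv_pos_ev (hC (j + 1))
      (trunc (by omega) (hC J)) j (by omega)
  refine ((hC J).congr_left fun m => ?_).congr_right fun m => ?_
  · congr 1
    refine sum_congr rfl fun j hj => ?_
    simp only [h1 j (mem_range.1 hj), inv_pow_eq]
  · rw [inv_pow_eq]

lemma Expands.coeff_eq {g : ℕ → ℝ} {c : ℕ → ℝ} (h : Expands neg c g) {J : ℕ} {c' : ℕ → ℝ}
    (h' : (fun m : ℕ => g m - ∑ j ∈ Finset.range J, c' j * (1 / (m : ℝ)) ^ j) =O[atTop]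
      (fun m : ℕ => (1 / (m : ℝ)) ^ J)) : ∀ j < J, c j = c' j := by
  refine coef_unique tendsto_one_div_atTop_nhds_zero_nat inv_pos_ev ?_ h'
  refine ((h J).congr_left fun m => ?_).congr_right fun m => ?_
  · simp only [inv_pow_eq]
  · rw [inv_pow_eq]

/-- the exponential of an expansion -/
theorem exp_expands {u : ℕ → ℝ} {c : ℕ → ℝ} (hu : Expands neg c u) :
    ∃ c', Expands neg c' (fun m => Real.exp (u m)) ∧ c' 0 = Real.exp (c 0) ∧
      c' 1 = c 1 * Real.exp (c 0) := by
  have hid : Tendsto (fun m : ℕ => 1 / (m : ℝ)) atTop (𝓝 0) :=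
    tendsto_one_div_atTop_nhds_zero_nat
  have hmain : ∀ J : ℕ, 1 ≤ J → (fun m : ℕ => Real.exp (u m) -
      Real.exp (∑ j ∈ Finset.range J, c j * (1 / (m : ℝ)) ^ j)) =O[atTop]
      (fun m : ℕ => (1 / (m : ℝ)) ^ J) := by
    intro J hJ
    have h1 : (fun m : ℕ => u m - ∑ j ∈ Finset.range J, c j * (1 / (m : ℝ)) ^ j) =O[atTop]
        (fun m : ℕ => (1 / (m : ℝ)) ^ J) := by
      refine ((hu J).congr_left fun m => ?_).congr_right fun m => ?_
      · simp only [inv_pow_eq]
      · rw [inv_pow_eq]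
    set v : ℕ → ℝ := fun m => u m - ∑ j ∈ Finset.range J, c j * (1 / (m : ℝ)) ^ j with hv
    have hv0 : Tendsto v atTop (𝓝 0) := by
      refine h1.trans_tendsto ?_
      have := hid.pow J
      rwa [zero_pow (by omega)] at this
    have h2 : (fun m => Real.exp (v m) - 1) =O[atTop] v := by
      refine IsBigO.of_bound 2 ?_
      have h3 := hv0.abs
      rw [abs_zero] at h3
      filter_upwards [h3.eventually_le_const one_pos] with m hm
      have := Real.abs_exp_sub_one_le hm
      rw [Real.norm_eq_abs, Real.norm_eq_abs]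
      exact this
    have h4 : (fun m : ℕ => Real.exp (∑ j ∈ Finset.range J, c j * (1 / (m : ℝ)) ^ j)) =O[atTop]
        (fun _ : ℕ => (1 : ℝ)) := by
      have h5 : Tendsto (fun m : ℕ => Real.exp (∑ j ∈ Finset.range J, c j * (1 / (m : ℝ)) ^ j))
          atTop (𝓝 (Real.exp (∑ j ∈ Finset.range J, c j * 0 ^ j))) := by
        refine (Real.continuous_exp.tendsto _).comp ?_
        exact tendsto_finsetSum _ fun j _ => (hid.pow j).const_mul _
      exact h5.isBigO_one ℝ
    refine ((h4.mul (h2.trans h1)).congr_left fun m => ?_).congr_right fun m => ?_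
    · rw [hv, mul_sub, ← Real.exp_add, mul_one]
      congr 2
      ring
    · rw [one_mul]
  have hex : ∃ c', Expands neg c' (fun m => Real.exp (u m)) := by
    refine exists_expands fun J => ?_
    rcases Nat.eq_zero_or_pos J with rfl | hJ
    · refine ⟨fun _ => 0, ?_⟩
      simp only [range_zero, sum_empty, sub_zero, pow_zero]
      have h1 := trunc (c := c) (g := u) (Nat.zero_le 1) (by
        refine ((hu 1).congr_left fun m => ?_).congr_right fun m => ?_
        · simp only [inv_pow_eq]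
        · rw [inv_pow_eq])
      have h2 := hmain 1 le_rfl
      have h3 : (fun m : ℕ => Real.exp (∑ j ∈ Finset.range 1, c j * (1 / (m : ℝ)) ^ j)) =O[atTop]
          (fun _ : ℕ => (1 : ℝ)) := by
        have : (fun m : ℕ => Real.exp (∑ j ∈ Finset.range 1, c j * (1 / (m : ℝ)) ^ j)) =
            fun _ => Real.exp (c 0) := by
          funext m
          simp
        rw [this]
        exact isBigO_const_const _ one_ne_zero _
      have h4 : (fun m : ℕ => (1 / (m : ℝ)) ^ 1) =O[atTop] (fun _ : ℕ => (1 : ℝ)) := by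
        have := pow_isBigO (show 0 ≤ 1 by norm_num)
        simpa using this
      refine ((h2.trans h4).add h3).congr_left fun m => ?_
      ring
    · have hA : AnalyticAt ℝ (fun x : ℝ => Real.exp (∑ j ∈ Finset.range J, c j * x ^ j)) 0 := by
        have h1 : AnalyticAt ℝ (fun x : ℝ => ∑ j ∈ Finset.range J, c j * x ^ j) 0 :=
          Finset.analyticAt_fun_sum _ fun j _ => analyticAt_const.mul (analyticAt_id.pow j)
        exact h1.rexp'
      obtain ⟨d, hd⟩ := tay_of_analytic hA
      refine ⟨d, ?_⟩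
      have h1 := (hd J).comp_tendsto tendsto_inv
      refine ((hmain J hJ).add h1).congr_left fun m => ?_
      simp only [Function.comp]
      ring
  obtain ⟨c', hc'⟩ := hex
  have happ : (fun m : ℕ => Real.exp (u m) - ∑ j ∈ Finset.range 2,
      (fun j => if j = 0 then Real.exp (c 0) else c 1 * Real.exp (c 0)) j * (1 / (m : ℝ)) ^ j)
      =O[atTop] (fun m : ℕ => (1 / (m : ℝ)) ^ 2) := by
    have h1 : (fun m : ℕ => Real.exp (c 1 * (1 / (m : ℝ))) - (1 + c 1 * (1 / (m : ℝ)))) =O[atTop]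
        (fun m : ℕ => (1 / (m : ℝ)) ^ 2) := by
      have hlim : Tendsto (fun m : ℕ => |c 1 * (1 / (m : ℝ))|) atTop (𝓝 0) := by
        have := (hid.const_mul (c 1)).abs
        simpa using this
      refine IsBigO.of_bound (|c 1| ^ 2) ?_
      filter_upwards [hlim.eventually_le_const one_pos] with m hm
      have h2 := Real.abs_exp_sub_one_sub_id_le hm
      rw [Real.norm_eq_abs, Real.norm_eq_abs, abs_of_nonneg (by positivity :
        0 ≤ (1 / (m : ℝ)) ^ 2)]
      rw [← sub_sub]
      refine h2.trans (le_of_eq ?_)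
      rw [mul_pow, sq_abs]
    have h2 := (hmain 2 (by norm_num)).add (h1.const_mul_left (Real.exp (c 0)))
    refine h2.congr_left fun m => ?_
    simp only [sum_range_succ, sum_range_zero, pow_zero, mul_one, zero_add, pow_one]
    rw [Real.exp_add]
    norm_num
    ring
  have h0 := hc'.coeff_eq happ
  exact ⟨c', hc', by simpa using h0 0 (by norm_num), by simpa using h0 1 (by norm_num)⟩

/-! ### Leibniz -/

/-- the partial sums of the series of Leibniz for `π` -/
noncomputable def leib (n : ℕ) : ℝ := ∑ k ∈ Finset.range n, 4 * (-1) ^ k / (2 * (k : ℝ) + 1)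

lemma leib_tendsto : Tendsto leib atTop (𝓝 π) := by
  have h := Real.tendsto_sum_pi_div_four.const_mul 4
  rw [mul_div_cancel₀ π (by norm_num : (4 : ℝ) ≠ 0)] at h
  refine h.congr fun n => ?_
  unfold leib
  rw [mul_sum]
  refine sum_congr rfl fun k _ => ?_
  ring

/-- the expansion of the sums of `2m` terms -/
lemma leib_even : ∃ c : ℕ → ℝ, Expands neg c (fun m => leib (2 * m)) ∧ c 0 = π ∧
    c 1 = -(1 / 2) := by
  have hA : AnalyticAt ℝ (fun x : ℝ => 8 * x ^ 2 / ((4 + x) * (4 + 3 * x))) 0 := by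
    have h1 : AnalyticAt ℝ (fun x : ℝ => 8 * x ^ 2) 0 := analyticAt_const.mul (analyticAt_id.pow 2)
    have h2 : AnalyticAt ℝ (fun x : ℝ => (4 + x) * (4 + 3 * x)) 0 :=
      (analyticAt_const.add analyticAt_id).mul
        (analyticAt_const.add (analyticAt_const.mul analyticAt_id))
    exact h1.div h2 (by norm_num)
  obtain ⟨r, hr⟩ := tay_of_analytic hA
  have happ : (fun x : ℝ => 8 * x ^ 2 / ((4 + x) * (4 + 3 * x)) -
      ∑ j ∈ Finset.range 3, (fun j => if j = 2 then (1 / 2 : ℝ) else 0) j * x ^ j) =O[𝓝[>] 0]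
      (fun x : ℝ => x ^ 3) := by
    refine IsBigO.of_bound 1 ?_
    filter_upwards [Ioo_mem_nhdsGT (show (0 : ℝ) < 1 by norm_num)] with x hx
    have hx0 := hx.1
    have hx1 := hx.2
    simp only [sum_range_succ, sum_range_zero]
    norm_num
    have h1 : 8 * x ^ 2 / ((4 + x) * (4 + 3 * x)) - 1 / 2 * x ^ 2 =
        -(x ^ 3 * ((16 + 3 * x) / (2 * ((4 + x) * (4 + 3 * x))))) := by
      field_simp
      ring
    rw [h1, abs_neg, abs_mul, abs_of_pos (by positivity : (0 : ℝ) < x ^ 3), abs_of_pos hx0]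
    apply mul_le_of_le_one_right (by positivity)
    rw [abs_of_nonneg (by positivity), div_le_one (by positivity)]
    nlinarith
  have h0 := hr.coeff_eq happ
  have hlim : Tendsto (fun m => leib (2 * m)) atTop (𝓝 π) :=
    leib_tendsto.comp (tendsto_id.const_mul_atTop' (by norm_num : 0 < 2))
  obtain ⟨c, hc, hc0, hc1⟩ := sum_expands hlim hr (by simpa using h0 0 (by norm_num))
    (by simpa using h0 1 (by norm_num)) (by
    intro m hm
    have hm0 : (0 : ℝ) < m := by exact_mod_cast hm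
    unfold leib
    rw [show 2 * (m + 1) = 2 * m + 1 + 1 by ring, sum_range_succ, sum_range_succ]
    have e1 : (-1 : ℝ) ^ (2 * m) = 1 := by rw [pow_mul]; norm_num
    have e2 : (-1 : ℝ) ^ (2 * m + 1) = -1 := by rw [pow_succ, e1]; norm_num
    rw [e1, e2]
    push_cast
    field_simp
    ring)
  refine ⟨c, hc, hc0, ?_⟩
  rw [hc1, h0 2 (by norm_num)]
  norm_num

/-- the expansion of the sums of `2m+1` terms -/
lemma leib_odd : ∃ c : ℕ → ℝ, Expands neg c (fun m => leib (2 * m + 1)) ∧ c 0 = π ∧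
    c 1 = 1 / 2 := by
  obtain ⟨c, hc, hc0, hc1⟩ := leib_even
  have hA : AnalyticAt ℝ (fun x : ℝ => 4 * x / (4 + x)) 0 := by
    have h1 : AnalyticAt ℝ (fun x : ℝ => 4 * x) 0 := analyticAt_const.mul analyticAt_id
    have h2 : AnalyticAt ℝ (fun x : ℝ => 4 + x) 0 := analyticAt_const.add analyticAt_id
    exact h1.div h2 (by norm_num)
  obtain ⟨r, hr⟩ := tay_of_analytic hA
  have happ : (fun x : ℝ => 4 * x / (4 + x) -
      ∑ j ∈ Finset.range 2, (fun j => if j = 1 then (1 : ℝ) else 0) j * x ^ j) =O[𝓝[>] 0]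
      (fun x : ℝ => x ^ 2) := by
    refine IsBigO.of_bound 1 ?_
    filter_upwards [Ioo_mem_nhdsGT (show (0 : ℝ) < 1 by norm_num)] with x hx
    have hx0 := hx.1
    simp only [sum_range_succ, sum_range_zero]
    norm_num
    have h1 : 4 * x / (4 + x) - x = -(x ^ 2 * (1 / (4 + x))) := by
      field_simp
      ring
    rw [h1, abs_neg, abs_mul, abs_of_pos (by positivity : (0 : ℝ) < x ^ 2)]
    apply mul_le_of_le_one_right (by positivity)
    rw [abs_of_nonneg (by positivity), div_le_one (by positivity)]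
    linarith
  have h0 := hr.coeff_eq happ
  refine ⟨fun j => c j + r j, ?_, ?_, ?_⟩
  · intro J
    have h1 := (hc J).add (hr.expands J)
    refine h1.congr' ?_ EventuallyEq.rfl
    filter_upwards [eventually_ge_atTop 1] with m hm
    have hm0 : (0 : ℝ) < m := by exact_mod_cast hm
    simp only [add_mul, sum_add_distrib]
    have h2 : leib (2 * m + 1) = leib (2 * m) + 4 * (1 / (m : ℝ)) / (4 + 1 / (m : ℝ)) := by
      unfold leib
      rw [sum_range_succ]
      have e1 : (-1 : ℝ) ^ (2 * m) = 1 := by rw [pow_mul]; norm_num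
      rw [e1]
      push_cast
      field_simp
      ring
    rw [h2]
    ring
  · simp only []
    rw [hc0, h0 0 (by norm_num)]
    norm_num
  · simp only []
    rw [hc1, h0 1 (by norm_num)]
    norm_num

/-! ### Wallis -/

/-- the partial products of Wallis for `π` -/
noncomputable def wall (n : ℕ) : ℝ :=
  2 * ∏ k ∈ Finset.range n, (2 * (k : ℝ) + 2) ^ 2 / ((2 * k + 1) * (2 * k + 3))

lemma wall_eq (n : ℕ) : wall n = 2 * Real.Wallis.W n := by
  unfold wall Real.Wallis.W
  congr 1
  refine prod_congr rfl fun k _ => ?_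
  rw [div_mul_div_comm, sq]

lemma wall_pos (n : ℕ) : 0 < wall n := by
  rw [wall_eq]
  have := Real.Wallis.W_pos n
  positivity

lemma wall_tendsto : Tendsto wall atTop (𝓝 π) := by
  have h := Real.Wallis.tendsto_W_nhds_pi_div_two.const_mul 2
  rw [mul_div_cancel₀ π (by norm_num : (2 : ℝ) ≠ 0)] at h
  exact h.congr fun n => (wall_eq n).symm

lemma wall_exp : ∃ c : ℕ → ℝ, Expands neg c wall ∧ c 0 = π ∧ c 1 = -(π / 4) := by
  have hA : AnalyticAt ℝ (fun x : ℝ => Real.log (1 + x ^ 2 / ((2 + x) * (2 + 3 * x)))) 0 := by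
    have h1 : AnalyticAt ℝ (fun x : ℝ => x ^ 2) 0 := analyticAt_id.pow 2
    have h2 : AnalyticAt ℝ (fun x : ℝ => (2 + x) * (2 + 3 * x)) 0 :=
      (analyticAt_const.add analyticAt_id).mul
        (analyticAt_const.add (analyticAt_const.mul analyticAt_id))
    exact (analyticAt_const.add (h1.div h2 (by norm_num))).log (by norm_num)
  obtain ⟨r, hr⟩ := tay_of_analytic hA
  have happ : (fun x : ℝ => Real.log (1 + x ^ 2 / ((2 + x) * (2 + 3 * x))) -
      ∑ j ∈ Finset.range 3, (fun j => if j = 2 then (1 / 4 : ℝ) else 0) j * x ^ j) =O[𝓝[>] 0]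
      (fun x : ℝ => x ^ 3) := by
    refine IsBigO.of_bound 2 ?_
    filter_upwards [Ioo_mem_nhdsGT (show (0 : ℝ) < 1 by norm_num)] with x hx
    have hx0 := hx.1
    have hx1 := hx.2
    simp only [sum_range_succ, sum_range_zero]
    norm_num
    set u : ℝ := x ^ 2 / ((2 + x) * (2 + 3 * x)) with hu
    have hu0 : 0 ≤ u := by positivity
    have hu1 : u ≤ x ^ 2 / 4 := by
      rw [hu]
      apply div_le_div_of_nonneg_left (by positivity) (by norm_num)
      nlinarith
    have h1 : Real.log (1 + u) ≤ u := by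
      have := Real.log_le_sub_one_of_pos (show 0 < 1 + u by linarith)
      linarith
    have h2 : u - u ^ 2 ≤ Real.log (1 + u) := by
      have h3 := Real.one_sub_inv_le_log_of_pos (show 0 < 1 + u by linarith)
      have h4 : u - u ^ 2 ≤ 1 - (1 + u)⁻¹ := by
        have h5 : 1 - (1 + u)⁻¹ = u / (1 + u) := by
          field_simp
          ring
        rw [h5, le_div_iff₀ (by linarith)]
        nlinarith [pow_nonneg hu0 3]
      linarith
    have h3 : x ^ 2 / 4 - u ≤ x ^ 3 := by
      have h5 : x ^ 2 / 4 - u = x ^ 3 * ((8 + 3 * x) / (4 * ((2 + x) * (2 + 3 * x)))) := by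
        rw [hu]
        field_simp
        ring
      rw [h5]
      apply mul_le_of_le_one_right (by positivity)
      rw [div_le_one (by positivity)]
      nlinarith
    have h6 : u ^ 2 ≤ x ^ 3 := by
      have h7 : u ^ 2 ≤ (x ^ 2 / 4) ^ 2 := pow_le_pow_left₀ hu0 hu1 2
      have h8 : (x ^ 2 / 4) ^ 2 ≤ x ^ 3 := by
        have : (x ^ 2 / 4) ^ 2 = x ^ 3 * (x / 16) := by ring
        rw [this]
        apply mul_le_of_le_one_right (by positivity)
        linarith
      exact h7.trans h8
    rw [abs_of_pos hx0, abs_le]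
    constructor <;> linarith
  have h0 := hr.coeff_eq happ
  have hlim : Tendsto (fun m => Real.log (wall m)) atTop (𝓝 (Real.log π)) :=
    (Real.continuousAt_log Real.pi_ne_zero).tendsto.comp wall_tendsto
  obtain ⟨c, hc, hc0, hc1⟩ := sum_expands hlim hr (by simpa using h0 0 (by norm_num))
    (by simpa using h0 1 (by norm_num)) (by
    intro m hm
    have hm0 : (0 : ℝ) < m := by exact_mod_cast hm
    rw [← Real.log_div (wall_pos _).ne' (wall_pos _).ne']
    congr 1
    have h1 : wall (m + 1) = wall m * ((2 * (m : ℝ) + 2) ^ 2 / ((2 * m + 1) * (2 * m + 3))) := by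
      unfold wall
      rw [prod_range_succ, mul_assoc]
    rw [h1, mul_div_cancel_left₀ _ (wall_pos m).ne']
    field_simp
    ring)
  obtain ⟨c', hc', hc'0, hc'1⟩ := exp_expands hc
  have hexp : ∀ m, Real.exp (Real.log (wall m)) = wall m := fun m => Real.exp_log (wall_pos m)
  refine ⟨c', ?_, ?_, ?_⟩
  · simpa only [hexp] using hc'
  · rw [hc'0, hc0, Real.exp_log Real.pi_pos]
  · rw [hc'1, hc0, Real.exp_log Real.pi_pos, hc1, h0 2 (by norm_num)]
    norm_num
    ring

/-! ### The circumscribed polygons -/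

/-- the first coefficients of `tan(πx)/x` -/
noncomputable def tC (n : ℕ) : ℝ :=
  if n = 0 then π else if n = 2 then π ^ 3 / 3 else if n = 4 then 2 * π ^ 5 / 15 else 0

lemma cos_tay : Tay (fun n => if Even n then (-1) ^ (n / 2) * π ^ n / n.factorial else 0)
    (fun x => Real.cos (π * x)) := by
  refine tay_of_hasSum (Eventually.of_forall fun x => ?_)
  have he : HasSum (fun k : ℕ => x ^ (2 * k) * (if Even (2 * k) then
      (-1) ^ (2 * k / 2) * π ^ (2 * k) / ((2 * k).factorial : ℝ) else 0)) (Real.cos (π * x)) := by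
    refine (Real.hasSum_cos (π * x)).congr_fun ?_
    intro k
    have h2 : Even (2 * k) := even_two_mul k
    have h3 : 2 * k / 2 = k := by omega
    rw [if_pos h2, h3, mul_pow]
    ring
  have ho : HasSum (fun k : ℕ => x ^ (2 * k + 1) * (if Even (2 * k + 1) then
      (-1) ^ ((2 * k + 1) / 2) * π ^ (2 * k + 1) / ((2 * k + 1).factorial : ℝ) else 0)) 0 := by
    have h2 : ∀ k : ℕ, ¬ Even (2 * k + 1) := fun k => by
      rw [Nat.not_even_iff_odd]
      exact odd_two_mul_add_one k
    have : (fun k : ℕ => x ^ (2 * k + 1) * (if Even (2 * k + 1) then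
      (-1) ^ ((2 * k + 1) / 2) * π ^ (2 * k + 1) / ((2 * k + 1).factorial : ℝ) else 0)) =
        fun _ => 0 := by
      funext k
      rw [if_neg (h2 k), mul_zero]
    rw [this]
    exact hasSum_zero
  have h3 := HasSum.even_add_odd (f := fun n : ℕ => x ^ n * (if Even n then
      (-1) ^ (n / 2) * π ^ n / (n.factorial : ℝ) else 0)) he ho
  rwa [add_zero] at h3

lemma tan_approx : (fun x : ℝ => Real.tan (π * x) / x -
    ∑ j ∈ Finset.range 5, tC j * x ^ j) =O[𝓝[>] 0] (fun x : ℝ => x ^ 5) := by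
  have hs : (fun x : ℝ => Real.sin (π * x) / x - (π - π ^ 3 / 6 * x ^ 2 + π ^ 5 / 120 * x ^ 4))
      =O[𝓝[>] 0] (fun x : ℝ => x ^ 5) := by
    refine (sin_tay 5).congr_left fun x => ?_
    simp only [sum_range_succ, sum_range_zero, sC]
    norm_num [Nat.factorial, Nat.even_iff]
    ring
  have hc : (fun x : ℝ => Real.cos (π * x) - (1 - π ^ 2 / 2 * x ^ 2 + π ^ 4 / 24 * x ^ 4))
      =O[𝓝[>] 0] (fun x : ℝ => x ^ 5) := by
    refine (cos_tay 5).congr_left fun x => ?_
    simp only [sum_range_succ, sum_range_zero]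
    norm_num [Nat.factorial, Nat.even_iff]
    ring
  set P : ℝ → ℝ := fun x => π + π ^ 3 / 3 * x ^ 2 + 2 * π ^ 5 / 15 * x ^ 4 with hP
  have hcont : ∀ f : ℝ → ℝ, Continuous f → f =O[𝓝[>] 0] (fun _ : ℝ => (1 : ℝ)) := fun f hf =>
    ((hf.tendsto 0).mono_left nhdsWithin_le_nhds).isBigO_one ℝ
  have hPO : P =O[𝓝[>] 0] (fun _ : ℝ => (1 : ℝ)) := hcont P (by fun_prop)
  -- the numerator
  have hnum : (fun x : ℝ => Real.sin (π * x) / x - Real.cos (π * x) * P x) =O[𝓝[>] 0]
      (fun x : ℝ => x ^ 5) := by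
    have h1 := hc.mul hPO
    have h2 : (fun x : ℝ => (π - π ^ 3 / 6 * x ^ 2 + π ^ 5 / 120 * x ^ 4) -
        (1 - π ^ 2 / 2 * x ^ 2 + π ^ 4 / 24 * x ^ 4) * P x) =O[𝓝[>] 0] (fun x : ℝ => x ^ 5) := by
      have h3 : (fun x : ℝ => x ^ 5 * (x * (π ^ 7 * (1 / 15 - 1 / 72)) -
          x ^ 3 * (π ^ 9 / 180))) =O[𝓝[>] 0] (fun x : ℝ => x ^ 5 * 1) :=
        (isBigO_refl _ _).mul (hcont _ (by fun_prop))
      refine (h3.congr_left fun x => ?_).congr_right fun x => mul_one _
      simp only [hP]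
      ring
    refine ((hs.sub (h1.congr_right fun x => mul_one _)).add h2).congr_left fun x => ?_
    ring
  have hcos : ∀ᶠ x in 𝓝[>] (0 : ℝ), 1 / 2 ≤ Real.cos (π * x) := by
    have h1 : Tendsto (fun x : ℝ => Real.cos (π * x)) (𝓝[>] 0) (𝓝 1) := by
      have h2 : Continuous fun x : ℝ => Real.cos (π * x) := by fun_prop
      have h3 := (h2.tendsto 0).mono_left (nhdsWithin_le_nhds (s := Set.Ioi (0 : ℝ)))
      simpa using h3
    exact h1.eventually_const_le (by norm_num)
  have hinv : (fun x : ℝ => (Real.cos (π * x))⁻¹) =O[𝓝[>] 0] (fun _ : ℝ => (1 : ℝ)) := by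
    refine IsBigO.of_bound 2 ?_
    filter_upwards [hcos] with x hx
    rw [norm_one, mul_one, norm_inv, Real.norm_eq_abs, abs_of_pos (by linarith)]
    rw [inv_le_comm₀ (by linarith) (by norm_num)]
    linarith
  refine ((hnum.mul hinv).congr' ?_ ?_)
  · filter_upwards [hcos, self_mem_nhdsWithin] with x hx hx0
    have hx1 : x ≠ 0 := ne_of_gt hx0
    have hc0 : Real.cos (π * x) ≠ 0 := by
      intro h
      rw [h] at hx
      norm_num at hx
    have h2 : ∑ j ∈ Finset.range 5, tC j * x ^ j = P x := by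
      simp only [sum_range_succ, sum_range_zero, tC, hP]
      norm_num
    rw [h2, Real.tan_eq_sin_div_cos]
    field_simp
  · filter_upwards with x
    rw [mul_one]

lemma tan_tay : ∃ c, Tay c (fun x => Real.tan (π * x) / x) ∧ ∀ j < 5, c j = tC j := by
  have hA : AnalyticAt ℝ (fun x : ℝ => dslope (fun x => Real.sin (π * x)) 0 x / Real.cos (π * x))
      0 := by
    have h1 : AnalyticAt ℝ (fun x : ℝ => π * x) 0 := analyticAt_const.mul analyticAt_id
    have h2 : AnalyticAt ℝ (fun x : ℝ => Real.sin (π * x)) 0 := Real.analyticAt_sin.comp h1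
    have h3 : AnalyticAt ℝ (dslope (fun x : ℝ => Real.sin (π * x)) 0) 0 := by
      obtain ⟨p, hp⟩ := h2
      exact ⟨_, hp.has_fpower_series_dslope_fslope⟩
    have h4 : AnalyticAt ℝ (fun x : ℝ => Real.cos (π * x)) 0 := Real.analyticAt_cos.comp h1
    exact h3.div h4 (by simp)
  obtain ⟨c, hc⟩ := tay_of_analytic hA
  have hc' : Tay c (fun x => Real.tan (π * x) / x) := hc.congr fun x hx => by
    rw [dslope_of_ne _ hx.ne', slope_def_field, Real.tan_eq_sin_div_cos]
    simp
    ring
  exact ⟨c, hc', hc'.coeff_eq tan_approx⟩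

end Pool.Agent.Q270.SQ
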