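import Pool.Agent.Q270.SQ.Crit
import Pool.Agent.Q270.SQ.Wallis

/-!
# The criterion for sequences with an asymptotic expansion
-/

set_option autoImplicit false

namespace Pool.Agent.Q270.SQ

open Finset Real Filter Asymptotics Topology
open Pool.Agent.Y933.KD (wd wd_lt)
open Pool.Agent.Y951.TU (tw)

variable {α c : ℕ → ℝ} {g : ℕ → ℝ} {κ x A : ℝ} {J : ℕ} {I : ℕ → Finset ℕ}

/-- the distance from the limit -/
lemma close_of_expands (hg : Expands α c g) (hα0 : α 0 = 0) (hc0 : c 0 = x) (hJ : 1 ≤ J)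
    (hαJ : α J = -κ) (hcz : ∀ j, 0 < j → j < J → c j = 0) :
    ∃ (C : ℝ) (m0 : ℕ), ∀ m : ℕ, m0 ≤ m → |g m - x| ≤ C * (m : ℝ) ^ (-κ) := by
  have h1 : (fun m : ℕ => g m - x) =O[atTop] (fun m : ℕ => (m : ℝ) ^ (-κ)) := by
    rw [← hαJ]
    refine (hg J).congr_left fun m => ?_
    congr 1
    rw [sum_eq_single 0]
    · rw [hα0, Real.rpow_zero, mul_one, hc0]
    · intro j hj hj0
      rw [hcz j (Nat.pos_of_ne_zero hj0) (mem_range.1 hj), zero_mul]
    · intro h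
      exact absurd (mem_range.2 (by omega)) h
  obtain ⟨C, hC⟩ := h1.bound
  obtain ⟨m0, hm0⟩ := eventually_atTop.1 hC
  refine ⟨C, m0, fun m hm => ?_⟩
  have h2 := hm0 m hm
  rwa [Real.norm_eq_abs, Real.norm_eq_abs, abs_of_nonneg (by positivity :
    0 ≤ (m : ℝ) ^ (-κ))] at h2

lemma tw_one (b : Fin 1 → ℕ) (k : ℕ) (s : Fin 1 → ℕ) (z : Fin 1 → ℝ) (D : Fin 1 → ℕ) :
    tw b k s z = D ↔ wd (b 0) k (s 0) (z 0) = D 0 := by
  unfold tw
  constructor
  · intro h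
    exact congrFun h 0
  · intro h
    funext i
    rw [Subsingleton.elim i 0]
    exact h

open Classical in
/-- normality of the digits after the places shared with the limit -/
theorem norm_E1 (hα : StrictAnti α) (hαt : Tendsto α atTop atBot) (hg : Expands α c g)
    (hκ : 0 < κ) (hαJ : α J = -κ) (hcJ : c J ≠ 0) (hI : GoodI I) (A δ : ℝ) (hδ : 0 < δ)
    (B w : ℕ) (ε : ℝ) (hε : 0 < ε) :
    ∃ c' : ℝ, 0 < c' ∧ ∃ M₀ : ℕ, ∀ M : ℕ, M₀ ≤ M →
      (((I M).filter (fun m => ¬ ∀ b : ℕ, 2 ≤ b → b ≤ B → ∀ k D s L : ℕ, 1 ≤ k → k ≤ w →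
        D < b ^ k → (M : ℝ) ^ (κ + δ) ≤ (b : ℝ) ^ s → (s : ℝ) + L ≤ A * log M →
        |(wc b k s L D (g m) : ℝ) - L / (b : ℝ) ^ k| ≤ ε * log M)).card : ℝ) ≤
        (I M).card * (M : ℝ) ^ (-c') := by
  obtain ⟨c', hc', M0, hM0⟩ := normal_E (r := 1) (c := fun _ => c) (g := fun _ => g) le_rfl hα hαt
    (fun _ => hg) (J0 := J + 1) (κ := κ) (by
      intro x hx
      have h1 := hx J (by omega) (fun n h => by
        rw [hαJ] at h
        have : (0 : ℝ) ≤ n := Nat.cast_nonneg n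
        linarith)
      simp only [Finset.univ_unique, Finset.sum_singleton] at h1
      funext i
      rw [Subsingleton.elim i default]
      exact (mul_eq_zero.1 h1).resolve_right hcJ) (by
      intro j hj
      rw [← hαJ]
      exact hα.antitone (by omega)) hI 0 δ 1 A hδ B w ε hε
  refine ⟨c', hc', max M0 1, fun M hM => ?_⟩
  have hM1 : 1 ≤ M := le_of_max_le_right hM
  have hMR : (1 : ℝ) ≤ M := by exact_mod_cast hM1
  obtain ⟨-, h⟩ := hM0 M (le_of_max_le_left hM)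
  have h1 := h (fun _ => 1) (fun _ => 0) (fun _ => by
    rw [abs_one]
    constructor
    · exact Real.rpow_le_one_of_one_le_of_nonpos hMR (by norm_num)
    · exact Real.one_le_rpow hMR (by norm_num)) (fun _ => by simp)
  refine le_trans (Nat.cast_le.2 (card_le_card fun m hm => ?_)) h1
  rw [mem_filter] at hm ⊢
  refine ⟨hm.1, fun h2 => hm.2 ?_⟩
  intro b hb2 hbB k D s L hk hkw hD hs hsL
  have h3 := h2 (fun _ => b) (fun _ => ⟨hb2, hbB⟩) k (fun _ => D) (fun _ => s) L hk hkw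
    (fun _ => hD) (fun _ => by rw [abs_one, one_mul]; exact hs) (fun _ => hsL)
  have h4 : ((range L).filter (fun i => tw (fun _ : Fin 1 => b) k (fun _ => s + i)
      (VecE (fun _ => g) (fun _ => 1) (fun _ => 0) m) = fun _ => D)).card = wc b k s L D (g m) := by
    unfold wc
    congr 1
    refine filter_congr fun i _ => ?_
    rw [tw_one]
    simp [VecE]
  rw [h4] at h3
  simpa using h3

open Classical in
/-- the criterion -/
theorem criterion {b : ℕ} (hb : 2 ≤ b) (hα : StrictAnti α) (hαt : Tendsto α atTop atBot)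
    (hg : Expands α c g) (hα0 : α 0 = 0) (hc0 : c 0 = x) (hJ : 1 ≤ J) (hκ : 0 < κ)
    (hαJ : α J = -κ) (hcz : ∀ j, 0 < j → j < J → c j = 0) (hcJ : c J ≠ 0) (hI : GoodI I)
    (hA : 0 < A) :
    (NormalB b x → ∀ (w : ℕ) (ε : ℝ), 0 < ε → ∃ c' : ℝ, 0 < c' ∧ ∃ M₀ : ℕ, ∀ M : ℕ, M₀ ≤ M →
      (((I M).filter (fun m => ¬ Fine b w (A * log M) (ε * log M) (g m))).card : ℝ) ≤
        (I M).card * (M : ℝ) ^ (-c')) ∧
    (∀ η : ℝ, η < 1 → (∀ (w : ℕ) (ε : ℝ), 0 < ε → ∀ᶠ M : ℕ in atTop,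
      (M : ℝ) ^ (-η) * (I M).card ≤
      (((I M).filter (fun m => Fine b w (A * log M) (ε * log M) (g m))).card : ℝ)) →
      NormalB b x) := by
  have hclose := close_of_expands hg hα0 hc0 hJ hαJ hcz
  refine ⟨fun hx w ε hε => ?_, fun η hη h => crit_two hb hκ hA hI hclose hη h⟩
  refine crit_one hb hκ hA hI hclose ?_ hx w hε
  intro δ w' ε' hδ hε'
  obtain ⟨c', hc', M0, hM0⟩ := norm_E1 hα hαt hg hκ hαJ hcJ hI A δ hδ b w' ε' hε'
  refine ⟨c', hc', M0, fun M hM => le_trans (Nat.cast_le.2 (card_le_card fun m hm => ?_))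
    (hM0 M hM)⟩
  rw [mem_filter] at hm ⊢
  refine ⟨hm.1, fun h2 => hm.2 ?_⟩
  intro k D s L hk hkw hD hs hsL
  exact h2 b hb le_rfl k D s L hk hkw hD hs hsL

end Pool.Agent.Q270.SQ
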