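import Pool.Agent.Q270.SQ.Ex

/-!
# Asymptotic expansions of sums and of exponentials
-/

set_option autoImplicit false

namespace Pool.Agent.Q270.SQ

open Finset Real Filter Asymptotics Topology

/-- if the coefficients below `n` vanish, the function is `O(x^n)` -/
lemma Tay.isBigO {c : ℕ → ℝ} {G : ℝ → ℝ} (h : Tay c G) {n : ℕ} (hc : ∀ i < n, c i = 0) :
    G =O[𝓝[>] 0] (fun x : ℝ => x ^ n) := by
  refine (h n).congr_left fun x => ?_
  rw [sum_eq_zero, sub_zero]
  intro i hi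
  rw [hc i (mem_range.1 hi), zero_mul]

/-- the coefficients below `n` vanish, if the function is `O(x^n)` -/
lemma Tay.coeff_zero {c : ℕ → ℝ} {G : ℝ → ℝ} (h : Tay c G) {n : ℕ}
    (hG : G =O[𝓝[>] 0] (fun x : ℝ => x ^ n)) : ∀ i < n, c i = 0 :=
  h.coeff_eq (c' := fun _ => 0) (by simpa using hG)

lemma Tay.sub {c c' : ℕ → ℝ} {G G' : ℝ → ℝ} (h : Tay c G) (h' : Tay c' G') :
    Tay (fun i => c i - c' i) (fun x => G x - G' x) := by
  intro J
  refine ((h J).sub (h' J)).congr_left fun x => ?_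
  simp only [sub_mul, sum_sub_distrib]
  ring

lemma Tay.add {c c' : ℕ → ℝ} {G G' : ℝ → ℝ} (h : Tay c G) (h' : Tay c' G') :
    Tay (fun i => c i + c' i) (fun x => G x + G' x) := by
  intro J
  refine ((h J).add (h' J)).congr_left fun x => ?_
  simp only [add_mul, sum_add_distrib]
  ring

lemma Tay.const_mul {c : ℕ → ℝ} {G : ℝ → ℝ} (h : Tay c G) (a : ℝ) :
    Tay (fun i => a * c i) (fun x => a * G x) := by
  intro J
  refine ((h J).const_mul_left a).congr_left fun x => ?_
  simp only [mul_sub, mul_sum, mul_assoc]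

lemma tay_zero : Tay (fun _ => 0) (fun _ => 0) := by
  intro J
  simp only [zero_mul, sum_const_zero, sub_zero]
  exact isBigO_zero _ _

lemma tay_sum {ι : Type*} (s : Finset ι) {c : ι → ℕ → ℝ} {G : ι → ℝ → ℝ}
    (h : ∀ j ∈ s, Tay (c j) (G j)) : Tay (fun i => ∑ j ∈ s, c j i) (fun x => ∑ j ∈ s, G j x) := by
  classical
  induction s using Finset.induction_on with
  | empty => simpa using tay_zero
  | insert a s ha ih =>
    have h1 := (h a (mem_insert_self a s)).add (ih fun j hj => h j (mem_insert_of_mem hj))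
    simpa only [sum_insert ha] using h1

/-- the difference of `m ^ (-j)` -/
lemma diff_tay (j : ℕ) (_hj : 1 ≤ j) : ∃ d : ℕ → ℝ, Tay d (fun x => (x / (1 + x)) ^ j - x ^ j) ∧
    (∀ i ≤ j, d i = 0) ∧ d (j + 1) = -(j : ℝ) := by
  have hA : AnalyticAt ℝ (fun x : ℝ => (x / (1 + x)) ^ j - x ^ j) 0 := by
    have h1 : AnalyticAt ℝ (fun x : ℝ => x / (1 + x)) 0 :=
      analyticAt_id.div (analyticAt_const.add analyticAt_id) (by norm_num)
    exact (h1.pow j).sub (analyticAt_id.pow j)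
  obtain ⟨d, hd⟩ := tay_of_analytic hA
  -- the approximation `-j x^(j+1)`
  have happ : (fun x : ℝ => ((x / (1 + x)) ^ j - x ^ j) - -(j : ℝ) * x ^ (j + 1)) =O[𝓝[>] 0]
      (fun x : ℝ => x ^ (j + 2)) := by
    -- `(1+x)^(-j) - 1 + j x = O(x²)`
    have hB : AnalyticAt ℝ (fun x : ℝ => (1 + x)⁻¹ ^ j) 0 := by
      have h1 : AnalyticAt ℝ (fun x : ℝ => 1 + x) 0 := analyticAt_const.add analyticAt_id
      exact (h1.inv (by norm_num)).pow j
    obtain ⟨p, hp⟩ := hB
    have h2 := (hp.isBigO_sub_partialSum_pow 2).mono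
      (nhdsWithin_le_nhds (s := Set.Ioi (0 : ℝ)))
    have hp0 : p.coeff 0 = 1 := by
      have h9 : p.coeff 0 = (1 + (0 : ℝ))⁻¹ ^ j := hp.coeff_zero 1
      rw [h9]
      norm_num
    have hp1 : p.coeff 1 = -(j : ℝ) := by
      have h3 := hp.deriv
      have h4 : HasDerivAt (fun x : ℝ => (1 + x)⁻¹ ^ j) (-(j : ℝ)) 0 := by
        have h5 : HasDerivAt (fun x : ℝ => (1 : ℝ) + x) 1 0 := by
          simpa using (hasDerivAt_id (0 : ℝ)).const_add 1
        have h6 : HasDerivAt (fun x : ℝ => (1 + x)⁻¹) (-1) 0 := by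
          have h7 := h5.fun_inv (by norm_num)
          norm_num at h7
          exact h7
        have h7 := h6.fun_pow j
        norm_num at h7
        simpa using h7
      rw [h4.deriv] at h3
      have h5 : p.coeff 1 = p 1 (fun _ => 1) := rfl
      rw [h5, ← h3]
    have h3 : (fun x : ℝ => (1 + x)⁻¹ ^ j - (1 - j * x)) =O[𝓝[>] 0] (fun x : ℝ => x ^ 2) := by
      refine (h2.congr_left fun x => ?_).trans ?_
      · rw [zero_add, FormalMultilinearSeries.partialSum, sum_range_succ, sum_range_one,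
          FormalMultilinearSeries.apply_eq_pow_smul_coeff,
          FormalMultilinearSeries.apply_eq_pow_smul_coeff, hp0, hp1]
        simp only [pow_zero, smul_eq_mul, pow_one]
        ring
      · refine IsBigO.of_bound 1 ?_
        filter_upwards with x
        rw [one_mul, norm_pow, norm_pow, norm_norm]
    have h4 := (isBigO_refl (fun x : ℝ => x ^ j) (𝓝[>] 0)).mul h3
    refine (h4.congr_left fun x => ?_).congr_right fun x => ?_
    · rw [div_eq_mul_inv, mul_pow, pow_succ]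
      ring
    · rw [pow_add]
  have h0 := hd.coeff_eq (J := j + 2) (c' := fun i => if i = j + 1 then -(j : ℝ) else 0) (by
    refine happ.congr_left fun x => ?_
    congr 1
    rw [sum_range_succ, sum_eq_zero, zero_add, if_pos rfl]
    intro i hi
    rw [if_neg (by have := mem_range.1 hi; omega), zero_mul])
  refine ⟨d, hd, fun i hi => ?_, ?_⟩
  · have := h0 i (by omega)
    rwa [if_neg (by omega)] at this
  · have := h0 (j + 1) (by omega)
    rwa [if_pos rfl] at this

/-- the solution of the triangular system -/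
noncomputable def tri (L : ℝ) (r : ℕ → ℝ) (d : ℕ → ℕ → ℝ) : ℕ → ℝ
  | 0 => L
  | n + 1 => (r (n + 2) - ∑ j : Fin n, tri L r d (j + 1) * d (j + 1) (n + 2)) / d (n + 1) (n + 2)
termination_by n => n
decreasing_by
  have := j.2
  omega

lemma tri_zero (L : ℝ) (r : ℕ → ℝ) (d : ℕ → ℕ → ℝ) : tri L r d 0 = L := by
  rw [tri]

lemma tri_eq {L : ℝ} {r : ℕ → ℝ} {d : ℕ → ℕ → ℝ} (hd : ∀ j, 1 ≤ j → d j (j + 1) ≠ 0) (n : ℕ) :
    ∑ j ∈ Finset.range (n + 1), tri L r d (j + 1) * d (j + 1) (n + 2) = r (n + 2) := by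
  rw [sum_range_succ]
  have h1 : tri L r d (n + 1) * d (n + 1) (n + 2) =
      r (n + 2) - ∑ j ∈ Finset.range n, tri L r d (j + 1) * d (j + 1) (n + 2) := by
    rw [tri, div_mul_cancel₀ _ (hd (n + 1) (by omega))]
    rw [Finset.sum_range]
  rw [h1]
  ring

/-- a sequence which tends to `0` with small differences -/
lemma tail_bound {f : ℕ → ℝ} (hf : Tendsto f atTop (𝓝 0)) {J : ℕ} (hJ : 1 ≤ J)
    (hd : (fun m : ℕ => f (m + 1) - f m) =O[atTop] (fun m : ℕ => (1 / (m : ℝ)) ^ (J + 1))) :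
    f =O[atTop] (fun m : ℕ => (1 / (m : ℝ)) ^ J) := by
  obtain ⟨C, hC⟩ := hd.bound
  obtain ⟨m0, hm0⟩ := eventually_atTop.1 hC
  -- `m^(-J-1) ≤ 2^(J+1) (m^(-J) - (m+1)^(-J))`
  have hkey : ∀ m : ℕ, 1 ≤ m → (1 / (m : ℝ)) ^ (J + 1) ≤
      2 ^ (J + 1) * ((1 / (m : ℝ)) ^ J - (1 / ((m + 1 : ℕ) : ℝ)) ^ J) := by
    intro m hm
    have hm1 : (1 : ℝ) ≤ m := by exact_mod_cast hm
    have hmpos : (0 : ℝ) < m := by linarith
    set x : ℝ := 1 / (m : ℝ) with hx
    set y : ℝ := 1 / ((m + 1 : ℕ) : ℝ) with hy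
    have hx0 : 0 < x := by positivity
    have hy0 : 0 < y := by positivity
    have hxy : x - y = x * y := by
      rw [hx, hy]
      push_cast
      field_simp
      ring
    have hyx : y ≤ x := by nlinarith [mul_pos hx0 hy0]
    have hx2y : x ≤ 2 * y := by
      rw [hx, hy]
      push_cast
      rw [mul_one_div, div_le_div_iff₀ hmpos (by positivity)]
      linarith
    have h1 : y ^ (J - 1) * (x - y) ≤ x ^ J - y ^ J := by
      have h2 : x ^ J - y ^ J = x ^ (J - 1) * x - y ^ (J - 1) * y := by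
        rw [← pow_succ, ← pow_succ, Nat.sub_add_cancel hJ]
      have h3 : y ^ (J - 1) ≤ x ^ (J - 1) := pow_le_pow_left₀ hy0.le hyx _
      rw [h2]
      nlinarith
    calc x ^ (J + 1) = x ^ (J - 1) * x * x := by
          rw [← pow_succ, ← pow_succ, Nat.sub_add_cancel hJ]
      _ ≤ (2 * y) ^ (J - 1) * x * (2 * y) := by gcongr
      _ = 2 ^ (J - 1) * 2 * (y ^ (J - 1) * (x * y)) := by rw [mul_pow]; ring
      _ = 2 ^ J * (y ^ (J - 1) * (x - y)) := by
          rw [hxy, ← pow_succ, Nat.sub_add_cancel hJ]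
      _ ≤ 2 ^ J * (x ^ J - y ^ J) := by gcongr
      _ ≤ 2 ^ (J + 1) * (x ^ J - y ^ J) := by
          have h2 : 0 ≤ x ^ J - y ^ J := sub_nonneg.2 (pow_le_pow_left₀ hy0.le hyx _)
          have h3 : (2 : ℝ) ^ J ≤ 2 ^ (J + 1) := pow_le_pow_right₀ (by norm_num) (by omega)
          gcongr
  set K : ℝ := |C| * 2 ^ (J + 1) with hK
  have hK0 : 0 ≤ K := by positivity
  have hstep : ∀ m : ℕ, max m0 1 ≤ m → |f (m + 1) - f m| ≤
      K * ((1 / (m : ℝ)) ^ J - (1 / ((m + 1 : ℕ) : ℝ)) ^ J) := by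
    intro m hm
    have h1 := hm0 m (le_of_max_le_left hm)
    rw [Real.norm_eq_abs, Real.norm_eq_abs, abs_of_nonneg (by positivity :
      0 ≤ (1 / (m : ℝ)) ^ (J + 1))] at h1
    calc |f (m + 1) - f m| ≤ C * (1 / (m : ℝ)) ^ (J + 1) := h1
      _ ≤ |C| * (1 / (m : ℝ)) ^ (J + 1) := by
          apply mul_le_mul_of_nonneg_right (le_abs_self C) (by positivity)
      _ ≤ |C| * (2 ^ (J + 1) * ((1 / (m : ℝ)) ^ J - (1 / ((m + 1 : ℕ) : ℝ)) ^ J)) := by
          apply mul_le_mul_of_nonneg_left (hkey m (le_of_max_le_right hm)) (abs_nonneg _)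
      _ = _ := by rw [hK]; ring
  have hsum : ∀ m : ℕ, max m0 1 ≤ m → ∀ n : ℕ, |f (m + n) - f m| ≤
      K * ((1 / (m : ℝ)) ^ J - (1 / ((m + n : ℕ) : ℝ)) ^ J) := by
    intro m hm n
    induction n with
    | zero => simp
    | succ n ih =>
      have h1 := hstep (m + n) (by omega)
      calc |f (m + (n + 1)) - f m| = |(f (m + n + 1) - f (m + n)) + (f (m + n) - f m)| := by
            congr 1
            rw [← add_assoc]
            ring
        _ ≤ |f (m + n + 1) - f (m + n)| + |f (m + n) - f m| := abs_add_le _ _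
        _ ≤ K * ((1 / ((m + n : ℕ) : ℝ)) ^ J - (1 / ((m + n + 1 : ℕ) : ℝ)) ^ J) +
            K * ((1 / (m : ℝ)) ^ J - (1 / ((m + n : ℕ) : ℝ)) ^ J) := add_le_add h1 ih
        _ = _ := by
            rw [show m + (n + 1) = m + n + 1 by ring]
            ring
  refine IsBigO.of_bound K ?_
  filter_upwards [eventually_ge_atTop (max m0 1)] with m hm
  rw [Real.norm_eq_abs, Real.norm_eq_abs, abs_of_nonneg (by positivity : 0 ≤ (1 / (m : ℝ)) ^ J)]
  have h1 : Tendsto (fun n : ℕ => |f (m + n) - f m|) atTop (𝓝 |0 - f m|) := by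
    have h2 : Tendsto (fun n : ℕ => f (m + n)) atTop (𝓝 0) := by
      have := (tendsto_add_atTop_iff_nat m).2 hf
      refine this.congr fun n => ?_
      rw [add_comm]
    exact (h2.sub_const _).abs
  rw [zero_sub, abs_neg] at h1
  refine le_of_tendsto h1 (Eventually.of_forall fun n => ?_)
  refine (hsum m hm n).trans ?_
  have h2 : 0 ≤ (1 / ((m + n : ℕ) : ℝ)) ^ J := by positivity
  nlinarith

/-- a convergent sequence whose differences have an expansion -/
theorem sum_expands {g : ℕ → ℝ} {L : ℝ} (hL : Tendsto g atTop (𝓝 L)) {H : ℝ → ℝ} {r : ℕ → ℝ}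
    (hH : Tay r H) (hr0 : r 0 = 0) (hr1 : r 1 = 0)
    (hg : ∀ m : ℕ, 1 ≤ m → g (m + 1) - g m = H (1 / (m : ℝ))) :
    ∃ c : ℕ → ℝ, Expands neg c g ∧ c 0 = L ∧ c 1 = -r 2 := by
  have hd : ∀ j : ℕ, ∃ d : ℕ → ℝ, 1 ≤ j → Tay d (fun x => (x / (1 + x)) ^ j - x ^ j) ∧
      (∀ i ≤ j, d i = 0) ∧ d (j + 1) = -(j : ℝ) := by
    intro j
    by_cases hj : 1 ≤ j
    · obtain ⟨d, h⟩ := diff_tay j hj
      exact ⟨d, fun _ => h⟩
    · exact ⟨fun _ => 0, fun h => absurd h hj⟩
  choose d hd using hd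
  have hdne : ∀ j, 1 ≤ j → d j (j + 1) ≠ 0 := by
    intro j hj
    rw [(hd j hj).2.2]
    have : (1 : ℝ) ≤ j := by exact_mod_cast hj
    intro h
    linarith
  set c := tri L r d with hc
  have hc0 : c 0 = L := tri_zero _ _ _
  have hceq := fun n => tri_eq (L := L) (r := r) hdne n
  refine ⟨c, ?_, hc0, ?_⟩
  swap
  · have h1 := hceq 0
    simp only [zero_add, range_one, sum_singleton] at h1
    rw [show d 1 2 = -((1 : ℕ) : ℝ) from (hd 1 le_rfl).2.2] at h1
    rw [hc]
    push_cast at h1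
    linarith
  intro J
  rcases Nat.eq_zero_or_pos J with rfl | hJ
  · simp only [range_zero, sum_empty, sub_zero]
    have h1 : (fun m : ℕ => (m : ℝ) ^ neg 0) = fun _ => (1 : ℝ) := by
      funext m
      simp [neg]
    rw [h1]
    exact hL.isBigO_one ℝ
  set q : ℕ → ℝ := fun m => ∑ j ∈ Finset.range J, c j * (1 / (m : ℝ)) ^ j with hq
  have hqlim : Tendsto q atTop (𝓝 L) := by
    have h1 : Tendsto q atTop (𝓝 (∑ j ∈ Finset.range J, c j * (0 : ℝ) ^ j)) := by
      refine tendsto_finsetSum _ fun j _ => ?_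
      exact (tendsto_one_div_atTop_nhds_zero_nat.pow j).const_mul _
    have h2 : ∑ j ∈ Finset.range J, c j * (0 : ℝ) ^ j = L := by
      rw [sum_eq_single 0]
      · rw [pow_zero, mul_one, hc0]
      · intro j _ hj
        rw [zero_pow hj, mul_zero]
      · intro h
        exact absurd (mem_range.2 hJ) h
    rwa [h2] at h1
  -- the error function
  set E : ℝ → ℝ := fun x => H x - ∑ j ∈ Finset.Ico 1 J, c j * ((x / (1 + x)) ^ j - x ^ j) with hE
  have hET : Tay (fun i => r i - ∑ j ∈ Finset.Ico 1 J, c j * d j i) E := by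
    refine hH.sub (tay_sum _ fun j hj => ?_)
    exact ((hd j (mem_Ico.1 hj).1).1).const_mul (c j)
  have hEO : E =O[𝓝[>] 0] (fun x : ℝ => x ^ (J + 1)) := by
    refine hET.isBigO fun i hi => ?_
    have hsplit : ∀ i : ℕ, i ≤ J → ∑ j ∈ Finset.Ico 1 J, c j * d j i =
        ∑ j ∈ Finset.Ico 1 i, c j * d j i := by
      intro i hiJ
      symm
      refine sum_subset (Ico_subset_Ico_right hiJ) fun j hj hj2 => ?_
      have h1 := mem_Ico.1 hj
      have h2 : i ≤ j := by
        by_contra hcon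
        exact hj2 (mem_Ico.2 ⟨h1.1, by omega⟩)
      rw [(hd j h1.1).2.1 i h2, mul_zero]
    rw [hsplit i (by omega)]
    rcases i with _ | i
    · simp [hr0]
    rcases i with _ | n
    · simp [hr1]
    have h1 : ∑ j ∈ Finset.Ico 1 (n + 1 + 1), c j * d j (n + 1 + 1) = r (n + 2) := by
      rw [← hceq n, Finset.sum_Ico_eq_sum_range]
      refine sum_congr (by rw [show n + 1 + 1 - 1 = n + 1 by omega]) fun j _ => ?_
      rw [add_comm 1 j]
    rw [h1, show n + 1 + 1 = n + 2 by ring, sub_self]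
  have hdiff : (fun m : ℕ => (g (m + 1) - q (m + 1)) - (g m - q m)) =O[atTop]
      (fun m : ℕ => (1 / (m : ℝ)) ^ (J + 1)) := by
    have h1 := hEO.comp_tendsto tendsto_inv
    refine h1.congr' ?_ EventuallyEq.rfl
    filter_upwards [eventually_ge_atTop 1] with m hm
    have hm0 : (0 : ℝ) < m := by exact_mod_cast hm
    have h2 : (g (m + 1) - q (m + 1)) - (g m - q m) = (g (m + 1) - g m) - (q (m + 1) - q m) := by
      ring
    rw [h2, hg m hm]
    simp only [Function.comp, hE]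
    congr 1
    have hx : 1 / (m : ℝ) / (1 + 1 / (m : ℝ)) = 1 / ((m + 1 : ℕ) : ℝ) := by
      push_cast
      field_simp
    rw [hx, hq]
    simp only []
    rw [← sum_sub_distrib, range_eq_Ico, sum_eq_sum_Ico_succ_bot hJ]
    simp only [pow_zero, mul_one, sub_self, zero_add]
    refine sum_congr rfl fun j _ => ?_
    ring
  have hlim : Tendsto (fun m => g m - q m) atTop (𝓝 0) := by
    have := hL.sub hqlim
    rwa [sub_self] at this
  have h := tail_bound hlim hJ hdiff
  refine (h.congr_left fun m => ?_).congr_right fun m => ?_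
  · rw [hq]
    simp only [inv_pow_eq]
  · rw [inv_pow_eq]

end Pool.Agent.Q270.SQ
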