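import Pool.Agent.Q270.SQ.Series

/-!
# The classical approximations to `e`, `π` and `√2`
-/

set_option autoImplicit false

namespace Pool.Agent.Q270.SQ

open Finset Real Filter Asymptotics Topology

/-- the coefficients of `sin(πx)/x` -/
noncomputable def sC (n : ℕ) : ℝ :=
  if Even n then (-1) ^ (n / 2) * π ^ (n + 1) / (n + 1).factorial else 0

lemma sin_tay : Tay sC (fun x => Real.sin (π * x) / x) := by
  have h : Tay sC (fun x => if x = 0 then π else Real.sin (π * x) / x) := by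
    refine tay_of_hasSum (Eventually.of_forall fun x => ?_)
    by_cases hx : x = 0
    · subst hx
      rw [if_pos rfl]
      have h1 := hasSum_single (f := fun n : ℕ => (0 : ℝ) ^ n * sC n) 0 (fun n hn => by
        rw [zero_pow hn, zero_mul])
      simpa [sC] using h1
    · rw [if_neg hx]
      have he : HasSum (fun k : ℕ => x ^ (2 * k) * sC (2 * k)) (Real.sin (π * x) / x) := by
        have h1 := (Real.hasSum_sin (π * x)).div_const x
        refine h1.congr_fun ?_
        intro k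
        have h2 : Even (2 * k) := even_two_mul k
        have h3 : 2 * k / 2 = k := by omega
        simp only [sC]
        rw [if_pos h2, h3]
        field_simp
        ring
      have ho : HasSum (fun k : ℕ => x ^ (2 * k + 1) * sC (2 * k + 1)) 0 := by
        have h2 : ∀ k : ℕ, ¬ Even (2 * k + 1) := fun k => by
          rw [Nat.not_even_iff_odd]
          exact odd_two_mul_add_one k
        have : (fun k : ℕ => x ^ (2 * k + 1) * sC (2 * k + 1)) = fun _ => 0 := by
          funext k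
          simp only [sC, if_neg (h2 k), mul_zero]
        rw [this]
        exact hasSum_zero
      have h3 := HasSum.even_add_odd (f := fun n : ℕ => x ^ n * sC n) he ho
      rwa [add_zero] at h3
  exact h.congr fun x hx => by rw [if_neg hx.ne']

/-- the coefficients of `log(1+x)/x` -/
lemma log_tay : Tay (fun n => (-1) ^ n / ((n : ℝ) + 1)) (fun x => Real.log (1 + x) / x) := by
  have h : Tay (fun n => (-1) ^ n / ((n : ℝ) + 1))
      (fun x => if x = 0 then 1 else Real.log (1 + x) / x) := by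
    refine tay_of_hasSum ?_
    filter_upwards [Ioo_mem_nhds (show (-1 : ℝ) < 0 by norm_num) (show (0 : ℝ) < 1 by norm_num)]
      with x hx
    by_cases hx0 : x = 0
    · subst hx0
      rw [if_pos rfl]
      have h1 := hasSum_single (f := fun n : ℕ => (0 : ℝ) ^ n * ((-1) ^ n / ((n : ℝ) + 1))) 0
        (fun n hn => by
          rw [zero_pow hn, zero_mul])
      simpa using h1
    · rw [if_neg hx0]
      have h1 : |-x| < 1 := by rw [abs_neg, abs_lt]; exact ⟨hx.1, hx.2⟩
      have h2 := ((hasSum_pow_div_log_of_abs_lt_one h1).neg).div_const x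
      rw [neg_neg, sub_neg_eq_add] at h2
      refine h2.congr_fun ?_
      intro n
      have : ((n : ℝ) + 1) ≠ 0 := by positivity
      rw [neg_pow x (n + 1), pow_succ (-1 : ℝ) n]
      field_simp
      ring
  exact h.congr fun x hx => by rw [if_neg hx.ne']

/-- `e` times the polynomial `1 - x/2 + 11x²/24 - 7x³/16` -/
noncomputable def eC (n : ℕ) : ℝ :=
  if n = 0 then Real.exp 1 else if n = 1 then -(Real.exp 1 / 2) else
    if n = 2 then 11 * Real.exp 1 / 24 else -(7 * Real.exp 1 / 16)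

lemma e_approx : (fun x : ℝ => Real.exp (Real.log (1 + x) / x) -
    ∑ j ∈ Finset.range 4, eC j * x ^ j) =O[𝓝[>] 0] (fun x : ℝ => x ^ 4) := by
  set p : ℝ → ℝ := fun x => -(x / 2) + x ^ 2 / 3 - x ^ 3 / 4 with hp
  set u : ℝ → ℝ := fun x => Real.log (1 + x) / x - 1 with hu
  have hid : Tendsto (fun x : ℝ => x) (𝓝[>] 0) (𝓝 0) := tendsto_id.mono_left nhdsWithin_le_nhds
  have hρ : (fun x => u x - p x) =O[𝓝[>] 0] (fun x : ℝ => x ^ 4) := by
    refine (log_tay 4).congr_left fun x => ?_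
    simp only [sum_range_succ, sum_range_zero, hu, hp]
    push_cast
    ring
  have hx1 : (fun x : ℝ => x ^ 4) =O[𝓝[>] 0] (fun x : ℝ => x) := by
    refine IsBigO.of_bound 1 ?_
    filter_upwards [Ioo_mem_nhdsGT (show (0 : ℝ) < 1 by norm_num)] with x hx
    rw [norm_pow, Real.norm_eq_abs, abs_of_pos hx.1]
    have := pow_le_one₀ (n := 3) hx.1.le hx.2.le
    have h2 := hx.1
    nlinarith
  have hp1 : p =O[𝓝[>] 0] (fun x : ℝ => x) := by
    refine IsBigO.of_bound 2 ?_
    filter_upwards [Ioo_mem_nhdsGT (show (0 : ℝ) < 1 by norm_num)] with x hx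
    rw [Real.norm_eq_abs, Real.norm_eq_abs, abs_of_pos hx.1, abs_le]
    simp only [hp]
    have h1 := hx.1
    have h2 := hx.2
    have h3 : x ^ 2 ≤ x := by nlinarith
    have h4 : x ^ 3 ≤ x := by nlinarith [sq_nonneg x]
    have h5 : 0 ≤ x ^ 2 := sq_nonneg x
    have h6 : 0 ≤ x ^ 3 := by positivity
    constructor <;> linarith
  have hu1 : u =O[𝓝[>] 0] (fun x : ℝ => x) := by
    have := (hρ.trans hx1).add hp1
    refine this.congr_left fun x => ?_
    ring
  have hu0 : Tendsto u (𝓝[>] 0) (𝓝 0) := hu1.trans_tendsto hid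
  have hp0 : Tendsto p (𝓝[>] 0) (𝓝 0) := hp1.trans_tendsto hid
  have h1 : (fun x => Real.exp (u x) - (1 + u x + u x ^ 2 / 2 + u x ^ 3 / 6)) =O[𝓝[>] 0]
      (fun x : ℝ => x ^ 4) := by
    refine IsBigO.trans (IsBigO.of_bound 1 ?_) (hu1.pow 4)
    have h2 : ∀ᶠ x in 𝓝[>] 0, |u x| ≤ 1 := by
      have := hu0.abs
      rw [abs_zero] at this
      exact this.eventually_le_const one_pos
    filter_upwards [h2] with x hx
    have h3 := Real.exp_bound hx (n := 4) (by norm_num)
    simp only [sum_range_succ, sum_range_zero, Nat.factorial] at h3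
    rw [one_mul, norm_pow, Real.norm_eq_abs, Real.norm_eq_abs]
    have h4 : Real.exp (u x) - (1 + u x + u x ^ 2 / 2 + u x ^ 3 / 6) =
        Real.exp (u x) - (0 + u x ^ 0 / ((1 : ℕ) : ℝ) + u x ^ 1 / (((0 + 1) * 1 : ℕ) : ℝ) +
          u x ^ 2 / (((1 + 1) * ((0 + 1) * 1) : ℕ) : ℝ) +
          u x ^ 3 / (((2 + 1) * ((1 + 1) * ((0 + 1) * 1)) : ℕ) : ℝ)) := by
      push_cast
      ring
    rw [h4]
    refine h3.trans ?_
    have h5 : 0 ≤ |u x| ^ 4 := by positivity
    norm_num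
    nlinarith
  have h2 : (fun x => (1 + u x + u x ^ 2 / 2 + u x ^ 3 / 6) - (1 + p x + p x ^ 2 / 2 + p x ^ 3 / 6))
      =O[𝓝[>] 0] (fun x : ℝ => x ^ 4) := by
    have h3 : (fun x => 1 + (u x + p x) / 2 + (u x ^ 2 + u x * p x + p x ^ 2) / 6) =O[𝓝[>] 0]
        (fun _ : ℝ => (1 : ℝ)) := by
      have h4 : Tendsto (fun x => 1 + (u x + p x) / 2 + (u x ^ 2 + u x * p x + p x ^ 2) / 6)
          (𝓝[>] 0) (𝓝 (1 + (0 + 0) / 2 + (0 ^ 2 + 0 * 0 + 0 ^ 2) / 6)) := by
        exact (tendsto_const_nhds.add ((hu0.add hp0).div_const 2)).add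
          ((((hu0.pow 2).add (hu0.mul hp0)).add (hp0.pow 2)).div_const 6)
      exact h4.isBigO_one ℝ
    have h5 := hρ.mul h3
    refine (h5.congr_left fun x => ?_).congr_right fun x => ?_
    · ring
    · ring
  have h3 : (fun x => (1 + p x + p x ^ 2 / 2 + p x ^ 3 / 6) -
      (1 - x / 2 + 11 * x ^ 2 / 24 - 7 * x ^ 3 / 16)) =O[𝓝[>] 0] (fun x : ℝ => x ^ 4) := by
    have h4 : ∃ q : ℝ → ℝ, Continuous q ∧ ∀ x, (1 + p x + p x ^ 2 / 2 + p x ^ 3 / 6) -
      (1 - x / 2 + 11 * x ^ 2 / 24 - 7 * x ^ 3 / 16) = x ^ 4 * q x := by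
      refine ⟨fun x => 1 / 18 + 1 / 8 + 1 / 24 + x * (-1 / 12 - 1 / 32 - 1 / 36) +
        x ^ 2 * (1 / 32 + 1 / 24 + 1 / 162) + x ^ 3 * (-1 / 64 - 1 / 72) +
        x ^ 4 * (1 / 96) + x ^ 5 * (-1 / 384), by fun_prop, fun x => ?_⟩
      simp only [hp]
      ring
    obtain ⟨q, hq, hq2⟩ := h4
    have h5 : q =O[𝓝[>] 0] (fun _ : ℝ => (1 : ℝ)) :=
      ((hq.tendsto 0).mono_left nhdsWithin_le_nhds).isBigO_one ℝ
    refine (((isBigO_refl (fun x : ℝ => x ^ 4) _).mul h5).congr_left fun x => ?_).congr_right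
      fun x => ?_
    · exact (hq2 x).symm
    · ring
  have h4 := (((h1.add h2).add h3).const_mul_left (Real.exp 1))
  refine h4.congr_left fun x => ?_
  have h5 : Real.exp (Real.log (1 + x) / x) = Real.exp 1 * Real.exp (u x) := by
    rw [← Real.exp_add]
    congr 1
    simp only [hu]
    ring
  rw [h5]
  simp only [sum_range_succ, sum_range_zero, eC]
  norm_num
  ring

/-- the first coefficients of `√(2+x)` -/
noncomputable def rC (n : ℕ) : ℝ :=
  if n = 0 then √2 else if n = 1 then √2 / 4 else if n = 2 then -(√2 / 32) else √2 / 128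

lemma sqrt_approx : (fun x : ℝ => √(2 + x) - ∑ j ∈ Finset.range 4, rC j * x ^ j) =O[𝓝[>] 0]
    (fun x : ℝ => x ^ 4) := by
  refine IsBigO.of_bound 1 ?_
  filter_upwards [Ioo_mem_nhdsGT (show (0 : ℝ) < 1 by norm_num)] with x hx
  have hx0 := hx.1
  have hx1 := hx.2
  set P : ℝ := √2 + √2 / 4 * x - √2 / 32 * x ^ 2 + √2 / 128 * x ^ 3 with hP
  have h1 : √(2 + x) - ∑ j ∈ Finset.range 4, rC j * x ^ j = √(2 + x) - P := by
    simp only [sum_range_succ, sum_range_zero, rC, hP]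
    norm_num
    ring
  have h2 : √2 ^ 2 = 2 := Real.sq_sqrt (by norm_num)
  have h3 : √(2 + x) ^ 2 = 2 + x := Real.sq_sqrt (by linarith)
  have h4 : (1 : ℝ) ≤ √2 := by
    rw [Real.one_le_sqrt]
    norm_num
  have h5 : (1 : ℝ) ≤ √(2 + x) := by
    rw [Real.one_le_sqrt]
    linarith
  have hPpos : 0 ≤ P := by
    have h6 : x ^ 2 ≤ 1 := by nlinarith
    have h7 : 0 ≤ √2 / 4 * x := by positivity
    have h8 : 0 ≤ √2 / 128 * x ^ 3 := by positivity
    have h9 : √2 / 32 * x ^ 2 ≤ √2 := by nlinarith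
    linarith
  have h6 : P ^ 2 = 2 + x + x ^ 4 * (5 / 512 - x / 1024 + x ^ 2 / 8192) := by
    have : P ^ 2 = √2 ^ 2 * (1 + x / 4 - x ^ 2 / 32 + x ^ 3 / 128) ^ 2 := by
      rw [hP]; ring
    rw [this, h2]
    ring
  have h7 : (√(2 + x) - P) * (√(2 + x) + P) = -(x ^ 4 * (5 / 512 - x / 1024 + x ^ 2 / 8192)) := by
    have : (√(2 + x) - P) * (√(2 + x) + P) = √(2 + x) ^ 2 - P ^ 2 := by ring
    rw [this, h3, h6]
    ring
  rw [h1, one_mul, norm_pow, Real.norm_eq_abs, Real.norm_eq_abs, abs_of_pos hx0]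
  have h8 : |√(2 + x) - P| * (√(2 + x) + P) = x ^ 4 * (5 / 512 - x / 1024 + x ^ 2 / 8192) := by
    have h9 : |(√(2 + x) - P) * (√(2 + x) + P)| = |√(2 + x) - P| * (√(2 + x) + P) := by
      rw [abs_mul, abs_of_nonneg (by linarith : 0 ≤ √(2 + x) + P)]
    rw [← h9, h7, abs_neg, abs_of_nonneg]
    have : 0 ≤ 5 / 512 - x / 1024 + x ^ 2 / 8192 := by nlinarith
    positivity
  have h10 : 5 / 512 - x / 1024 + x ^ 2 / 8192 ≤ 1 := by nlinarith
  have h11 : x ^ 4 * (5 / 512 - x / 1024 + x ^ 2 / 8192) ≤ x ^ 4 :=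
    mul_le_of_le_one_right (by positivity) h10
  have h12 := abs_nonneg (√(2 + x) - P)
  nlinarith

/-- the expansion of `√(2+x)` -/
lemma sqrt_tay : ∃ c, Tay c (fun x => √(2 + x)) ∧ ∀ j < 4, c j = rC j := by
  have hA : AnalyticAt ℝ (fun x : ℝ => Real.exp (Real.log (2 + x) / 2)) 0 := by
    have h1 : AnalyticAt ℝ (fun x : ℝ => 2 + x) 0 := analyticAt_const.add analyticAt_id
    have h2 : AnalyticAt ℝ (fun x : ℝ => Real.log (2 + x)) 0 := h1.log (by norm_num)
    exact (h2.div_const).rexp'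
  obtain ⟨c, hc⟩ := tay_of_analytic hA
  have hc' : Tay c (fun x => √(2 + x)) := hc.congr fun x hx => by
    rw [Real.sqrt_eq_rpow, Real.rpow_def_of_pos (by linarith)]
    congr 1
    ring
  exact ⟨c, hc', hc'.coeff_eq sqrt_approx⟩

/-- the expansion of `(1+x)^(1/x)` -/
lemma e_tay : ∃ c, Tay c (fun x => Real.exp (Real.log (1 + x) / x)) ∧ ∀ j < 4, c j = eC j := by
  have hA : AnalyticAt ℝ (fun x : ℝ => Real.exp (dslope (fun x => Real.log (1 + x)) 0 x)) 0 := by
    have h1 : AnalyticAt ℝ (fun x : ℝ => 1 + x) 0 := analyticAt_const.add analyticAt_id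
    have h2 : AnalyticAt ℝ (fun x : ℝ => Real.log (1 + x)) 0 := h1.log (by norm_num)
    have h3 : AnalyticAt ℝ (dslope (fun x : ℝ => Real.log (1 + x)) 0) 0 := by
      obtain ⟨p, hp⟩ := h2
      exact ⟨_, hp.has_fpower_series_dslope_fslope⟩
    exact h3.rexp'
  obtain ⟨c, hc⟩ := tay_of_analytic hA
  have hc' : Tay c (fun x => Real.exp (Real.log (1 + x) / x)) := hc.congr fun x hx => by
    rw [dslope_of_ne _ hx.ne', slope_def_field]
    simp
  exact ⟨c, hc', hc'.coeff_eq e_approx⟩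

end Pool.Agent.Q270.SQ
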