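import Pool.Agent.Q270.SQ.Exp
import Pool.Agent.Q270.SP.Tup2

/-!
# Joint normality of sequences with asymptotic expansions, for almost all indices
-/

set_option autoImplicit false

namespace Pool.Agent.Q270.SQ

open Finset Real Filter MeasureTheory Asymptotics Topology ProbabilityTheory
open Pool.Agent.H469R2.NK (e norm_e e_add)
open Pool.Agent.Y933.KD (wd)
open Pool.Agent.Y951.TU (hat lin lin_apply unif unif_prob integral_unif exists_ge exists_pos_le tw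
  mnT cvT prod_pos')
open Pool.Agent.Q270.SP (GoodT normal_one clt_T)

variable {r : ℕ}

/-- the vector with the entries `ω_j g_j(m) + P_j(m)` -/
noncomputable def VecE (g : Fin r → ℕ → ℝ) (ω : Fin r → ℝ) (P : Fin r → Polynomial ℝ) (m : ℕ) :
    Fin r → ℝ := fun j => ω j * g j m + (P j).eval (m : ℝ)

/-- the measures -/
def SE (g : Fin r → ℕ → ℝ) (d : ℕ) (W0 W : ℝ) (I : ℕ → Finset ℕ) (M : ℕ) :
    Set (Measure (Fin r → ℝ)) :=
  {μ | (I M).Nonempty ∧ ∃ (ω : Fin r → ℝ) (P : Fin r → Polynomial ℝ),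
    (∀ j, (M : ℝ) ^ W0 ≤ |ω j| ∧ |ω j| ≤ (M : ℝ) ^ W) ∧ (∀ j, (P j).natDegree ≤ d) ∧
      μ = unif (I M) (VecE g ω P)}

lemma SE_prob (g : Fin r → ℕ → ℝ) (d : ℕ) (W0 W : ℝ) (I : ℕ → Finset ℕ) (M : ℕ) (_hM : 1 ≤ M)
    (μ : Measure (Fin r → ℝ)) (hμ : μ ∈ SE g d W0 W I M) : IsProbabilityMeasure μ := by
  obtain ⟨hne, ω, P, _, _, rfl⟩ := hμ
  exact unif_prob hne _

variable {α : ℕ → ℝ} {c : Fin r → ℕ → ℝ} {g : Fin r → ℕ → ℝ}

theorem good_E (hα : StrictAnti α) (hαt : Tendsto α atTop atBot)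
    (hg : ∀ i, Expands α (c i) (g i)) {J0 : ℕ}
    (hJ0 : ∀ x : Fin r → ℝ, (∀ j < J0, (∀ n : ℕ, α j ≠ n) → ∑ i, x i * c i j = 0) → x = 0)
    {κ : ℝ} (hκ : ∀ j < J0, -κ ≤ α j) {I : ℕ → Finset ℕ} (hI : GoodI I) (d : ℕ) (δ W : ℝ)
    (hδ : 0 < δ) : GoodT r (SE g d (κ + δ) W I) := by
  intro A hA
  obtain ⟨τ, hτ, x₀, hx₀⟩ := phase_sum hα hαt hg hJ0 hκ hI d δ (A + |W|) hδ (by positivity)
  obtain ⟨M3, hM3⟩ := eventually_atTop.1 (hI.2.1 (τ / 2) (by positivity))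
  refine ⟨τ / 2, by positivity, max (max x₀ M3) 1, ?_⟩
  intro M hM μ hμ l hl hlA
  obtain ⟨-, ω, P, hω, hP, rfl⟩ := hμ
  have hMx : x₀ ≤ M := le_of_max_le_left (le_of_max_le_left hM)
  have hMM3 : M3 ≤ M := le_of_max_le_right (le_of_max_le_left hM)
  have hM1' : 1 ≤ M := le_of_max_le_right hM
  have hMR : (1 : ℝ) ≤ M := by exact_mod_cast hM1'
  have hMp : (0 : ℝ) < M := by linarith
  have hc := hM3 M hMM3
  have key := hx₀ M hMx (fun j => l j * ω j) (by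
    obtain ⟨j, hj⟩ : ∃ j, l j ≠ 0 := by
      by_contra hcon
      push Not at hcon
      exact hl (funext hcon)
    refine ⟨j, ?_⟩
    rw [abs_mul]
    have h1 : (1 : ℝ) ≤ |(l j : ℝ)| := by exact_mod_cast Int.one_le_abs hj
    have h2 := (hω j).1
    have h3 : (0 : ℝ) < (M : ℝ) ^ (κ + δ) := by positivity
    nlinarith) (by
    intro j
    rw [abs_mul, Real.rpow_add hMp]
    refine mul_le_mul (hlA j) ((hω j).2.trans ?_) (abs_nonneg _) (by positivity)
    exact Real.rpow_le_rpow_of_exponent_le hMR (le_abs_self W))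
    (∑ j, Polynomial.C (l j : ℝ) * P j) (by
      refine Polynomial.natDegree_sum_le_of_forall_le _ _ fun j _ => ?_
      exact (Polynomial.natDegree_C_mul_le _ _).trans (hP j))
  unfold hat
  rw [integral_unif]
  have h1 : ∀ m : ℕ, Pool.Agent.Y933.KD.e (lin r l (VecE g ω P m)) =
      e (∑ j, l j * ω j * g j m + (∑ j, Polynomial.C (l j : ℝ) * P j).eval (m : ℝ)) := by
    intro m
    have h2 : lin r l (VecE g ω P m) =
        ∑ j, l j * ω j * g j m + (∑ j, Polynomial.C (l j : ℝ) * P j).eval (m : ℝ) := by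
      rw [lin_apply]
      unfold VecE
      rw [Polynomial.eval_finsetSum, ← sum_add_distrib]
      refine sum_congr rfl fun j _ => ?_
      simp only [Polynomial.eval_mul, Polynomial.eval_C]
      ring
    rw [h2]
    rfl
  rw [sum_congr rfl fun m _ => h1 m, norm_mul]
  have hc0 : 0 < (M : ℝ) ^ (1 - τ / 2) := by positivity
  have h4 : ‖(1 / ((I M).card : ℂ))‖ ≤ 1 / (M : ℝ) ^ (1 - τ / 2) := by
    rw [norm_div, norm_one, Complex.norm_natCast]
    exact one_div_le_one_div_of_le hc0 hc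
  calc ‖(1 / ((I M).card : ℂ))‖ *
        ‖∑ m ∈ I M, e (∑ j, l j * ω j * g j m +
          (∑ j, Polynomial.C (l j : ℝ) * P j).eval (m : ℝ))‖
      ≤ 1 / (M : ℝ) ^ (1 - τ / 2) * (M : ℝ) ^ (1 - τ) := by gcongr
    _ = (M : ℝ) ^ (-(τ / 2)) := by
        rw [one_div, ← Real.rpow_neg hMp.le, ← Real.rpow_add hMp]
        congr 1
        ring

/-- shifting the words -/
lemma tw_shift (b : Fin r → ℕ) (k : ℕ) (K s : Fin r → ℕ) (ω : Fin r → ℝ)
    (P : Fin r → Polynomial ℝ) (m : ℕ) :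
    tw b k s (VecE g (fun j => (b j : ℝ) ^ K j * ω j)
      (fun j => Polynomial.C ((b j : ℝ) ^ K j) * P j) m) =
    tw b k (fun j => K j + s j) (VecE g ω P m) := by
  funext j
  unfold tw VecE wd
  simp only [Polynomial.eval_mul, Polynomial.eval_C]
  congr 3
  rw [pow_add]
  ring

open Classical in
/-- joint normality in all bases at once, from the places where `|ω_j| b_j ^ s_j` exceeds `N ^ (κ+δ)` -/
theorem normal_E (hr : 1 ≤ r) (hα : StrictAnti α) (hαt : Tendsto α atTop atBot)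
    (hg : ∀ i, Expands α (c i) (g i)) {J0 : ℕ}
    (hJ0 : ∀ x : Fin r → ℝ, (∀ j < J0, (∀ n : ℕ, α j ≠ n) → ∑ i, x i * c i j = 0) → x = 0)
    {κ : ℝ} (hκ : ∀ j < J0, -κ ≤ α j) {I : ℕ → Finset ℕ} (hI : GoodI I) (d : ℕ) (δ W A : ℝ)
    (hδ : 0 < δ) (B w : ℕ) (ε : ℝ) (hε : 0 < ε) :
    ∃ c : ℝ, 0 < c ∧ ∃ M₀ : ℕ, ∀ M : ℕ, M₀ ≤ M → (I M).Nonempty ∧
      ∀ (ω : Fin r → ℝ) (P : Fin r → Polynomial ℝ),
      (∀ j, (M : ℝ) ^ (-W) ≤ |ω j| ∧ |ω j| ≤ (M : ℝ) ^ W) → (∀ j, (P j).natDegree ≤ d) →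
      (((I M).filter (fun m => ¬ ∀ b : Fin r → ℕ, (∀ j, 2 ≤ b j ∧ b j ≤ B) →
        ∀ (k : ℕ) (D s : Fin r → ℕ) (N : ℕ), 1 ≤ k → k ≤ w → (∀ j, D j < b j ^ k) →
        (∀ j, (M : ℝ) ^ (κ + δ) ≤ |ω j| * (b j : ℝ) ^ s j) → (∀ j, (s j : ℝ) + N ≤ A * log M) →
        |(((range N).filter (fun i => tw b k (fun j => s j + i) (VecE g ω P m) = D)).card : ℝ) -
          N / ((∏ j, b j : ℕ) : ℝ) ^ k| ≤ ε * log M)).card : ℝ) ≤
      (I M).card * (M : ℝ) ^ (-c) := by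
  set W' : ℝ := max |W| (κ + δ + 1) with hW'
  have hgood := good_E hα hαt hg hJ0 hκ hI d δ W' hδ
  have hprob := SE_prob g d (κ + δ) W' I
  set Bs : Finset (Fin r → ℕ) := Fintype.piFinset fun _ : Fin r => Finset.Icc 2 B with hBs
  have hmem : ∀ b : Fin r → ℕ, b ∈ Bs ↔ ∀ j, 2 ≤ b j ∧ b j ≤ B := fun b => by
    rw [hBs, Fintype.mem_piFinset]
    simp only [Finset.mem_Icc]
  have hone : ∀ b : Fin r → ℕ, ∃ c : ℝ, 0 < c ∧ ∃ M₀ : ℕ, b ∈ Bs → ∀ M : ℕ, M₀ ≤ M →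
      ∀ (T : Finset ℕ) (x : ℕ → Fin r → ℝ), T.Nonempty → unif T x ∈ SE g d (κ + δ) W' I M →
      ((T.filter (fun m => ¬ ∀ (k : ℕ) (D s : Fin r → ℕ) (N : ℕ), 1 ≤ k → k ≤ w →
        (∀ j, D j < b j ^ k) → (∀ j, (s j : ℝ) + N ≤ |A| * log M) →
        |(((range N).filter (fun i => tw b k (fun j => s j + i) (x m) = D)).card : ℝ) -
          N / ((∏ j, b j : ℕ) : ℝ) ^ k| ≤ ε * log M)).card : ℝ) ≤ T.card * (M : ℝ) ^ (-c) := by
    intro b
    by_cases hb : b ∈ Bs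
    · obtain ⟨c, hc, M0, h⟩ := normal_one (ι := ℕ) hprob hgood hr
        (fun j => ((hmem b).1 hb j).1) w |A| ε hε
      exact ⟨c, hc, M0, fun _ => h⟩
    · exact ⟨1, one_pos, 0, fun h => absurd h hb⟩
  choose c hc M0 h using hone
  obtain ⟨Mn, hMn⟩ := eventually_atTop.1 ((hI.2.1 (1 / 2) (by norm_num)).and
    (eventually_ge_atTop 1))
  have hne : ∀ N : ℕ, Mn ≤ N → (I N).Nonempty := fun N hN => by
    obtain ⟨h1, h2⟩ := hMn N hN
    rw [← Finset.card_pos]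
    have h3 : (0 : ℝ) < (N : ℝ) ^ (1 - (1 / 2 : ℝ)) := by
      have : (0 : ℝ) < N := by exact_mod_cast h2
      positivity
    exact_mod_cast h3.trans_le h1
  -- a common exponent
  obtain ⟨c0, hc0, hcmin⟩ : ∃ c0 : ℝ, 0 < c0 ∧ ∀ b ∈ Bs, c0 ≤ c b := by
    rcases Bs.eq_empty_or_nonempty with hBe | hBne
    · exact ⟨1, one_pos, fun b hb => absurd hb (by rw [hBe]; exact Finset.notMem_empty _)⟩
    · obtain ⟨b0, _, hb0⟩ := Finset.exists_min_image Bs c hBne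
      exact ⟨c b0, hc b0, hb0⟩
  obtain ⟨M1, hM1⟩ := eventually_atTop.1
    (Pool.Agent.Y933.KD.VdC.ev_le (Bs.card : ℝ) (c0 / 2) (by positivity))
  refine ⟨c0 / 2, by positivity, max (max (Bs.sup M0) Mn) (max M1 (max B 1)), ?_⟩
  intro M hM
  have hMs : Bs.sup M0 ≤ M := le_of_max_le_left (le_of_max_le_left hM)
  have hMn' : Mn ≤ M := le_of_max_le_right (le_of_max_le_left hM)
  have hMM1 : M1 ≤ M := le_of_max_le_left (le_of_max_le_right hM)
  have hMB : B ≤ M := le_of_max_le_left (le_of_max_le_right (le_of_max_le_right hM))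
  have hM1' : 1 ≤ M := le_of_max_le_right (le_of_max_le_right (le_of_max_le_right hM))
  have hMR : (1 : ℝ) ≤ M := by exact_mod_cast hM1'
  have hMp : (0 : ℝ) < M := by linarith
  have hMBR : (B : ℝ) ≤ M := by exact_mod_cast hMB
  have hlog0 : 0 ≤ log (M : ℝ) := Real.log_nonneg hMR
  refine ⟨hne M hMn', fun ω P hω hP => ?_⟩
  have hωpos : ∀ j, 0 < |ω j| := fun j => lt_of_lt_of_le (by positivity) (hω j).1
  -- the first admissible places
  have hex : ∀ (b : Fin r → ℕ) (j : Fin r), ∃ K : ℕ, 2 ≤ b j →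
      (M : ℝ) ^ (κ + δ) ≤ |ω j| * (b j : ℝ) ^ K ∧
      (∀ s : ℕ, (M : ℝ) ^ (κ + δ) ≤ |ω j| * (b j : ℝ) ^ s → K ≤ s) ∧
      (b j ≤ B → |ω j| * (b j : ℝ) ^ K ≤ (M : ℝ) ^ W') := by
    intro b j
    by_cases hbj : 2 ≤ b j
    swap
    · exact ⟨0, fun h => absurd h hbj⟩
    have hbR : (2 : ℝ) ≤ b j := by exact_mod_cast hbj
    have hex1 : ∃ K : ℕ, (M : ℝ) ^ (κ + δ) ≤ |ω j| * (b j : ℝ) ^ K := by
      obtain ⟨n, hn⟩ := pow_unbounded_of_one_lt ((M : ℝ) ^ (κ + δ) / |ω j|)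
        (show (1 : ℝ) < b j by linarith)
      refine ⟨n, ?_⟩
      rw [div_lt_iff₀ (hωpos j)] at hn
      rw [mul_comm]
      exact hn.le
    refine ⟨Nat.find hex1, fun _ => ⟨Nat.find_spec hex1, fun s hs => Nat.find_min' hex1 hs, ?_⟩⟩
    intro hbB
    have hbBR : (b j : ℝ) ≤ M := le_trans (by exact_mod_cast hbB) hMBR
    rcases Nat.eq_zero_or_pos (Nat.find hex1) with h0 | h0
    · rw [h0, pow_zero, mul_one]
      refine (hω j).2.trans (Real.rpow_le_rpow_of_exponent_le hMR ?_)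
      exact (le_abs_self W).trans (le_max_left _ _)
    · have h1 := Nat.find_min hex1 (m := Nat.find hex1 - 1) (by omega)
      push Not at h1
      have h2 : (b j : ℝ) ^ Nat.find hex1 = (b j : ℝ) ^ (Nat.find hex1 - 1) * b j := by
        rw [← pow_succ]
        congr 1
        omega
      rw [h2, ← mul_assoc]
      calc |ω j| * (b j : ℝ) ^ (Nat.find hex1 - 1) * b j ≤ (M : ℝ) ^ (κ + δ) * M := by
            gcongr
        _ = (M : ℝ) ^ (κ + δ + 1) := by rw [Real.rpow_add hMp (κ + δ) 1, Real.rpow_one]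
        _ ≤ _ := Real.rpow_le_rpow_of_exponent_le hMR (le_max_right _ _)
  choose K hK using hex
  set X : (Fin r → ℕ) → ℕ → Fin r → ℝ := fun b => VecE g (fun j => (b j : ℝ) ^ K b j * ω j)
    (fun j => Polynomial.C ((b j : ℝ) ^ K b j) * P j) with hX
  have hXS : ∀ b ∈ Bs, unif (I M) (X b) ∈ SE g d (κ + δ) W' I M := by
    intro b hb
    refine ⟨hne M hMn', _, _, fun j => ?_, fun j => ?_, rfl⟩
    · have h1 := hK b j ((hmem b).1 hb j).1
      rw [abs_mul, abs_of_nonneg (by positivity : (0 : ℝ) ≤ (b j : ℝ) ^ K b j), mul_comm]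
      exact ⟨h1.1, h1.2.2 ((hmem b).1 hb j).2⟩
    · exact (Polynomial.natDegree_C_mul_le _ _).trans (hP j)
  have hsub : (I M).filter (fun m => ¬ ∀ b : Fin r → ℕ, (∀ j, 2 ≤ b j ∧ b j ≤ B) →
      ∀ (k : ℕ) (D s : Fin r → ℕ) (N : ℕ), 1 ≤ k → k ≤ w → (∀ j, D j < b j ^ k) →
      (∀ j, (M : ℝ) ^ (κ + δ) ≤ |ω j| * (b j : ℝ) ^ s j) → (∀ j, (s j : ℝ) + N ≤ A * log M) →
      |(((range N).filter (fun i => tw b k (fun j => s j + i) (VecE g ω P m) = D)).card : ℝ) -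
        N / ((∏ j, b j : ℕ) : ℝ) ^ k| ≤ ε * log M) ⊆
      Bs.biUnion fun b => (I M).filter (fun m => ¬ ∀ (k : ℕ) (D s : Fin r → ℕ) (N : ℕ), 1 ≤ k →
        k ≤ w → (∀ j, D j < b j ^ k) → (∀ j, (s j : ℝ) + N ≤ |A| * log M) →
        |(((range N).filter (fun i => tw b k (fun j => s j + i) (X b m) = D)).card : ℝ) -
          N / ((∏ j, b j : ℕ) : ℝ) ^ k| ≤ ε * log M) := by
    intro m hm
    rw [mem_filter] at hm
    obtain ⟨hmT, hm⟩ := hm
    by_contra hcon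
    apply hm
    intro b hb k D s N hk hkw hD hs hsN
    by_contra h3
    apply hcon
    rw [mem_biUnion]
    refine ⟨b, (hmem b).2 hb, mem_filter.2 ⟨hmT, fun h4 => h3 ?_⟩⟩
    have hKs : ∀ j, K b j ≤ s j := fun j => (hK b j (hb j).1).2.1 (s j) (hs j)
    have h5 := h4 k D (fun j => s j - K b j) N hk hkw hD (fun j => by
      have h6 : ((s j - K b j : ℕ) : ℝ) ≤ s j := by exact_mod_cast Nat.sub_le _ _
      have h7 := hsN j
      have h8 : A * log M ≤ |A| * log M := mul_le_mul_of_nonneg_right (le_abs_self A) hlog0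
      linarith)
    have h6 : ∀ i, tw b k (fun j => s j - K b j + i) (X b m) =
        tw b k (fun j => s j + i) (VecE g ω P m) := by
      intro i
      rw [hX, tw_shift]
      congr 1
      funext j
      have := hKs j
      omega
    simp only [h6] at h5
    exact h5
  have h2 : ∀ b ∈ Bs, (((I M).filter (fun m => ¬ ∀ (k : ℕ) (D s : Fin r → ℕ) (N : ℕ), 1 ≤ k →
        k ≤ w → (∀ j, D j < b j ^ k) → (∀ j, (s j : ℝ) + N ≤ |A| * log M) →
        |(((range N).filter (fun i => tw b k (fun j => s j + i) (X b m) = D)).card : ℝ) -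
          N / ((∏ j, b j : ℕ) : ℝ) ^ k| ≤ ε * log M)).card : ℝ) ≤
      (I M).card * (M : ℝ) ^ (-c0) := by
    intro b hb
    refine (h b hb M ((Finset.le_sup hb).trans hMs) (I M) (X b) (hne M hMn') (hXS b hb)).trans ?_
    apply mul_le_mul_of_nonneg_left _ (Nat.cast_nonneg _)
    exact Real.rpow_le_rpow_of_exponent_le hMR (by linarith [hcmin b hb])
  refine (Nat.cast_le.2 (card_le_card hsub)).trans ((Nat.cast_le.2 card_biUnion_le).trans ?_)
  rw [Nat.cast_sum]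
  refine (sum_le_sum h2).trans ?_
  rw [sum_const, nsmul_eq_mul]
  calc (Bs.card : ℝ) * ((I M).card * (M : ℝ) ^ (-c0)) ≤
        (M : ℝ) ^ (c0 / 2) * ((I M).card * (M : ℝ) ^ (-c0)) := by
        have := hM1 M hMM1
        gcongr
    _ = (I M).card * ((M : ℝ) ^ (c0 / 2) * (M : ℝ) ^ (-c0)) := by ring
    _ = (I M).card * (M : ℝ) ^ (-(c0 / 2)) := by
        rw [← Real.rpow_add hMp]
        congr 2
        ring

open Classical in
/-- the central limit theorem -/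
theorem clt_E (hr : 1 ≤ r) (hα : StrictAnti α) (hαt : Tendsto α atTop atBot)
    (hg : ∀ i, Expands α (c i) (g i)) {J0 : ℕ}
    (hJ0 : ∀ x : Fin r → ℝ, (∀ j < J0, (∀ n : ℕ, α j ≠ n) → ∑ i, x i * c i j = 0) → x = 0)
    {κ : ℝ} (hκ : ∀ j < J0, -κ ≤ α j) {I : ℕ → Finset ℕ} (hI : GoodI I) (d : ℕ) (δ W A : ℝ)
    (hδ : 0 < δ) {b : Fin r → ℕ} (hb : ∀ j, 1 ≤ b j) {w : ℕ} (hw : 1 ≤ w)
    (F : (Fin r → ℕ) → ℝ)
    (hF : 0 < cvT b w F 0 + 2 * ∑ h ∈ Finset.Ico 1 w, cvT b w F h)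
    (ω : ℕ → Fin r → ℝ) (P : ℕ → Fin r → Polynomial ℝ) (s : ℕ → Fin r → ℕ) (N : ℕ → ℕ)
    (hP : ∀ M j, (P M j).natDegree ≤ d) (hωW : ∀ M j, |ω M j| ≤ (M : ℝ) ^ W)
    (hωs : ∀ᶠ M : ℕ in atTop, ∀ j, (M : ℝ) ^ (κ + δ) ≤ |ω M j| * (b j : ℝ) ^ s M j)
    (hN : Tendsto N atTop atTop)
    (hsN : ∀ᶠ M : ℕ in atTop, ∀ j, (s M j : ℝ) + N M ≤ A * log M) (a : ℝ) :
    Tendsto (fun M : ℕ => (((I M).filter (fun m =>
      ∑ i ∈ range (N M), F (tw b w (fun j => s M j + i) (VecE g (ω M) (P M) m)) - N M * mnT b w F ≤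
        a * √((cvT b w F 0 + 2 * ∑ h ∈ Finset.Ico 1 w, cvT b w F h) * N M))).card : ℝ) /
        (I M).card) atTop
      (𝓝 ((gaussianReal 0 1).real (Set.Iic a))) := by
  obtain ⟨B, hB⟩ := exists_ge (fun j => (b j : ℝ))
  set B1 : ℝ := max B 1 with hB1
  have hbB : ∀ j, (b j : ℝ) ≤ B1 := fun j => (hB j).trans (le_max_left _ _)
  have hB1' : 1 ≤ B1 := le_max_right _ _
  set W' : ℝ := W + |A| * log B1 with hW'
  have hgood := good_E hα hαt hg hJ0 hκ hI d δ W' hδ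
  have hprob := SE_prob g d (κ + δ) W' I
  have key := clt_T (ι := ℕ) hprob hgood hb hw F hF A I
    (fun M => VecE g (fun j => (b j : ℝ) ^ s M j * ω M j)
      (fun j => Polynomial.C ((b j : ℝ) ^ s M j) * P M j)) (by
      filter_upwards [hI.2.1 (1 / 2) (by norm_num), eventually_ge_atTop 1, hωs, hsN]
        with M h1 h2 h3 h4
      have hMR : (1 : ℝ) ≤ M := by exact_mod_cast h2
      have hMp : (0 : ℝ) < M := by linarith
      have hlog0 : 0 ≤ log (M : ℝ) := Real.log_nonneg hMR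
      have hne : (I M).Nonempty := by
        rw [← Finset.card_pos]
        have h3 : (0 : ℝ) < (M : ℝ) ^ (1 - (1 / 2 : ℝ)) := by positivity
        exact_mod_cast h3.trans_le h1
      refine ⟨hne, hne, _, _, fun j => ?_, fun j => ?_, rfl⟩
      · rw [abs_mul, abs_of_nonneg (by positivity : (0 : ℝ) ≤ (b j : ℝ) ^ s M j)]
        constructor
        · rw [mul_comm]; exact h3 j
        · rw [hW', Real.rpow_add hMp, mul_comm]
          apply mul_le_mul (hωW M j) _ (by positivity) (by positivity)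
          calc (b j : ℝ) ^ s M j ≤ B1 ^ s M j := pow_le_pow_left₀ (Nat.cast_nonneg _) (hbB j) _
            _ = B1 ^ (s M j : ℝ) := (Real.rpow_natCast _ _).symm
            _ ≤ B1 ^ (|A| * log M) := by
                apply Real.rpow_le_rpow_of_exponent_le hB1'
                have h5 := h4 j
                have h6 : (0 : ℝ) ≤ N M := Nat.cast_nonneg _
                have h8 : A * log M ≤ |A| * log M :=
                  mul_le_mul_of_nonneg_right (le_abs_self A) hlog0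
                linarith
            _ = (M : ℝ) ^ (|A| * log B1) := by
                rw [Real.rpow_def_of_pos (by linarith), Real.rpow_def_of_pos hMp]
                congr 1
                ring
      · exact (Polynomial.natDegree_C_mul_le _ _).trans (hP M j))
    (fun _ _ => 0) N hr hN (by
      filter_upwards [hsN] with M h4 j
      have h5 := h4 j
      have h6 : (0 : ℝ) ≤ s M j := Nat.cast_nonneg _
      push_cast
      linarith) a
  refine key.congr fun M => ?_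
  have h1 : ∀ m i, tw b w (fun _ => 0 + i) (VecE g (fun j => (b j : ℝ) ^ s M j * ω M j)
      (fun j => Polynomial.C ((b j : ℝ) ^ s M j) * P M j) m) =
      tw b w (fun j => s M j + i) (VecE g (ω M) (P M) m) := by
    intro m i
    rw [tw_shift]
    congr 1
    funext j
    omega
  simp only [h1]

end Pool.Agent.Q270.SQ
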