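import Pool.Agent.Q270.SQ.VauFam
import Pool.Agent.Q270.SP.PrimeFam

/-!
# Sums over the integers and over the primes of a residue class, arbitrary real exponents
-/

set_option autoImplicit false

namespace Pool.Agent.Q270.SQ

open Finset Real Filter MeasureTheory
open Pool.Agent.H469R2.NK (e norm_e e_add conj_e)
open Pool.Agent.TH915.PW (prime_bound abel_bound card_primes class_bound)
open Pool.Agent.Y951.TU (hat lin lin_apply unif unif_prob integral_unif exists_ge exists_pos_le)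
open Pool.Agent.Q270.SP (Fp PrA)

/-- from dyadic blocks to an initial interval -/
theorem dyadic (κ τ μ : ℝ) (hκ1 : κ ≤ 1 / 2) (hμ : 0 < μ) (hμκ : 2 * μ ≤ κ)
    (hμτ : 4 * μ ≤ τ) (hτ1 : τ ≤ 1 / 4) :
    ∃ x₀ : ℕ, ∀ X : ℕ, x₀ ≤ X → ∀ z : ℕ → ℂ, (∀ n, ‖z n‖ ≤ 1) →
      (∀ K N : ℕ, (X : ℝ) ^ (1 - κ) ≤ 2 * K → K ≤ N → N ≤ 2 * K → N ≤ X →
        ‖∑ n ∈ Ioc K N, z n‖ ≤ (K : ℝ) ^ (1 - τ)) →
      ‖∑ n ∈ Ioc 0 X, z n‖ ≤ (X : ℝ) ^ (1 - μ) := by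
  have hκ0 : 0 < κ := by linarith
  have hτ : 0 < τ := by linarith
  have hev : ∀ᶠ x : ℝ in atTop, 4 ≤ x ^ (1 / 2 : ℝ) ∧ 8 ≤ x ^ μ ∧ 1 ≤ x := by
    filter_upwards [(tendsto_rpow_atTop (show (0 : ℝ) < 1 / 2 by norm_num)).eventually_ge_atTop 4,
      (tendsto_rpow_atTop hμ).eventually_ge_atTop 8,
      eventually_ge_atTop (1 : ℝ)] with x a1 a2 a3
    exact ⟨a1, a2, a3⟩
  obtain ⟨x₁, hx₁⟩ := eventually_atTop.mp hev
  refine ⟨⌈x₁⌉₊, ?_⟩
  intro X hX z hz hblock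
  obtain ⟨hX1', hX2, hX3⟩ := hx₁ X (Nat.ceil_le.mp hX)
  have hX0 : (0 : ℝ) < X := by linarith
  set H : ℝ := (X : ℝ) ^ (1 - κ) with hH
  have hX1 : 4 ≤ H := hX1'.trans (Real.rpow_le_rpow_of_exponent_le hX3 (by linarith))
  set Z : ℝ := (X : ℝ) ^ (-(2 * μ)) with hZ
  have hZ0 : 0 < Z := by positivity
  have hH0 : 0 < H := by linarith
  have claim : ∀ N : ℕ, N ≤ X → ‖∑ n ∈ Ioc 0 N, z n‖ ≤ H + 6 * (N * Z) := by
    intro N
    induction N using Nat.strong_induction_on with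
    | _ N ih =>
      intro hNX
      rcases le_or_gt (N : ℝ) H with hNH | hNH
      · calc ‖∑ n ∈ Ioc 0 N, z n‖ ≤ ∑ n ∈ Ioc 0 N, (1 : ℝ) :=
              (norm_sum_le _ _).trans (sum_le_sum fun n _ => hz n)
          _ = N := by simp
          _ ≤ H := hNH
          _ ≤ _ := by
              have : 0 ≤ 6 * (N * Z) := by positivity
              linarith
      · have hN4 : (4 : ℝ) < N := by linarith
        have hN4n : 4 < N := by exact_mod_cast hN4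
        set K : ℕ := (N + 1) / 2 with hK
        have hK1 : N ≤ 2 * K := by omega
        have hK2 : K < N := by omega
        have hK3 : 3 * K ≤ 2 * N := by omega
        have hKR1 : (N : ℝ) ≤ 2 * K := by exact_mod_cast hK1
        have hKR3 : 3 * (K : ℝ) ≤ 2 * N := by exact_mod_cast hK3
        have hKH : H ≤ 2 * K := by linarith
        have hK0 : (0 : ℝ) < K := by linarith
        have hb := hblock K N hKH hK2.le hK1 hNX
        have hK' : (K : ℝ) ^ (1 - τ) ≤ 2 * (K * Z) := by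
          have h1 : (K : ℝ) ^ (-τ) ≤ 2 * Z := by
            have h2 : (2 * (K : ℝ)) ^ (-τ) ≤ H ^ (-τ) :=
              Real.rpow_le_rpow_of_nonpos hH0 hKH (by linarith)
            have h3 : H ^ (-τ) ≤ Z := by
              rw [hH, hZ, ← Real.rpow_mul hX0.le]
              exact Real.rpow_le_rpow_of_exponent_le hX3 (by nlinarith)
            replace h2 := h2.trans h3
            rw [Real.mul_rpow (by norm_num) hK0.le] at h2
            have h4 : (1 : ℝ) / 2 ≤ (2 : ℝ) ^ (-τ) := by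
              calc (1 : ℝ) / 2 = (2 : ℝ) ^ (-1 : ℝ) := by rw [Real.rpow_neg_one]; norm_num
                _ ≤ _ := Real.rpow_le_rpow_of_exponent_le (by norm_num) (by linarith)
            have h6 : 0 < (K : ℝ) ^ (-τ) := Real.rpow_pos_of_pos hK0 _
            nlinarith
          rw [sub_eq_add_neg, Real.rpow_add hK0, Real.rpow_one]
          nlinarith
        rw [← Finset.sum_Ioc_consecutive _ (Nat.zero_le K) hK2.le]
        refine (norm_add_le _ _).trans ?_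
        have h5 := ih K hK2 (hK2.le.trans hNX)
        have h6 : (K : ℝ) * Z ≤ 2 / 3 * (N * Z) := by nlinarith
        have h7 : 0 ≤ (N : ℝ) * Z := by positivity
        linarith
  have h1 := claim X le_rfl
  refine h1.trans ?_
  have h2 : (X : ℝ) * Z = (X : ℝ) ^ (1 - 2 * μ) := by
    rw [hZ, sub_eq_add_neg, Real.rpow_add hX0, Real.rpow_one]
  have h3 : H ≤ (X : ℝ) ^ (1 - 2 * μ) := Real.rpow_le_rpow_of_exponent_le hX3 (by linarith)
  calc H + 6 * (X * Z) ≤ 8 * (X : ℝ) ^ (1 - 2 * μ) := by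
        rw [h2]
        have : 0 < (X : ℝ) ^ (1 - 2 * μ) := by positivity
        linarith
    _ ≤ (X : ℝ) ^ μ * (X : ℝ) ^ (1 - 2 * μ) := by gcongr
    _ = (X : ℝ) ^ (1 - μ) := by
        rw [← Real.rpow_add hX0]
        congr 1
        ring

/-- sizes of the frequencies in the blocks -/
lemma freq_block {r : ℕ} (θ : Fin r → ℝ) (δ A : ℝ) (hδ : 0 < δ) (hA : 0 ≤ A) (x₀ : ℕ) :
    ∃ κ : ℝ, 0 < κ ∧ κ ≤ 1 / 2 ∧ ∃ x₁ : ℕ, ∀ X : ℕ, x₁ ≤ X → ∀ K : ℕ,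
    (X : ℝ) ^ (1 - κ) ≤ 2 * K → K ≤ X → x₀ ≤ K ∧ ∀ (f : ℝ) (j : Fin r),
      ((X : ℝ) ^ δ ≤ |f| * (X : ℝ) ^ θ j → (K : ℝ) ^ (δ / 2) ≤ |f| * (K : ℝ) ^ θ j) ∧
      (|f| * (X : ℝ) ^ θ j ≤ (X : ℝ) ^ A → |f| * (K : ℝ) ^ θ j ≤ (K : ℝ) ^ (3 * (A + δ))) := by
  obtain ⟨Θ0, hΘ0⟩ := exists_ge (fun j => |θ j|)
  set Θ : ℝ := max Θ0 0 with hΘ
  have hΘ1 : ∀ j, |θ j| ≤ Θ := fun j => (hΘ0 j).trans (le_max_left _ _)
  have hΘ2 : 0 ≤ Θ := le_max_right _ _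
  set κ : ℝ := min (1 / 2) (δ / (4 * (Θ + 1))) with hκ
  have hκ0 : 0 < κ := lt_min (by norm_num) (by positivity)
  have hκ1 : κ ≤ 1 / 2 := min_le_left _ _
  have hκΘ : κ * Θ ≤ δ / 4 := by
    have h1 : κ ≤ δ / (4 * (Θ + 1)) := min_le_right _ _
    rw [le_div_iff₀ (by positivity)] at h1
    nlinarith
  have hev : ∀ᶠ x : ℝ in atTop, 2 * (x₀ : ℝ) + 8 ≤ x ^ (1 / 2 : ℝ) ∧ 2 ^ Θ ≤ x ^ (δ / 4) ∧
      1 ≤ x := by
    filter_upwards [(tendsto_rpow_atTop (show (0 : ℝ) < 1 / 2 by norm_num)).eventually_ge_atTop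
      (2 * (x₀ : ℝ) + 8), (tendsto_rpow_atTop (show 0 < δ / 4 by positivity)).eventually_ge_atTop
      (2 ^ Θ), eventually_ge_atTop (1 : ℝ)] with x a1 a2 a3
    exact ⟨a1, a2, a3⟩
  obtain ⟨x₁, hx₁⟩ := eventually_atTop.mp hev
  refine ⟨κ, hκ0, hκ1, ⌈x₁⌉₊, fun X hX K hK hKX => ?_⟩
  obtain ⟨hX1, hX2, hX3⟩ := hx₁ X (Nat.ceil_le.mp hX)
  have hX0 : (0 : ℝ) < X := by linarith
  have hH : (X : ℝ) ^ (1 / 2 : ℝ) ≤ 2 * K :=
    (Real.rpow_le_rpow_of_exponent_le hX3 (by linarith)).trans hK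
  have hx0 : (0 : ℝ) ≤ x₀ := Nat.cast_nonneg _
  have hK4 : (4 : ℝ) ≤ K := by linarith
  have hK0 : (0 : ℝ) < K := by linarith
  have hKXR : (K : ℝ) ≤ X := by exact_mod_cast hKX
  refine ⟨?_, ?_⟩
  · have : (x₀ : ℝ) ≤ K := by linarith
    exact_mod_cast this
  have hXK : (X : ℝ) ≤ 2 * (X : ℝ) ^ κ * K := by
    calc (X : ℝ) = (X : ℝ) ^ κ * (X : ℝ) ^ (1 - κ) := by
          rw [← Real.rpow_add hX0]
          simp
      _ ≤ (X : ℝ) ^ κ * (2 * K) := by gcongr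
      _ = _ := by ring
  have hc1 : 1 ≤ 2 * (X : ℝ) ^ κ := by
    have := Real.one_le_rpow hX3 hκ0.le
    linarith
  have hcΘ : (2 * (X : ℝ) ^ κ) ^ Θ ≤ (X : ℝ) ^ (δ / 2) := by
    rw [Real.mul_rpow (by norm_num) (by positivity), ← Real.rpow_mul hX0.le]
    calc (2 : ℝ) ^ Θ * (X : ℝ) ^ (κ * Θ) ≤ (X : ℝ) ^ (δ / 4) * (X : ℝ) ^ (δ / 4) := by
          apply mul_le_mul hX2 (Real.rpow_le_rpow_of_exponent_le hX3 hκΘ) (by positivity)
            (by positivity)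
      _ = (X : ℝ) ^ (δ / 2) := by
          rw [← Real.rpow_add hX0]
          congr 1
          ring
  have hXK2 : (X : ℝ) ≤ (K : ℝ) ^ (3 : ℝ) := by
    have h1 : (X : ℝ) = (X : ℝ) ^ (1 / 2 : ℝ) * (X : ℝ) ^ (1 / 2 : ℝ) := by
      rw [← Real.rpow_add hX0]; norm_num
    have h2 : (K : ℝ) ^ (3 : ℝ) = K * K * K := by
      rw [show (3 : ℝ) = ((3 : ℕ) : ℝ) by norm_num, Real.rpow_natCast]
      ring
    rw [h1, h2]
    calc (X : ℝ) ^ (1 / 2 : ℝ) * (X : ℝ) ^ (1 / 2 : ℝ) ≤ (2 * K) * (2 * K) := by gcongr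
      _ = 4 * (K * K) := by ring
      _ ≤ K * (K * K) := by gcongr
      _ = K * K * K := by ring
  intro f j
  obtain ⟨g1, g2⟩ := pow_ratio (hΘ1 j) hK0 hc1 hKXR hXK
  constructor
  · intro h
    have h1 : (X : ℝ) ^ δ ≤ (X : ℝ) ^ (δ / 2) * (|f| * (K : ℝ) ^ θ j) := by
      calc (X : ℝ) ^ δ ≤ |f| * (X : ℝ) ^ θ j := h
        _ ≤ |f| * ((2 * (X : ℝ) ^ κ) ^ Θ * (K : ℝ) ^ θ j) := by gcongr
        _ ≤ |f| * ((X : ℝ) ^ (δ / 2) * (K : ℝ) ^ θ j) := by gcongr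
        _ = _ := by ring
    have h2 : (X : ℝ) ^ δ = (X : ℝ) ^ (δ / 2) * (X : ℝ) ^ (δ / 2) := by
      rw [← Real.rpow_add hX0]
      congr 1
      ring
    rw [h2] at h1
    have h3 := le_of_mul_le_mul_left h1 (by positivity)
    exact (Real.rpow_le_rpow hK0.le hKXR (by positivity)).trans h3
  · intro h
    calc |f| * (K : ℝ) ^ θ j ≤ |f| * ((2 * (X : ℝ) ^ κ) ^ Θ * (X : ℝ) ^ θ j) := by gcongr
      _ ≤ |f| * ((X : ℝ) ^ (δ / 2) * (X : ℝ) ^ θ j) := by gcongr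
      _ = (X : ℝ) ^ (δ / 2) * (|f| * (X : ℝ) ^ θ j) := by ring
      _ ≤ (X : ℝ) ^ (δ / 2) * (X : ℝ) ^ A := by gcongr
      _ = (X : ℝ) ^ (A + δ / 2) := by
          rw [← Real.rpow_add hX0]
          congr 1
          ring
      _ ≤ (X : ℝ) ^ (A + δ) := Real.rpow_le_rpow_of_exponent_le hX3 (by linarith)
      _ ≤ ((K : ℝ) ^ (3 : ℝ)) ^ (A + δ) := Real.rpow_le_rpow hX0.le hXK2 (by positivity)
      _ = (K : ℝ) ^ (3 * (A + δ)) := by rw [← Real.rpow_mul hK0.le]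

section

variable {r d : ℕ} {θ : Fin r → ℝ}

/-- sums over the integers up to `X` -/
theorem int_sum (hθ : ∀ j, ∀ m : ℕ, θ j ≠ m)
    (hinj : Function.Injective θ) (δ A : ℝ) (hδ : 0 < δ) (hA : 0 ≤ A) :
    ∃ τ : ℝ, 0 < τ ∧ ∃ x₀ : ℕ, ∀ X : ℕ, x₀ ≤ X → ∀ f : Fin r → ℝ,
      (∃ j, (X : ℝ) ^ δ ≤ |f j| * (X : ℝ) ^ θ j) →
      (∀ j, |f j| * (X : ℝ) ^ θ j ≤ (X : ℝ) ^ A) → ∀ Q : Polynomial ℝ, Q.natDegree ≤ d →
      ‖∑ n ∈ Ioc 0 X, e (Fp θ f Q n)‖ ≤ (X : ℝ) ^ (1 - τ) := by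
  obtain ⟨ρ, hρ, hρ4, X0, hX0⟩ := fam_block (d := d) hθ hinj (δ / 2) (3 * (A + δ)) (by positivity)
  obtain ⟨κ, hκ, hκ2, x₁, hx₁⟩ := freq_block θ δ A hδ hA X0
  set μ : ℝ := min (κ / 2) (ρ / 4) with hμ
  have hμ0 : 0 < μ := lt_min (by positivity) (by positivity)
  obtain ⟨x₂, hx₂⟩ := dyadic κ ρ μ hκ2 hμ0 (by have := min_le_left (κ / 2) (ρ / 4); linarith)
    (by have := min_le_right (κ / 2) (ρ / 4); linarith) hρ4
  refine ⟨μ, hμ0, max x₁ x₂, ?_⟩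
  intro X hX f hf1 hfA Q hQ
  refine hx₂ X (le_of_max_le_right hX) _ (fun n => (norm_e _).le) ?_
  intro K N hK hKN hN hNX
  obtain ⟨h1, h2⟩ := hx₁ X (le_of_max_le_left hX) K hK (hKN.trans hNX)
  obtain ⟨j, hj⟩ := hf1
  exact hX0 K h1 N (by omega) f ⟨j, (h2 (f j) j).1 hj⟩ (fun j => (h2 (f j) j).2 (hfA j)) Q hQ

/-- sums over the primes of a dyadic block -/
theorem prime_blockF (hθ : ∀ j, ∀ m : ℕ, θ j ≠ m)
    (hinj : Function.Injective θ) (δ A : ℝ) (hδ : 0 < δ) (hA : 0 ≤ A) :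
    ∃ τ : ℝ, 0 < τ ∧ τ ≤ 1 / 16 ∧ ∃ x₀ : ℕ, ∀ N : ℕ, x₀ ≤ N → ∀ f : Fin r → ℝ,
      (∃ j, (N : ℝ) ^ δ ≤ |f j| * (N : ℝ) ^ θ j) →
      (∀ j, |f j| * (N : ℝ) ^ θ j ≤ (N : ℝ) ^ A) → ∀ Q : Polynomial ℝ, Q.natDegree ≤ d →
      ∀ N' : ℕ, N ≤ N' → N' ≤ 2 * N →
      ‖∑ n ∈ Ioc N N', (if n.Prime then e (Fp θ f Q n) else 0)‖ ≤ (N : ℝ) ^ (1 - τ) := by
  obtain ⟨τ, hτ, hτ16, x₀, hx₀⟩ := vm_fam (d := d) hθ hinj δ A hδ hA
  have hev : ∀ᶠ x : ℝ in atTop, Real.log (2 * x) ≤ x ^ (1 / 4 : ℝ) ∧ 4 ≤ x ^ (τ / 2) ∧ 4 ≤ x := by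
    have e1 := (isLittleO_log_rpow_atTop (show (0 : ℝ) < 1 / 8 by norm_num)).def
      (show (0 : ℝ) < 1 by norm_num)
    filter_upwards [e1, eventually_ge_atTop (4 : ℝ),
      (tendsto_rpow_atTop (show (0 : ℝ) < 1 / 8 by norm_num)).eventually_ge_atTop 2,
      (tendsto_rpow_atTop (show (0 : ℝ) < τ / 2 by positivity)).eventually_ge_atTop 4]
      with x h1 h2 h3 h4
    refine ⟨?_, h4, h2⟩
    have hx0 : (0 : ℝ) < x := by linarith
    rw [Real.norm_eq_abs, Real.norm_eq_abs, abs_of_nonneg (Real.log_nonneg (by linarith)),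
      abs_of_nonneg (by positivity), one_mul] at h1
    have h5 : Real.log (2 * x) = Real.log 2 + Real.log x := Real.log_mul (by norm_num) hx0.ne'
    have h6 := Real.log_two_lt_d9
    have h7 : x ^ (1 / 4 : ℝ) = x ^ (1 / 8 : ℝ) * x ^ (1 / 8 : ℝ) := by
      rw [← Real.rpow_add hx0]; norm_num
    rw [h5, h7]
    nlinarith
  obtain ⟨x₁, hx₁⟩ := eventually_atTop.mp hev
  refine ⟨τ / 2, by positivity, by linarith, max x₀ ⌈x₁⌉₊, ?_⟩
  intro N hN f hf1 hfA Q hQ N' hNN' hN'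
  obtain ⟨hlog, hpow, hN4⟩ := hx₁ N (Nat.ceil_le.mp (le_of_max_le_right hN))
  have hN0 : (0 : ℝ) < N := by linarith
  have hN1 : (1 : ℝ) ≤ N := by linarith
  have hN4n : 4 ≤ N := by exact_mod_cast hN4
  rcases eq_or_lt_of_le hNN' with rfl | hlt
  · simp only [Finset.Ioc_self, sum_empty, norm_zero]
    positivity
  set G : ℕ → ℂ := fun n => (((if n.Prime then Real.log n else 0 : ℝ)) : ℂ) *
    e (Fp θ f Q n) with hG
  set E : ℝ := 4 * (N : ℝ) ^ (1 - τ) with hE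
  have hcls : ∀ t : ℕ, N < t → t ≤ N' → ‖∑ n ∈ Ioc N t, G n‖ ≤ E := by
    intro t ht1 ht2
    have h1 := prime_bound N t (by omega) (fun n => e (Fp θ f Q n)) (fun n => (norm_e _).le) _
      (hx₀ N (le_of_max_le_left hN) f hf1 hfA Q hQ t ht1.le (ht2.trans hN'))
    refine h1.trans ?_
    have htr : (t : ℝ) ≤ 2 * N := by exact_mod_cast ht2.trans hN'
    have ht0 : (1 : ℝ) ≤ t := by exact_mod_cast (by omega : 1 ≤ t)
    have h7 : √(t : ℝ) ≤ 3 / 2 * (N : ℝ) ^ (1 / 2 : ℝ) := by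
      rw [← Real.sqrt_eq_rpow]
      calc √(t : ℝ) ≤ √((3 / 2) ^ 2 * N) := Real.sqrt_le_sqrt (by linarith)
        _ = 3 / 2 * √N := by rw [Real.sqrt_mul (by norm_num), Real.sqrt_sq (by norm_num)]
    have h8 : Real.log (t : ℝ) ≤ (N : ℝ) ^ (1 / 4 : ℝ) :=
      (Real.log_le_log (by linarith) htr).trans hlog
    have h9 : 0 ≤ Real.log (t : ℝ) := Real.log_nonneg ht0
    have h10 : 2 * √(t : ℝ) * Real.log t ≤ 3 * (N : ℝ) ^ (1 - τ) := by
      calc 2 * √(t : ℝ) * Real.log t ≤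
            2 * (3 / 2 * (N : ℝ) ^ (1 / 2 : ℝ)) * (N : ℝ) ^ (1 / 4 : ℝ) := by gcongr
        _ = 3 * ((N : ℝ) ^ (1 / 2 : ℝ) * (N : ℝ) ^ (1 / 4 : ℝ)) := by ring
        _ = 3 * (N : ℝ) ^ (3 / 4 : ℝ) := by rw [← Real.rpow_add hN0]; norm_num
        _ ≤ _ := by
            have : (N : ℝ) ^ (3 / 4 : ℝ) ≤ (N : ℝ) ^ (1 - τ) :=
              Real.rpow_le_rpow_of_exponent_le hN1 (by linarith)
            linarith
    rw [hE]
    linarith
  set w : ℕ → ℝ := fun n => (Real.log n)⁻¹ with hw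
  have hlogpos : ∀ n : ℕ, N < n → 1 ≤ Real.log n := by
    intro n hn
    rw [Real.le_log_iff_exp_le (by
      have : 0 < n := by omega
      exact_mod_cast this)]
    have h1 := Real.exp_one_lt_d9
    have h2 : (5 : ℝ) ≤ n := by exact_mod_cast (by omega : 5 ≤ n)
    linarith
  have hab := abel_bound w G N E (fun n hn => by
      have := hlogpos n hn
      rw [hw]
      positivity) (fun n hn => by
      have h1 := hlogpos n hn
      rw [hw]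
      simp only
      apply inv_anti₀ (by linarith)
      apply Real.log_le_log
      · have : 0 < n := by omega
        exact_mod_cast this
      · push_cast
        linarith) N' hlt hcls
  have hsum : ∑ n ∈ Ioc N N', (if n.Prime then e (Fp θ f Q n) else 0) =
      ∑ i ∈ Ioc N N', (w i : ℂ) * G i := by
    refine sum_congr rfl fun n hn => ?_
    have hn0 := hlogpos n (Finset.mem_Ioc.mp hn).1
    rw [hw, hG]
    simp only
    by_cases h2 : n.Prime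
    · rw [if_pos h2, if_pos h2, ← mul_assoc]
      rw [← Complex.ofReal_mul, inv_mul_cancel₀ (by linarith), Complex.ofReal_one, one_mul]
    · rw [if_neg h2, if_neg h2]
      simp
  rw [hsum]
  refine hab.trans ?_
  have hE0 : 0 ≤ E := by positivity
  have hw1 : w (N + 1) ≤ 1 := by
    rw [hw]
    exact inv_le_one_of_one_le₀ (hlogpos (N + 1) (by omega))
  calc w (N + 1) * E ≤ 1 * E := mul_le_mul_of_nonneg_right hw1 hE0
    _ = 4 * (N : ℝ) ^ (1 - τ) := by rw [one_mul, hE]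
    _ ≤ (N : ℝ) ^ (τ / 2) * (N : ℝ) ^ (1 - τ) := by gcongr
    _ = (N : ℝ) ^ (1 - τ / 2) := by
        rw [← Real.rpow_add hN0]
        congr 1
        ring

/-- sums over the primes up to `X` of a residue class -/
theorem class_sum (hθ : ∀ j, ∀ m : ℕ, θ j ≠ m)
    (hinj : Function.Injective θ) (δ A : ℝ) (hδ : 0 < δ) (hA : 0 ≤ A) :
    ∃ τ : ℝ, 0 < τ ∧ ∃ x₀ : ℕ, ∀ X : ℕ, x₀ ≤ X → ∀ f : Fin r → ℝ,
      (∃ j, (X : ℝ) ^ δ ≤ |f j| * (X : ℝ) ^ θ j) →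
      (∀ j, |f j| * (X : ℝ) ^ θ j ≤ (X : ℝ) ^ A) → ∀ Q : Polynomial ℝ, Q.natDegree ≤ d →
      ∀ a q : ℕ, 1 ≤ q →
      ‖∑ p ∈ PrA a q X, e (Fp θ f Q p)‖ ≤ (X : ℝ) ^ (1 - τ) := by
  obtain ⟨ρ, hρ, hρ16, X0, hX0⟩ := prime_blockF (d := max d 1) hθ hinj (δ / 2) (3 * (A + δ))
    (by positivity) (by positivity)
  obtain ⟨κ, hκ, hκ2, x₁, hx₁⟩ := freq_block θ δ A hδ hA X0
  set μ : ℝ := min (κ / 2) (ρ / 4) with hμ
  have hμ0 : 0 < μ := lt_min (by positivity) (by positivity)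
  obtain ⟨x₂, hx₂⟩ := dyadic κ ρ μ hκ2 hμ0 (by have := min_le_left (κ / 2) (ρ / 4); linarith)
    (by have := min_le_right (κ / 2) (ρ / 4); linarith) (by linarith)
  refine ⟨μ, hμ0, max x₁ x₂, ?_⟩
  intro X hX f hf1 hfA Q hQ a q hq
  have h0 : PrA a q X = ((Ioc 0 X).filter (fun p => p ≡ a [MOD q])).filter Nat.Prime := by
    unfold Pool.Agent.Q270.SP.PrA
    rw [Finset.filter_filter]
    refine filter_congr fun p _ => ?_
    tauto
  rw [h0, sum_filter]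
  refine class_bound (Ioc 0 X) (fun n => if n.Prime then e (Fp θ f Q n) else 0) q (by omega) a _ ?_
  intro j _
  have h1 : ∑ n ∈ Ioc 0 X, (if n.Prime then e (Fp θ f Q n) else 0) * e ((j : ℝ) / q * n) =
      ∑ n ∈ Ioc 0 X, (if n.Prime then e (Fp θ f (Q + Polynomial.C ((j : ℝ) / q) * Polynomial.X) n)
        else 0) := by
    refine sum_congr rfl fun n _ => ?_
    split_ifs
    · rw [← e_add]
      congr 1
      unfold Pool.Agent.Q270.SP.Fp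
      simp only [Polynomial.eval_add, Polynomial.eval_mul, Polynomial.eval_C, Polynomial.eval_X]
      ring
    · rw [zero_mul]
  rw [h1]
  refine hx₂ X (le_of_max_le_right hX) _ (fun n => ?_) ?_
  · split_ifs
    · exact (norm_e _).le
    · rw [norm_zero]; exact zero_le_one
  intro K N hK hKN hN hNX
  obtain ⟨h1, h2⟩ := hx₁ X (le_of_max_le_left hX) K hK (hKN.trans hNX)
  obtain ⟨j, hj⟩ := hf1
  refine hX0 K h1 f ⟨j, (h2 (f j) j).1 hj⟩ (fun j => (h2 (f j) j).2 (hfA j)) _ ?_ N hKN hN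
  refine (Polynomial.natDegree_add_le _ _).trans (max_le_max hQ ?_)
  exact (Polynomial.natDegree_C_mul_le _ _).trans Polynomial.natDegree_X_le

end


end Pool.Agent.Q270.SQ
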