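import Pool.Agent.Q270.SQ.Exp
import Mathlib.Analysis.Analytic.IsolatedZeros
import Mathlib.Analysis.Analytic.OfScalars

/-!
# Asymptotic expansions in powers of `1/m`
-/

set_option autoImplicit false

namespace Pool.Agent.Q270.SQ

open Finset Real Filter Asymptotics Topology

/-- the expansion of `G` at `0` from the right -/
def Tay (c : ℕ → ℝ) (G : ℝ → ℝ) : Prop :=
  ∀ J : ℕ, (fun x : ℝ => G x - ∑ j ∈ Finset.range J, c j * x ^ j) =O[𝓝[>] 0] (fun x : ℝ => x ^ J)

/-- the exponents `0, -1, -2, …` -/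
noncomputable def neg (j : ℕ) : ℝ := -(j : ℝ)

lemma neg_anti : StrictAnti neg := fun i j h => by
  unfold neg
  have : (i : ℝ) < j := by exact_mod_cast h
  linarith

lemma neg_tendsto : Tendsto neg atTop atBot :=
  tendsto_neg_atTop_atBot.comp tendsto_natCast_atTop_atTop

lemma inv_pow_eq (m : ℕ) (j : ℕ) : (1 / (m : ℝ)) ^ j = (m : ℝ) ^ neg j := by
  unfold neg
  rw [Real.rpow_neg (Nat.cast_nonneg m), Real.rpow_natCast, one_div, inv_pow]

lemma tendsto_inv : Tendsto (fun m : ℕ => 1 / (m : ℝ)) atTop (𝓝[>] 0) := by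
  rw [tendsto_nhdsWithin_iff]
  refine ⟨tendsto_one_div_atTop_nhds_zero_nat, ?_⟩
  filter_upwards [eventually_gt_atTop 0] with m hm
  have : (0 : ℝ) < m := by exact_mod_cast hm
  simp only [Set.mem_Ioi]
  positivity

lemma Tay.expands {c : ℕ → ℝ} {G : ℝ → ℝ} (h : Tay c G) :
    Expands neg c (fun m : ℕ => G (1 / (m : ℝ))) := by
  intro J
  have h1 := (h J).comp_tendsto tendsto_inv
  refine h1.congr (fun m => ?_) (fun m => ?_)
  · simp only [Function.comp, inv_pow_eq]
  · simp only [Function.comp, inv_pow_eq]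

lemma Tay.congr {c : ℕ → ℝ} {G G' : ℝ → ℝ} (h : Tay c G) (hG : ∀ x, 0 < x → G x = G' x) :
    Tay c G' := by
  intro J
  refine (h J).congr' ?_ EventuallyEq.rfl
  filter_upwards [self_mem_nhdsWithin] with x hx
  rw [hG x hx]

lemma tay_unique {c c' : ℕ → ℝ} {G : ℝ → ℝ} {J : ℕ}
    (h : (fun x : ℝ => G x - ∑ j ∈ Finset.range J, c j * x ^ j) =O[𝓝[>] 0] (fun x : ℝ => x ^ J))
    (h' : (fun x : ℝ => G x - ∑ j ∈ Finset.range J, c' j * x ^ j) =O[𝓝[>] 0]
      (fun x : ℝ => x ^ J)) : ∀ j < J, c j = c' j := by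
  have h2 : (fun x : ℝ => ∑ j ∈ Finset.range J, (c j - c' j) * x ^ j) =O[𝓝[>] 0]
      (fun x : ℝ => x ^ J) := by
    refine (h'.sub h).congr_left fun x => ?_
    simp only [sub_mul, sum_sub_distrib]
    ring
  clear h h'
  induction J with
  | zero => intro j hj; omega
  | succ J ih =>
    have hpow : (fun x : ℝ => x ^ (J + 1)) =O[𝓝[>] 0] (fun x : ℝ => x ^ J) := by
      refine IsBigO.of_bound 1 ?_
      filter_upwards [Ioo_mem_nhdsGT (show (0 : ℝ) < 1 by norm_num)] with x hx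
      rw [one_mul, norm_pow, norm_pow, pow_succ]
      have : ‖x‖ ≤ 1 := by rw [Real.norm_eq_abs, abs_of_pos hx.1]; exact hx.2.le
      exact mul_le_of_le_one_right (by positivity) this
    have h3 : (fun x : ℝ => ∑ j ∈ Finset.range J, (c j - c' j) * x ^ j) =O[𝓝[>] 0]
        (fun x : ℝ => x ^ J) := by
      have h4 : (fun x : ℝ => (c J - c' J) * x ^ J) =O[𝓝[>] 0] (fun x : ℝ => x ^ J) :=
        (isBigO_refl _ _).const_mul_left _
      refine ((h2.trans hpow).sub h4).congr_left fun x => ?_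
      rw [sum_range_succ]
      ring
    have h5 := ih h3
    intro j hj
    rcases Nat.lt_succ_iff_lt_or_eq.1 hj with h6 | rfl
    · exact h5 j h6
    have h7 : (fun x : ℝ => (c j - c' j) * x ^ j) =O[𝓝[>] 0] (fun x : ℝ => x ^ (j + 1)) := by
      refine h2.congr_left fun x => ?_
      rw [sum_range_succ, sum_eq_zero, zero_add]
      intro i hi
      rw [h5 i (mem_range.1 hi), sub_self, zero_mul]
    have h8 : (fun _ : ℝ => c j - c' j) =O[𝓝[>] 0] (fun x : ℝ => x) := by
      have h9 : (fun x : ℝ => (x ^ j)⁻¹) =O[𝓝[>] 0] (fun x : ℝ => (x ^ j)⁻¹) := isBigO_refl _ _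
      refine (h7.mul h9).congr' ?_ ?_
      · filter_upwards [self_mem_nhdsWithin] with x hx
        have : (x : ℝ) ^ j ≠ 0 := pow_ne_zero _ (ne_of_gt hx)
        field_simp
      · filter_upwards [self_mem_nhdsWithin] with x hx
        have : (x : ℝ) ^ j ≠ 0 := pow_ne_zero _ (ne_of_gt hx)
        rw [pow_succ]
        field_simp
    have h9 : Tendsto (fun _ : ℝ => c j - c' j) (𝓝[>] 0) (𝓝 0) :=
      h8.trans_tendsto (tendsto_id.mono_left nhdsWithin_le_nhds)
    have h10 := tendsto_nhds_unique h9 tendsto_const_nhds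
    linarith

/-- expansions from power series -/
lemma tay_of_hasFPowerSeries {G : ℝ → ℝ} {p : FormalMultilinearSeries ℝ ℝ ℝ}
    (h : HasFPowerSeriesAt G p 0) : Tay (fun j => p.coeff j) G := by
  intro J
  have h1 := (h.isBigO_sub_partialSum_pow J).mono (nhdsWithin_le_nhds (s := Set.Ioi (0 : ℝ)))
  refine (h1.congr_left fun x => ?_).trans ?_
  · rw [zero_add, FormalMultilinearSeries.partialSum]
    congr 1
    refine sum_congr rfl fun j _ => ?_
    rw [FormalMultilinearSeries.apply_eq_pow_smul_coeff, smul_eq_mul, mul_comm]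
  · refine IsBigO.of_bound 1 ?_
    filter_upwards with x
    rw [one_mul, norm_pow, norm_pow, norm_norm]

lemma tay_of_analytic {G : ℝ → ℝ} (h : AnalyticAt ℝ G 0) : ∃ c, Tay c G := by
  obtain ⟨p, hp⟩ := h
  exact ⟨_, tay_of_hasFPowerSeries hp⟩

lemma tay_of_hasSum {G : ℝ → ℝ} {c : ℕ → ℝ}
    (h : ∀ᶠ x in 𝓝 (0 : ℝ), HasSum (fun n => x ^ n * c n) (G x)) : Tay c G := by
  have h1 : HasFPowerSeriesAt G (FormalMultilinearSeries.ofScalars ℝ c) 0 := by
    rw [hasFPowerSeriesAt_iff]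
    filter_upwards [h] with x hx
    rw [zero_add]
    simpa using hx
  have h2 := tay_of_hasFPowerSeries h1
  simpa using h2

/-- the first coefficients, by an approximation -/
lemma Tay.coeff_eq {c : ℕ → ℝ} {G : ℝ → ℝ} (h : Tay c G) {J : ℕ} {c' : ℕ → ℝ}
    (h' : (fun x : ℝ => G x - ∑ j ∈ Finset.range J, c' j * x ^ j) =O[𝓝[>] 0]
      (fun x : ℝ => x ^ J)) : ∀ j < J, c j = c' j := tay_unique (h J) h'

end Pool.Agent.Q270.SQ
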