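import Pool.Agent.Q270.SQ.Block
import Pool.Agent.Q270.SP.VauFam

/-!
# Exponential sums over primes with several powers of arbitrary real exponents and a polynomial
-/

set_option autoImplicit false

namespace Pool.Agent.Q270.SQ

open Finset Real Filter
open Pool.Agent.H469R2.NK (e norm_e e_add conj_e)
open Pool.Agent.H373R2.T3 (bilin harm)
open Pool.Agent.H373R2.T7 (vaughan_gen)
open Pool.Agent.Y951.TU (exists_pos_le exists_ge)
open Pool.Agent.Q270.SP (comp_deg Fp Fp_mul type_II)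

/-- the variation of a power -/
lemma gap_ge {c Θ : ℝ} (hΘ : |c| + 1 ≤ Θ) {x y L : ℝ} (hL : 0 < L) (h1 : L ≤ x)
    (h2 : x < y) (h3 : y ≤ 2 * L) :
    |c| / 2 ^ Θ * (L ^ (c - 1) * (y - x)) ≤ |y ^ c - x ^ c| := by
  have hx : 0 < x := by linarith
  obtain ⟨ξ, hξ, hd⟩ := exists_hasDerivAt_eq_slope (fun t : ℝ => t ^ c) (fun t => c * t ^ (c - 1)) h2
    (fun t ht => (Real.continuousAt_rpow_const t c (Or.inl (by
      have := ht.1; linarith))).continuousWithinAt)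
    (fun t ht => Real.hasDerivAt_rpow_const (Or.inl (by have := ht.1; linarith)))
  have hyx : 0 < y - x := by linarith
  rw [eq_div_iff hyx.ne'] at hd
  rw [← hd, abs_mul, abs_mul, abs_of_pos hyx]
  have hξ1 : L ≤ ξ := by linarith [hξ.1]
  have hξ2 : ξ ≤ 2 * L := by linarith [hξ.2]
  have hξ0 : 0 < ξ := by linarith
  have hc1 : |c - 1| ≤ Θ := by
    have := abs_sub c 1
    rw [abs_one] at this
    linarith
  have key := (pow_ratio hc1 hL one_le_two hξ1 hξ2).1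
  have h2Θ : (0 : ℝ) < 2 ^ Θ := by positivity
  rw [abs_of_pos (by positivity : 0 < ξ ^ (c - 1))]
  calc |c| / 2 ^ Θ * (L ^ (c - 1) * (y - x)) = |c| * (L ^ (c - 1) / 2 ^ Θ) * (y - x) := by
        field_simp
    _ ≤ |c| * ξ ^ (c - 1) * (y - x) := by
        gcongr
        rw [div_le_iff₀ h2Θ, mul_comm]
        exact key

/-- sums over primes with several powers of the prime and an arbitrary polynomial -/
theorem vm_fam {r d : ℕ} {θ : Fin r → ℝ} (hθ : ∀ j, ∀ m : ℕ, θ j ≠ m)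
    (hinj : Function.Injective θ) (δ A : ℝ) (hδ : 0 < δ) (hA : 0 ≤ A) :
    ∃ τ : ℝ, 0 < τ ∧ τ ≤ 1 / 16 ∧ ∃ x₀ : ℕ, ∀ N : ℕ, x₀ ≤ N → ∀ f : Fin r → ℝ,
      (∃ j, (N : ℝ) ^ δ ≤ |f j| * (N : ℝ) ^ θ j) → (∀ j, |f j| * (N : ℝ) ^ θ j ≤ (N : ℝ) ^ A) → ∀ Q : Polynomial ℝ, Q.natDegree ≤ d →
      ∀ N' : ℕ, N ≤ N' → N' ≤ 2 * N →
      ‖∑ n ∈ Ioc N N', ((ArithmeticFunction.vonMangoldt n : ℝ) : ℂ) * e (Fp θ f Q n)‖ ≤
        (N : ℝ) ^ (1 - τ) := by
  have hθne : ∀ j, 0 < |θ j| := fun j => abs_pos.2 (by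
    have := hθ j 0
    push_cast at this
    exact this)
  obtain ⟨σ, hσ, hσ'⟩ := exists_pos_le (fun j => |θ j|) hθne
  obtain ⟨Θ0, hΘ0⟩ := exists_ge (fun j => |θ j|)
  set Θ : ℝ := max Θ0 0 + 1 with hΘ
  have hΘ1' : ∀ j, |θ j| + 1 ≤ Θ := fun j => by
    have := (hΘ0 j).trans (le_max_left Θ0 0)
    linarith
  have hΘ1 : ∀ j, |θ j| ≤ Θ := fun j => by have := hΘ1' j; linarith
  have hΘ2 : 0 ≤ Θ := by have := le_max_right Θ0 0; linarith
  obtain ⟨ρ, hρ, hρ4, X0, hX0⟩ := fam_block (d := d) hθ hinj (δ / 4) (4 * (A + 1) + 1)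
    (by positivity)
  set η : ℝ := min (ρ / 4) (δ / 4) with hη
  have hη0 : 0 < η := lt_min (by positivity) (by positivity)
  have hη1 : η ≤ ρ / 4 := min_le_left _ _
  have hη2 : η ≤ δ / 4 := min_le_right _ _
  have hlog : ∀ᶠ x : ℝ in atTop, 51 * (1 + Real.log (4 * x)) ^ 5 ≤ x ^ (η / 4) := by
    have e1 := (isLittleO_log_rpow_atTop (show (0 : ℝ) < η / 44 by positivity)).def
      (show (0 : ℝ) < 1 by norm_num)
    filter_upwards [e1, eventually_ge_atTop (1 : ℝ),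
      (tendsto_rpow_atTop (show (0 : ℝ) < η / 44 by positivity)).eventually_ge_atTop 51]
      with x h1 h2 h46
    have h4 : 0 ≤ Real.log x := Real.log_nonneg h2
    rw [Real.norm_eq_abs, Real.norm_eq_abs, abs_of_nonneg h4, abs_of_nonneg (by positivity),
      one_mul] at h1
    have hx0 : (0 : ℝ) < x := by linarith
    have h5 : Real.log (4 * x) = Real.log 4 + Real.log x := Real.log_mul (by norm_num) (by linarith)
    have h6 : Real.log 4 ≤ 2 := by
      have h7 : Real.log 4 = 2 * Real.log 2 := by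
        rw [show (4 : ℝ) = 2 ^ 2 by norm_num, Real.log_pow]; push_cast; ring
      have := Real.log_two_lt_d9
      linarith
    set y : ℝ := x ^ (η / 44) with hy
    have h8 : 1 + Real.log (4 * x) ≤ y ^ 2 := by
      rw [h5]
      nlinarith
    have h9 : 0 ≤ 1 + Real.log (4 * x) := by
      have := Real.log_nonneg (show (1 : ℝ) ≤ 4 * x by linarith)
      linarith
    have h10 : x ^ (η / 4) = y ^ 11 := by
      rw [hy, ← Real.rpow_natCast, ← Real.rpow_mul hx0.le]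
      congr 1
      push_cast
      ring
    have hy0 : 0 ≤ y := by linarith
    rw [h10]
    calc 51 * (1 + Real.log (4 * x)) ^ 5 ≤ y * (y ^ 2) ^ 5 := by gcongr
      _ = y ^ 11 := by ring
  -- thresholds for a small variable
  set K₁ : ℝ := max (X0 : ℝ) (16 ^ (A + 1)) with hK₁
  set c1 : ℝ := σ / 2 ^ Θ / 2 ^ Θ / 32 ^ Θ with hc1
  have hc10 : 0 < c1 := by positivity
  have hev : ∀ᶠ x : ℝ in atTop, 51 * (1 + Real.log (4 * x)) ^ 5 ≤ x ^ (η / 4) ∧
      2 * K₁ + 2 ≤ x ^ (1 / 4 : ℝ) ∧ 1 / c1 ≤ x ^ (δ / 4) ∧ 2 ^ Θ ≤ x ^ (δ / 4) ∧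
      2 * 128 ^ Θ ≤ x ∧ 10 ^ 4 ≤ x := by
    filter_upwards [hlog, (tendsto_rpow_atTop (show (0 : ℝ) < 1 / 4 by norm_num)).eventually_ge_atTop
      (2 * K₁ + 2), (tendsto_rpow_atTop (show (0 : ℝ) < δ / 4 by positivity)).eventually_ge_atTop
      (1 / c1), (tendsto_rpow_atTop (show (0 : ℝ) < δ / 4 by positivity)).eventually_ge_atTop
      (2 ^ Θ), eventually_ge_atTop (2 * (128 : ℝ) ^ Θ), eventually_ge_atTop (10 ^ 4 : ℝ)]
      with x a1 a2 a3 a4 a5 a6
    exact ⟨a1, a2, a3, a4, a5, a6⟩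
  obtain ⟨x₃, hx₃⟩ := eventually_atTop.mp hev
  refine ⟨η / 4, by positivity, by linarith, ⌈x₃⌉₊, ?_⟩
  intro N hN f hf1 hfA Q hQ N' hNN' hN'
  obtain ⟨j1, hj1⟩ := hf1
  obtain ⟨hlogN, hKN, hθN, h2θ, h4θ, hN4⟩ := hx₃ N (Nat.ceil_le.mp hN)
  have hN4n : 10 ^ 4 ≤ N := by exact_mod_cast hN4
  have hN0 : (0 : ℝ) < N := by linarith
  have hN1 : (1 : ℝ) ≤ N := by linarith
  have hK0 : 0 ≤ K₁ := (Nat.cast_nonneg X0).trans (le_max_left _ _)
  set Lg : ℝ := 1 + Real.log (4 * N) with hLg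
  have hlog4N : 0 ≤ Real.log (4 * (N : ℝ)) := Real.log_nonneg (by linarith)
  have hLg1 : 1 ≤ Lg := by linarith
  set U : ℕ := Nat.sqrt (Nat.sqrt N) with hU
  have hU1 : U * U ≤ Nat.sqrt N := Nat.sqrt_le (Nat.sqrt N)
  have hU2 : Nat.sqrt N * Nat.sqrt N ≤ N := Nat.sqrt_le N
  have hU3 : N < (U + 1) ^ 4 := by
    have h4 : Nat.sqrt N < (U + 1) * (U + 1) := by rw [hU]; exact Nat.lt_succ_sqrt _
    have h5 : N < (Nat.sqrt N + 1) * (Nat.sqrt N + 1) := Nat.lt_succ_sqrt _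
    have h6 : Nat.sqrt N + 1 ≤ (U + 1) * (U + 1) := h4
    calc N < (Nat.sqrt N + 1) * (Nat.sqrt N + 1) := h5
      _ ≤ ((U + 1) * (U + 1)) * ((U + 1) * (U + 1)) := Nat.mul_le_mul h6 h6
      _ = (U + 1) ^ 4 := by ring
  have hU9 : 1 ≤ U := by
    by_contra hcon
    have h1 : U + 1 ≤ 1 := by omega
    have h2 : (U + 1) ^ 4 ≤ 1 ^ 4 := Nat.pow_le_pow_left h1 4
    omega
  have hUsq : U * U ≤ N := hU1.trans (Nat.sqrt_le_self N)
  -- a variable which is at least a multiple of the fourth root of `N`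
  have hbig : ∀ X : ℕ, (N : ℝ) ≤ (2 * (X : ℝ)) ^ 4 → X0 ≤ X ∧ 1 ≤ X ∧
      (N : ℝ) ^ (A + 1) ≤ (X : ℝ) ^ (4 * (A + 1) + 1) ∧ (N : ℝ) ^ (1 / 4 : ℝ) ≤ 2 * X := by
    intro X hX
    have h1 : (N : ℝ) ^ ((1 : ℝ) / 4) ≤ 2 * X := by
      have h3 : (N : ℝ) ^ ((1 : ℝ) / 4) ≤ ((2 * (X : ℝ)) ^ 4) ^ ((1 : ℝ) / 4) :=
        Real.rpow_le_rpow hN0.le hX (by norm_num)
      refine h3.trans (le_of_eq ?_)
      rw [← Real.rpow_natCast, ← Real.rpow_mul (by positivity)]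
      norm_num
    have h2 : K₁ + 1 ≤ X := by linarith
    have h3 : (X0 : ℝ) ≤ X := by linarith [le_max_left (X0 : ℝ) (16 ^ (A + 1))]
    have h4 : (16 : ℝ) ^ (A + 1) ≤ X := by linarith [le_max_right (X0 : ℝ) (16 ^ (A + 1))]
    have h5 : (1 : ℝ) ≤ X := by linarith
    have hXp : (0 : ℝ) < X := by linarith
    refine ⟨by exact_mod_cast h3, by exact_mod_cast h5, ?_, h1⟩
    calc (N : ℝ) ^ (A + 1) ≤ ((2 * (X : ℝ)) ^ 4) ^ (A + 1) :=
          Real.rpow_le_rpow hN0.le hX (by positivity)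
      _ = (16 * (X : ℝ) ^ 4) ^ (A + 1) := by congr 1; ring
      _ = 16 ^ (A + 1) * ((X : ℝ) ^ 4) ^ (A + 1) :=
          Real.mul_rpow (by norm_num) (by positivity)
      _ = 16 ^ (A + 1) * (X : ℝ) ^ (4 * (A + 1)) := by
          rw [← Real.rpow_natCast (X : ℝ) 4, ← Real.rpow_mul hXp.le]
          norm_num
      _ ≤ X * (X : ℝ) ^ (4 * (A + 1)) := by gcongr
      _ = (X : ℝ) ^ (4 * (A + 1) + 1) := by
          rw [Real.rpow_add hXp, Real.rpow_one]
          ring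
  set Y : ℕ → ℝ := fun m => (N / m) * (N : ℝ) ^ (-(ρ / 2)) with hY
  set R : ℝ := 6 * (N : ℝ) ^ (1 - η / 2) with hR
  have hR2 : R ^ 2 = 36 * ((N : ℝ) ^ 2 * (N : ℝ) ^ (-η)) := by
    have h1 : ((N : ℝ) ^ (1 - η / 2)) ^ 2 = (N : ℝ) ^ 2 * (N : ℝ) ^ (-η) := by
      rw [← Real.rpow_natCast, ← Real.rpow_mul hN0.le, ← Real.rpow_natCast (N : ℝ) 2,
        ← Real.rpow_add hN0]
      congr 1
      push_cast
      ring
    rw [hR, mul_pow, h1]
    norm_num
  have hmain := vaughan_gen (fun n => e (Fp θ f Q n)) N N' U (by omega) hNN' hN' hU9 hUsq Y R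
    (by positivity) (fun m => by simp only [hY]; positivity) ?_ ?_
  · refine hmain.trans ?_
    have h1 : ∑ m ∈ Icc 1 (U * U), Y m ≤ (N : ℝ) * (N : ℝ) ^ (-(ρ / 2)) * Lg := by
      have h2 : ∑ m ∈ Icc 1 (U * U), Y m =
          (N : ℝ) * (N : ℝ) ^ (-(ρ / 2)) * ∑ m ∈ Icc 1 (U * U), 1 / (m : ℝ) := by
        rw [mul_sum]
        apply sum_congr rfl
        intro m _
        simp only [hY]
        ring
      rw [h2]
      apply mul_le_mul_of_nonneg_left _ (by positivity)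
      refine (harm (U * U)).trans ?_
      have : Real.log (((U * U : ℕ) : ℝ) + 1) ≤ Real.log (4 * N) := by
        apply Real.log_le_log (by positivity)
        have h1 : ((U * U : ℕ) : ℝ) ≤ N := by exact_mod_cast hUsq
        linarith
      linarith
    have h3 : (N : ℝ) * (N : ℝ) ^ (-(ρ / 2)) ≤ (N : ℝ) ^ (1 - η / 2) := by
      calc (N : ℝ) * (N : ℝ) ^ (-(ρ / 2)) = (N : ℝ) ^ (1 : ℝ) * (N : ℝ) ^ (-(ρ / 2)) := by
            rw [Real.rpow_one]
        _ = (N : ℝ) ^ (1 + -(ρ / 2)) := by rw [← Real.rpow_add hN0]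
        _ ≤ _ := Real.rpow_le_rpow_of_exponent_le hN1 (by linarith)
    have hp := Real.rpow_pos_of_pos hN0 (1 - η / 2)
    have hLg5 : Lg * Lg ≤ Lg ^ 5 := by
      calc Lg * Lg = Lg ^ 2 := by ring
        _ ≤ Lg ^ 5 := pow_le_pow_right₀ hLg1 (by norm_num)
    calc 8 * Lg ^ 5 * R + 3 * Lg * ∑ m ∈ Icc 1 (U * U), Y m ≤
          8 * Lg ^ 5 * R + 3 * Lg * ((N : ℝ) * (N : ℝ) ^ (-(ρ / 2)) * Lg) := by gcongr
      _ = 48 * Lg ^ 5 * (N : ℝ) ^ (1 - η / 2) +
          3 * (Lg * Lg) * ((N : ℝ) * (N : ℝ) ^ (-(ρ / 2))) := by rw [hR]; ring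
      _ ≤ 48 * Lg ^ 5 * (N : ℝ) ^ (1 - η / 2) + 3 * Lg ^ 5 * (N : ℝ) ^ (1 - η / 2) := by gcongr
      _ = 51 * Lg ^ 5 * (N : ℝ) ^ (1 - η / 2) := by ring
      _ ≤ (N : ℝ) ^ (η / 4) * (N : ℝ) ^ (1 - η / 2) := by gcongr
      _ = (N : ℝ) ^ (1 - η / 4) := by
          rw [← Real.rpow_add hN0]
          congr 1
          ring
  · -- type I
    intro m hm b hb
    rw [mem_Icc] at hm
    have hm1 : 1 ≤ m := hm.1
    have hmR : (1 : ℝ) ≤ m := by exact_mod_cast hm1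
    have hmp : (0 : ℝ) < m := by linarith
    have hmm : m * m ≤ N :=
      (Nat.mul_le_mul (hm.2.trans hU1) (hm.2.trans hU1)).trans hU2
    set X : ℕ := N / m with hX
    have hmX : m ≤ X := (Nat.le_div_iff_mul_le hm1).mpr hmm
    have hX1 : 1 ≤ X := hm1.trans hmX
    have hNX : N < (X + 1) * m := by
      rw [mul_comm, hX]
      exact Nat.lt_mul_div_succ N hm1
    have hNX2 : N ≤ 4 * (X * X) := by nlinarith
    have hXR : (1 : ℝ) ≤ X := by exact_mod_cast hX1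
    have hXp : (0 : ℝ) < X := by linarith
    obtain ⟨b1, b2, b3, b4⟩ := hbig X (by
      have h1 : (N : ℝ) ≤ 4 * ((X : ℝ) * X) := by exact_mod_cast hNX2
      have h2 : (2 * (X : ℝ)) ^ 4 = 16 * ((X : ℝ) * X) * ((X : ℝ) * X) := by ring
      have h3 : 1 ≤ (X : ℝ) * X := by nlinarith
      rw [h2]
      nlinarith)
    have hbX : b ≤ 3 * X := by
      have h1 : N' / m ≤ 2 * N / m := Nat.div_le_div_right hN'
      have h2 : 2 * N / m ≤ 2 * X + 1 := by
        rw [← Nat.lt_succ_iff, Nat.div_lt_iff_lt_mul hm1]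
        calc 2 * N < 2 * ((X + 1) * m) := by omega
          _ = (2 * X + 1).succ * m := by rw [Nat.succ_eq_add_one]; ring
      omega
    have hmX1 : (X : ℝ) * m ≤ N := by
      have : X * m ≤ N := Nat.div_mul_le_self N m
      exact_mod_cast this
    have hmX2 : (N : ℝ) ≤ 2 * (X * m) := by
      have h1 : N ≤ 2 * (X * m) := by nlinarith
      exact_mod_cast h1
    have hmX0 : (0 : ℝ) < X * m := by positivity
    have hXN' : (X : ℝ) ≤ N := by nlinarith
    have hsz : ∀ j, |f j * (m : ℝ) ^ θ j| * (X : ℝ) ^ θ j = |f j| * ((X : ℝ) * m) ^ θ j := by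
      intro j
      rw [abs_mul, abs_of_pos (by positivity : 0 < (m : ℝ) ^ θ j), Real.mul_rpow hXp.le hmp.le]
      ring
    have hfr1 : ∃ j, (X : ℝ) ^ (δ / 4) ≤ |f j * (m : ℝ) ^ θ j| * (X : ℝ) ^ θ j := by
      refine ⟨j1, ?_⟩
      rw [hsz]
      have h2 := (pow_ratio (hΘ1 j1) hmX0 one_le_two hmX1 hmX2).2
      have h3 : (N : ℝ) ^ δ ≤ 2 ^ Θ * (|f j1| * ((X : ℝ) * m) ^ θ j1) := by
        calc (N : ℝ) ^ δ ≤ |f j1| * (N : ℝ) ^ θ j1 := hj1
          _ ≤ |f j1| * (2 ^ Θ * ((X : ℝ) * m) ^ θ j1) := by gcongr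
          _ = _ := by ring
      have h4 : (N : ℝ) ^ δ = (N : ℝ) ^ (δ / 4) * ((N : ℝ) ^ (δ / 4) * (N : ℝ) ^ (δ / 2)) := by
        rw [← Real.rpow_add hN0, ← Real.rpow_add hN0]
        congr 1
        ring
      have h5 : (X : ℝ) ^ (δ / 4) ≤ (N : ℝ) ^ (δ / 4) := Real.rpow_le_rpow hXp.le hXN' (by positivity)
      have h6 : 1 ≤ (N : ℝ) ^ (δ / 2) := Real.one_le_rpow hN1 (by positivity)
      have h7 : (0 : ℝ) < (2 : ℝ) ^ Θ := by positivity
      have h8 : (0 : ℝ) < (N : ℝ) ^ (δ / 4) := by positivity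
      have h9 : 2 ^ Θ * (X : ℝ) ^ (δ / 4) ≤ 2 ^ Θ * (|f j1| * ((X : ℝ) * m) ^ θ j1) := by
        refine le_trans ?_ h3
        rw [h4]
        refine mul_le_mul h2θ ?_ (by positivity) (by positivity)
        nlinarith
      exact le_of_mul_le_mul_left h9 h7
    have hfr2 : ∀ j, |f j * (m : ℝ) ^ θ j| * (X : ℝ) ^ θ j ≤ (X : ℝ) ^ (4 * (A + 1) + 1) := by
      intro j
      rw [hsz]
      have h2 := (pow_ratio (hΘ1 j) hmX0 one_le_two hmX1 hmX2).1
      have h128 : (2 : ℝ) ^ Θ ≤ 128 ^ Θ := Real.rpow_le_rpow (by norm_num) (by norm_num) hΘ2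
      have h129 : (0 : ℝ) < 128 ^ Θ := by positivity
      calc |f j| * ((X : ℝ) * m) ^ θ j ≤ |f j| * (2 ^ Θ * (N : ℝ) ^ θ j) := by gcongr
        _ = 2 ^ Θ * (|f j| * (N : ℝ) ^ θ j) := by ring
        _ ≤ N * (N : ℝ) ^ A := by
            refine mul_le_mul (by linarith) (hfA j) (by positivity) (by positivity)
        _ = (N : ℝ) ^ (A + 1) := by rw [Real.rpow_add hN0, Real.rpow_one]; ring
        _ ≤ _ := b3
    have h1 := hX0 X b1 b hbX _ hfr1 hfr2 (Q.comp (Polynomial.C (m : ℝ) * Polynomial.X))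
      (comp_deg hQ _)
    have h2 : ∑ l ∈ Ioc (N / m) b, e (Fp θ f Q (m * l)) =
        ∑ l ∈ Ioc X b, e (∑ j, f j * (m : ℝ) ^ θ j * (l : ℝ) ^ θ j +
          (Q.comp (Polynomial.C (m : ℝ) * Polynomial.X)).eval (l : ℝ)) := by
      apply sum_congr rfl
      intro l _
      rw [Fp_mul]
    rw [h2]
    refine h1.trans ?_
    simp only [hY]
    have hXN : (X : ℝ) ≤ N / m := Nat.cast_div_le
    have hNm : 0 < (N : ℝ) / m := by positivity
    have hNm2 : (N : ℝ) ^ (1 / 2 : ℝ) ≤ N / m := by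
      rw [le_div_iff₀ hmp]
      have h3 : (m : ℝ) ≤ (N : ℝ) ^ (1 / 2 : ℝ) := by
        rw [← Real.sqrt_eq_rpow]
        apply Real.le_sqrt_of_sq_le
        have : m ^ 2 ≤ N := by rw [sq]; exact hmm
        exact_mod_cast this
      calc (N : ℝ) ^ (1 / 2 : ℝ) * m ≤ (N : ℝ) ^ (1 / 2 : ℝ) * (N : ℝ) ^ (1 / 2 : ℝ) := by gcongr
        _ = N := by rw [← Real.rpow_add hN0]; norm_num
    calc (X : ℝ) ^ (1 - ρ) ≤ (N / m : ℝ) ^ (1 - ρ) := Real.rpow_le_rpow hXp.le hXN (by linarith)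
      _ = (N / m : ℝ) * (N / m : ℝ) ^ (-ρ) := by
          rw [sub_eq_add_neg, Real.rpow_add hNm, Real.rpow_one]
      _ ≤ (N / m : ℝ) * ((N : ℝ) ^ (1 / 2 : ℝ)) ^ (-ρ) := by
          refine mul_le_mul_of_nonneg_left ?_ hNm.le
          exact Real.rpow_le_rpow_of_nonpos (by positivity) hNm2 (by linarith)
      _ = (N / m : ℝ) * (N : ℝ) ^ (-(ρ / 2)) := by
          rw [← Real.rpow_mul hN0.le]
          congr 2
          ring
  · -- type II
    intro x y A₂ B₂ hA₂ hB M L hM hL hUM hUL hML hsa hsb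
    have hMr : (1 : ℝ) ≤ M := by exact_mod_cast hM
    have hLr : (1 : ℝ) ≤ L := by exact_mod_cast hL
    have hM0 : (0 : ℝ) < M := by linarith
    have hL0 : (0 : ℝ) < L := by linarith
    have hNM : N < (2 * M) ^ 4 := lt_of_lt_of_le hU3 (Nat.pow_le_pow_left (by omega) 4)
    have hNL : N < (2 * L) ^ 4 := lt_of_lt_of_le hU3 (Nat.pow_le_pow_left (by omega) 4)
    have hMb := hbig M (by exact_mod_cast hNM.le)
    have hLb := hbig L (by exact_mod_cast hNL.le)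
    set D : ℝ := (L : ℝ) * (N : ℝ) ^ (-η) with hD
    set P : ℝ := 2 * (M : ℝ) ^ (1 - ρ) with hP
    have hLN : (L : ℝ) ≤ 2 * N := by
      have h1 : L ≤ 2 * N := (Nat.le_mul_of_pos_left L hM).trans (hML.trans hN')
      exact_mod_cast h1
    have h1 := type_II (Fp θ f Q) N N' M L P D (by positivity) (by positivity) hM hL
      (fun l l' a b g1 g2 g3 g4 g5 g6 g7 g8 => by
        have hl' : (L : ℝ) < l' := by exact_mod_cast g1
        have hll : (l' : ℝ) < l := by exact_mod_cast g2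
        have hl : (l : ℝ) ≤ 2 * L := by exact_mod_cast g3
        rcases le_or_gt b a with hba | hba
        · rw [Finset.Ioc_eq_empty (by omega), sum_empty, norm_zero]
          positivity
        have haR : (M : ℝ) ≤ a := by exact_mod_cast g4
        have ha2 : (a : ℝ) ≤ 2 * M := by exact_mod_cast (by omega : a ≤ 2 * M)
        -- the product of the two variables
        have hML1 : (N : ℝ) / 4 ≤ L * M := by
          have h1 : N < 4 * (L * M) := by
            have h2 : (a + 1) * l' ≤ (2 * M) * (2 * L) := Nat.mul_le_mul (by omega) (by omega)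
            nlinarith [g6]
          have h3 : (N : ℝ) < 4 * (L * M) := by exact_mod_cast h1
          linarith
        have hML2 : (L : ℝ) * M ≤ 8 * ((N : ℝ) / 4) := by
          have : M * L ≤ 2 * N := hML.trans hN'
          have : ((M * L : ℕ) : ℝ) ≤ ((2 * N : ℕ) : ℝ) := by exact_mod_cast this
          push_cast at this
          linarith
        have hN4' : (0 : ℝ) < (N : ℝ) / 4 := by positivity
        have hr1 : ∀ j, (N : ℝ) ^ θ j ≤ 32 ^ Θ * (((L : ℝ) * M) ^ θ j) := by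
          intro j
          have h1 := (pow_ratio (hΘ1 j) hN4' (by norm_num : (1 : ℝ) ≤ 8) hML1 hML2).1
          have h2 := (pow_ratio (hΘ1 j) hN4' (by norm_num : (1 : ℝ) ≤ 4) (by linarith)
            (by linarith : (N : ℝ) ≤ 4 * ((N : ℝ) / 4))).2
          have h3 : (32 : ℝ) ^ Θ = 4 ^ Θ * 8 ^ Θ := by
            rw [← Real.mul_rpow (by norm_num) (by norm_num)]
            norm_num
          calc (N : ℝ) ^ θ j ≤ 4 ^ Θ * ((N : ℝ) / 4) ^ θ j := h2
            _ ≤ 4 ^ Θ * (8 ^ Θ * ((L : ℝ) * M) ^ θ j) := by gcongr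
            _ = _ := by rw [h3]; ring
        have hr2 : ∀ j, ((L : ℝ) * M) ^ θ j ≤ 32 ^ Θ * (N : ℝ) ^ θ j := by
          intro j
          have h1 := (pow_ratio (hΘ1 j) hN4' (by norm_num : (1 : ℝ) ≤ 8) hML1 hML2).2
          have h2 := (pow_ratio (hΘ1 j) hN4' (by norm_num : (1 : ℝ) ≤ 4) (by linarith)
            (by linarith : (N : ℝ) ≤ 4 * ((N : ℝ) / 4))).1
          have h3 : (32 : ℝ) ^ Θ = 8 ^ Θ * 4 ^ Θ := by
            rw [← Real.mul_rpow (by norm_num) (by norm_num)]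
            norm_num
          calc ((L : ℝ) * M) ^ θ j ≤ 8 ^ Θ * ((N : ℝ) / 4) ^ θ j := h1
            _ ≤ 8 ^ Θ * (4 ^ Θ * (N : ℝ) ^ θ j) := by gcongr
            _ = _ := by rw [h3]; ring
        have ha0 : (0 : ℝ) < a := by linarith
        have hlo : ∃ j, (a : ℝ) ^ (δ / 4) ≤
            |f j * ((l : ℝ) ^ θ j - (l' : ℝ) ^ θ j)| * (a : ℝ) ^ θ j := by
          refine ⟨j1, ?_⟩
          have hgap := gap_ge (hΘ1' j1) hL0 hl'.le hll hl
          have k2 : |θ j1| / 2 ^ Θ * (L : ℝ) ^ θ j1 * (N : ℝ) ^ (-η) ≤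
              |(l : ℝ) ^ θ j1 - (l' : ℝ) ^ θ j1| := by
            refine le_trans ?_ hgap
            calc |θ j1| / 2 ^ Θ * (L : ℝ) ^ θ j1 * (N : ℝ) ^ (-η) =
                  |θ j1| / 2 ^ Θ * ((L : ℝ) ^ (θ j1 - 1) * D) := by
                  rw [hD, Real.rpow_sub hL0, Real.rpow_one]
                  field_simp
              _ ≤ _ := by gcongr
          have k3 : (M : ℝ) ^ θ j1 / 2 ^ Θ ≤ (a : ℝ) ^ θ j1 := by
            rw [div_le_iff₀ (by positivity), mul_comm]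
            exact (pow_ratio (hΘ1 j1) hM0 one_le_two haR ha2).1
          have k4 : c1 * ((N : ℝ) ^ δ * (N : ℝ) ^ (-η)) ≤
              |f j1 * ((l : ℝ) ^ θ j1 - (l' : ℝ) ^ θ j1)| * (a : ℝ) ^ θ j1 := by
            rw [abs_mul]
            have k5 : σ ≤ |θ j1| := hσ' j1
            have k6 : (N : ℝ) ^ θ j1 / 32 ^ Θ ≤ (L : ℝ) ^ θ j1 * (M : ℝ) ^ θ j1 := by
              rw [← Real.mul_rpow hL0.le hM0.le, div_le_iff₀ (by positivity), mul_comm]
              exact hr1 j1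
            calc c1 * ((N : ℝ) ^ δ * (N : ℝ) ^ (-η)) ≤
                  c1 * ((|f j1| * (N : ℝ) ^ θ j1) * (N : ℝ) ^ (-η)) := by gcongr
              _ = |f j1| * (σ / 2 ^ Θ * (N : ℝ) ^ (-η)) * ((N : ℝ) ^ θ j1 / 32 ^ Θ) / 2 ^ Θ := by
                  rw [hc1]
                  field_simp
              _ ≤ |f j1| * (|θ j1| / 2 ^ Θ * (N : ℝ) ^ (-η)) *
                    ((L : ℝ) ^ θ j1 * (M : ℝ) ^ θ j1) / 2 ^ Θ := by gcongr
              _ = |f j1| * (|θ j1| / 2 ^ Θ * (L : ℝ) ^ θ j1 * (N : ℝ) ^ (-η)) *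
                    ((M : ℝ) ^ θ j1 / 2 ^ Θ) := by ring
              _ ≤ _ := by gcongr
          refine le_trans ?_ k4
          have haN : (a : ℝ) ≤ N := by
            have h1 : a ≤ 2 * M := by exact_mod_cast ha2
            have h2 : 2 * M ≤ N := by
              have h10 : 4 ≤ L := by
                have h12 := hLb.2.2.2
                have h13 : (10 : ℝ) ≤ (N : ℝ) ^ (1 / 4 : ℝ) := by
                  calc (10 : ℝ) = ((10 : ℝ) ^ (4 : ℝ)) ^ (1 / 4 : ℝ) := by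
                        rw [← Real.rpow_mul (by norm_num)]
                        norm_num
                    _ ≤ (N : ℝ) ^ (1 / 4 : ℝ) :=
                        Real.rpow_le_rpow (by positivity) (by norm_num; linarith) (by norm_num)
                have h14 : (4 : ℝ) ≤ L := by linarith
                exact_mod_cast h14
              have h4 : b * l ≤ N' := g7
              have h7 : M + 1 ≤ b := by omega
              have h8 : L + 1 ≤ l := by omega
              have h9 : (M + 1) * (L + 1) ≤ 2 * N := (Nat.mul_le_mul h7 h8).trans (h4.trans hN')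
              by_contra hcon
              push Not at hcon
              nlinarith
            exact_mod_cast h1.trans h2
          calc (a : ℝ) ^ (δ / 4) ≤ (N : ℝ) ^ (δ / 4) :=
                Real.rpow_le_rpow ha0.le haN (by positivity)
            _ = c1 * (1 / c1) * (N : ℝ) ^ (δ / 4) := by rw [mul_one_div_cancel hc10.ne', one_mul]
            _ ≤ c1 * (N : ℝ) ^ (δ / 4) * (N : ℝ) ^ (δ / 4) := by gcongr
            _ = c1 * (N : ℝ) ^ (δ / 2) := by
                rw [mul_assoc, ← Real.rpow_add hN0]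
                congr 2
                ring
            _ ≤ c1 * ((N : ℝ) ^ δ * (N : ℝ) ^ (-η)) := by
                rw [← Real.rpow_add hN0]
                have := Real.rpow_le_rpow_of_exponent_le hN1 (show δ / 2 ≤ δ + -η by linarith)
                gcongr
        have hup : ∀ j, |f j * ((l : ℝ) ^ θ j - (l' : ℝ) ^ θ j)| * (a : ℝ) ^ θ j ≤
            (a : ℝ) ^ (4 * (A + 1) + 1) := by
          intro j
          rw [abs_mul]
          have hl1 : (L : ℝ) ≤ l := by linarith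
          have k1 : |(l : ℝ) ^ θ j - (l' : ℝ) ^ θ j| ≤ 2 * (2 ^ Θ * (L : ℝ) ^ θ j) := by
            have k2 := (pow_ratio (hΘ1 j) hL0 one_le_two hl1 hl).2
            have k3 := (pow_ratio (hΘ1 j) hL0 one_le_two hl'.le (hll.le.trans hl)).2
            have k4 : 0 < (l : ℝ) ^ θ j := Real.rpow_pos_of_pos (by linarith) _
            have k5 : 0 < (l' : ℝ) ^ θ j := Real.rpow_pos_of_pos (by linarith) _
            rw [abs_le]
            constructor <;> linarith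
          have k6 := (pow_ratio (hΘ1 j) hM0 one_le_two haR ha2).2
          have k7 : (L : ℝ) ^ θ j * (M : ℝ) ^ θ j ≤ 32 ^ Θ * (N : ℝ) ^ θ j := by
            rw [← Real.mul_rpow hL0.le hM0.le]
            exact hr2 j
          have k8 : (128 : ℝ) ^ Θ = 2 ^ Θ * 2 ^ Θ * 32 ^ Θ := by
            rw [← Real.mul_rpow (by norm_num) (by norm_num),
              ← Real.mul_rpow (by norm_num) (by norm_num)]
            norm_num
          calc |f j| * |(l : ℝ) ^ θ j - (l' : ℝ) ^ θ j| * (a : ℝ) ^ θ j ≤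
                |f j| * (2 * (2 ^ Θ * (L : ℝ) ^ θ j)) * (2 ^ Θ * (M : ℝ) ^ θ j) := by gcongr
            _ = 2 * (2 ^ Θ * 2 ^ Θ) * (|f j| * ((L : ℝ) ^ θ j * (M : ℝ) ^ θ j)) := by ring
            _ ≤ 2 * (2 ^ Θ * 2 ^ Θ) * (|f j| * (32 ^ Θ * (N : ℝ) ^ θ j)) := by gcongr
            _ = 2 * 128 ^ Θ * (|f j| * (N : ℝ) ^ θ j) := by rw [k8]; ring
            _ ≤ N * (N : ℝ) ^ A := by
                refine mul_le_mul h4θ (hfA j) (by positivity) (by positivity)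
            _ = (N : ℝ) ^ (A + 1) := by rw [Real.rpow_add hN0, Real.rpow_one]; ring
            _ ≤ (M : ℝ) ^ (4 * (A + 1) + 1) := hMb.2.2.1
            _ ≤ _ := Real.rpow_le_rpow hM0.le haR (by positivity)
        have h1 := hX0 a (hMb.1.trans g4) b (by omega) _ hlo hup
          (Q.comp (Polynomial.C (l : ℝ) * Polynomial.X) -
            Q.comp (Polynomial.C (l' : ℝ) * Polynomial.X))
          ((Polynomial.natDegree_sub_le _ _).trans (max_le (comp_deg hQ _) (comp_deg hQ _)))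
        have h2 : ∑ m ∈ Ioc a b, e (Fp θ f Q (l * m) - Fp θ f Q (l' * m)) =
            ∑ m ∈ Ioc a b, e (∑ j, f j * ((l : ℝ) ^ θ j - (l' : ℝ) ^ θ j) * (m : ℝ) ^ θ j +
              (Q.comp (Polynomial.C (l : ℝ) * Polynomial.X) -
                Q.comp (Polynomial.C (l' : ℝ) * Polynomial.X)).eval (m : ℝ)) := by
          refine sum_congr rfl fun m _ => ?_
          congr 1
          rw [Fp_mul, Fp_mul, Polynomial.eval_sub]
          have k9 : ∑ j, f j * ((l : ℝ) ^ θ j - (l' : ℝ) ^ θ j) * (m : ℝ) ^ θ j =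
              ∑ j, f j * (l : ℝ) ^ θ j * (m : ℝ) ^ θ j -
                ∑ j, f j * (l' : ℝ) ^ θ j * (m : ℝ) ^ θ j := by
            rw [← sum_sub_distrib]
            refine sum_congr rfl fun j _ => ?_
            ring
          rw [k9]
          ring
        rw [h2]
        refine h1.trans ?_
        calc (a : ℝ) ^ (1 - ρ) ≤ (2 * M) ^ (1 - ρ) :=
              Real.rpow_le_rpow (Nat.cast_nonneg _) ha2 (by linarith)
          _ = 2 ^ (1 - ρ) * (M : ℝ) ^ (1 - ρ) := Real.mul_rpow (by norm_num) hM0.le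
          _ ≤ 2 ^ (1 : ℝ) * (M : ℝ) ^ (1 - ρ) := by
              gcongr
              · norm_num
              · linarith
          _ = P := by rw [Real.rpow_one, hP]) x y
    refine h1.trans ?_
    rw [hR2]
    set T : ℝ := (2 * D + 1) * M + L * P with hT
    have hT0 : 0 ≤ T := by positivity
    have hNη : 0 < (N : ℝ) ^ (-η) := Real.rpow_pos_of_pos hN0 _
    have t1 : (1 : ℝ) / L ≤ 2 * (N : ℝ) ^ (-η) := by
      have h2 := hLb.2.2.2
      have h3 : (N : ℝ) ^ η ≤ (N : ℝ) ^ (1 / 4 : ℝ) :=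
        Real.rpow_le_rpow_of_exponent_le hN1 (by linarith)
      rw [Real.rpow_neg hN0.le, div_le_iff₀ hL0]
      have h4 : 0 < (N : ℝ) ^ η := Real.rpow_pos_of_pos hN0 _
      have h5 : (N : ℝ) ^ η ≤ 2 * L := h3.trans h2
      calc (1 : ℝ) = (N : ℝ) ^ η * ((N : ℝ) ^ η)⁻¹ := by field_simp
        _ ≤ 2 * L * ((N : ℝ) ^ η)⁻¹ := by gcongr
        _ = _ := by ring
    have t2 : (M : ℝ) ^ (-ρ) ≤ 2 * (N : ℝ) ^ (-η) := by
      have h2 := hMb.2.2.2
      have h3 : (2 * (M : ℝ)) ^ (-ρ) ≤ ((N : ℝ) ^ (1 / 4 : ℝ)) ^ (-ρ) :=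
        Real.rpow_le_rpow_of_nonpos (by positivity) h2 (by linarith)
      rw [← Real.rpow_mul hN0.le, Real.mul_rpow (by norm_num) hM0.le] at h3
      have h4 : (1 : ℝ) / 2 ≤ (2 : ℝ) ^ (-ρ) := by
        calc (1 : ℝ) / 2 = (2 : ℝ) ^ (-1 : ℝ) := by rw [Real.rpow_neg_one]; norm_num
          _ ≤ _ := Real.rpow_le_rpow_of_exponent_le (by norm_num) (by linarith)
      have h5 : (N : ℝ) ^ (1 / 4 * -ρ) ≤ (N : ℝ) ^ (-η) :=
        Real.rpow_le_rpow_of_exponent_le hN1 (by linarith)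
      have h6 : 0 < (M : ℝ) ^ (-ρ) := Real.rpow_pos_of_pos hM0 _
      nlinarith
    have hMLr : (M : ℝ) * L ≤ 2 * N := by
      have : ((M * L : ℕ) : ℝ) ≤ ((2 * N : ℕ) : ℝ) := by exact_mod_cast hML.trans hN'
      push_cast at this; exact this
    have hMLT : (M : ℝ) * L * T ≤ 36 * ((N : ℝ) ^ 2 * (N : ℝ) ^ (-η)) := by
      have e1 : (M : ℝ) * L * T = ((M : ℝ) * L) ^ 2 *
          (2 * (N : ℝ) ^ (-η) + 1 / L + 2 * (M : ℝ) ^ (-ρ)) := by
        have e2 : P = 2 * (M * (M : ℝ) ^ (-ρ)) := by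
          rw [hP, sub_eq_add_neg, Real.rpow_add hM0, Real.rpow_one]
        rw [hT, e2, hD]
        field_simp
      rw [e1]
      calc ((M : ℝ) * L) ^ 2 * (2 * (N : ℝ) ^ (-η) + 1 / L + 2 * (M : ℝ) ^ (-ρ)) ≤
            (2 * N) ^ 2 * (2 * (N : ℝ) ^ (-η) + 2 * (N : ℝ) ^ (-η) + 2 * (2 * (N : ℝ) ^ (-η))) := by
            gcongr
        _ = 32 * ((N : ℝ) ^ 2 * (N : ℝ) ^ (-η)) := by ring
        _ ≤ _ := by
            have : 0 ≤ (N : ℝ) ^ 2 * (N : ℝ) ^ (-η) := by positivity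
            linarith
    calc (∑ m ∈ Ioc M (2 * M), ‖x m‖ ^ 2) * ((∑ l ∈ Ioc L (2 * L), ‖y l‖ ^ 2) * T)
        ≤ (A₂ * M) * ((B₂ * L) * T) := by
          apply mul_le_mul hsa _ _ (by positivity)
          · exact mul_le_mul_of_nonneg_right hsb hT0
          · exact mul_nonneg (sum_nonneg fun _ _ => by positivity) hT0
      _ = A₂ * B₂ * ((M : ℝ) * L * T) := by ring
      _ ≤ A₂ * B₂ * (36 * ((N : ℝ) ^ 2 * (N : ℝ) ^ (-η))) :=
          mul_le_mul_of_nonneg_left hMLT (by positivity)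

end Pool.Agent.Q270.SQ
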